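import Pool.Agent.Lib.MP_d4b40b_lc.Card

set_option autoImplicit false

namespace Pool.Agent.Lib.MP_72fca1_lc

open Pool.Agent.Lib.MP_d4b40b_lc Set Cardinal

/-- chain condition: every set has a small subset which is dense for compatibility -/
def CC {H : Type} (le : H → H → Prop) (ρ : Cardinal.{0}) : Prop :=
  ∀ D : Set H, ∃ A ⊆ D, #A < ρ ∧ ∀ d ∈ D, ∃ a ∈ A, ∃ e, le e d ∧ le e a

/-- chains of size `< ρ` have lower bounds -/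
def CL {S : Type} (le : S → S → Prop) (ρ : Cardinal.{0}) : Prop :=
  ∀ (I : Type) (f : I → S), Nonempty I → #I < ρ →
    (∀ i j, le (f i) (f j) ∨ le (f j) (f i)) → ∃ s, ∀ i, le s (f i)

theorem easton1 {H S : Type} (l1 : H → H → Prop) (l2 : S → S → Prop) (r1 : ∀ a, l1 a a)
    (r2 : ∀ a, l2 a a) (t2 : ∀ a b c, l2 a b → l2 b c → l2 a c) {ρ : Cardinal.{0}}
    (hcc : CC l1 ρ) (hcl : CL l2 ρ) (G : H → S → Prop)
    (hG : ∀ c c' u u', G c u → l1 c' c → l2 u' u → G c' u')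
    (t1 : ∀ a b c, l1 a b → l1 b c → l1 a c) (u0 : S) :
    ∃ u, l2 u u0 ∧ ∀ c, ∃ c', l1 c' c ∧ (G c' u ∨ ∀ c'' u', l1 c'' c' → l2 u' u → ¬ G c'' u') := by
  let An : Set H → Prop := fun A => ∀ a ∈ A, ∀ b ∈ A, (∃ e, l1 e a ∧ l1 e b) → a = b
  let T := {x : Set H × S // An x.1 ∧ (∀ a ∈ x.1, G a x.2) ∧ l2 x.2 u0}
  let r : T → T → Prop := fun x y => x = y ∨ (x.1.1 ⊂ y.1.1 ∧ l2 y.1.2 x.1.2)
  have rs : ∀ x y, r x y → x.1.1 ⊆ y.1.1 ∧ l2 y.1.2 x.1.2 := by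
    rintro x y (rfl | h)
    · exact ⟨Subset.rfl, r2 _⟩
    · exact ⟨h.1.1, h.2⟩
  obtain ⟨m, hm⟩ := exists_maximal_of_chains_bounded (r := r) (fun c hc => by
      have tot : ∀ x ∈ c, ∀ y ∈ c, r x y ∨ r y x := fun x hx y hy => by
        by_cases e : x = y
        · exact Or.inl (Or.inl e)
        · exact hc hx hy e
      by_cases h0 : ∃ x ∈ c, ∀ y ∈ c, y.1.1 ⊆ x.1.1
      · obtain ⟨x, hx, h⟩ := h0
        refine ⟨x, fun y hy => (tot y hy x hx).elim id ?_⟩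
        rintro (rfl | k)
        · exact Or.inl rfl
        · exact absurd (h y hy) k.1.2
      rcases c.eq_empty_or_nonempty with rfl | ⟨x0, hx0⟩
      · exact ⟨⟨(∅, u0), fun _ h => h.elim, fun _ h => h.elim, r2 _⟩, fun _ h => h.elim⟩
      let A : Set H := {a | ∃ x ∈ c, a ∈ x.1.1}
      have hA : An A := by
        rintro a ⟨x, hx, ha⟩ b ⟨y, hy, hb⟩ e
        rcases tot x hx y hy with k | k
        · exact y.2.1 a ((rs _ _ k).1 ha) b hb e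
        · exact x.2.1 a ha b ((rs _ _ k).1 hb) e
      have hs : #A < ρ := by
        obtain ⟨A', h1, h2, h3⟩ := hcc A
        refine (mk_le_mk_of_subset fun d hd => ?_).trans_lt h2
        obtain ⟨a, k1, k2⟩ := h3 d hd
        exact hA d hd a (h1 k1) k2 ▸ k1
      have hx : ∀ x ∈ c, ∃ a ∈ A, a ∉ x.1.1 := fun x hx => by
        by_contra k
        exact h0 ⟨x, hx, fun y hy a ha => by_contra fun l => k ⟨a, ⟨y, hy, ha⟩, l⟩⟩
      choose w w1 w2 using fun a : A => a.2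
      obtain ⟨a0, ha0, -⟩ := hx x0 hx0
      obtain ⟨s, hs'⟩ := hcl A (fun a => (w a).1.2) ⟨⟨a0, ha0⟩⟩ hs fun i j =>
        (tot _ (w1 i) _ (w1 j)).symm.imp (fun k => (rs _ _ k).2) fun k => (rs _ _ k).2
      refine ⟨⟨(A, s), hA, fun a ha => hG _ _ _ _ ((w ⟨a, ha⟩).2.2.1 a (w2 ⟨a, ha⟩)) (r1 _)
        (hs' ⟨a, ha⟩), t2 _ _ _ (hs' ⟨a0, ha0⟩) (w ⟨a0, ha0⟩).2.2.2⟩, fun y hy => Or.inr ?_⟩
      obtain ⟨a, k1, k2⟩ := hx y hy
      refine ⟨⟨fun b hb => ⟨y, hy, hb⟩, fun k => k2 (k k1)⟩, ?_⟩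
      rcases tot y hy _ (w1 ⟨a, k1⟩) with k | k
      · exact t2 _ _ _ (hs' ⟨a, k1⟩) (rs _ _ k).2
      · exact absurd ((rs _ _ k).1 (w2 ⟨a, k1⟩)) k2)
    (by
      rintro x y z (rfl | h) k
      · exact k
      · exact Or.inr ⟨h.1.trans_subset (rs _ _ k).1, t2 _ _ _ (rs _ _ k).2 h.2⟩)
  refine ⟨m.1.2, m.2.2.2, fun c => ?_⟩
  by_cases h : ∃ a ∈ m.1.1, ∃ e, l1 e c ∧ l1 e a
  · obtain ⟨a, k1, e, k2, k3⟩ := h
    exact ⟨e, k2, Or.inl (hG _ _ _ _ (m.2.2.1 a k1) k3 (r2 _))⟩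
  · refine ⟨c, r1 _, Or.inr fun c'' u' k1 k2 k3 => ?_⟩
    have n1 : ∀ a ∈ m.1.1, ¬ ∃ e, l1 e c'' ∧ l1 e a := fun a ha ⟨e, e1, e2⟩ =>
      h ⟨a, ha, e, t1 _ _ _ e1 k1, e2⟩
    have n2 : c'' ∉ m.1.1 := fun k => n1 _ k ⟨_, r1 _, r1 _⟩
    have := hm ⟨(insert c'' m.1.1, u'), by
        rintro a (rfl | ha) b (rfl | hb) e
        · rfl
        · exact absurd e (n1 b hb)
        · exact absurd (e.imp fun _ k => k.symm) (n1 a ha)
        · exact m.2.1 a ha b hb e, by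
        rintro a (rfl | ha)
        · exact k3
        · exact hG _ _ _ _ (m.2.2.1 a ha) (r1 _) k2, t2 _ _ _ k2 m.2.2.2⟩
      (Or.inr ⟨ssubset_insert n2, k2⟩)
    exact n2 ((rs _ _ this).1 (mem_insert _ _))

theorem meet_lt {S : Type} (le : S → S → Prop) (hr : ∀ s, le s s)
    (ht : ∀ a b c, le a b → le b c → le a c) {ρ : Cardinal.{0}} (hcl : CL le ρ)
    {T : Type} (hT : #T < ρ) (G : T → S → Prop) (hop : ∀ τ a b, G τ a → le b a → G τ b)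
    (s0 : S) (hd : ∀ τ s, ∃ s', le s' s ∧ G τ s') : ∃ s, le s s0 ∧ ∀ τ, G τ s :=
  seq_meet le hr ht (ρ := #T) (fun I f h1 h2 h3 => hcl I f h1 (h2.trans_lt hT) h3) le_rfl G hop s0
    fun τ s _ => hd τ s

/-- Easton's lemma, combinatorial form -/
theorem easton {H S : Type} (l1 : H → H → Prop) (l2 : S → S → Prop) (r1 : ∀ a, l1 a a)
    (t1 : ∀ a b c, l1 a b → l1 b c → l1 a c)
    (r2 : ∀ a, l2 a a) (t2 : ∀ a b c, l2 a b → l2 b c → l2 a c) {ρ : Cardinal.{0}}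
    (hcc : CC l1 ρ) (hcl : CL l2 ρ) {J : Type} (hJ : #J < ρ) (G : J → H → S → Prop)
    (hG : ∀ j c c' u u', G j c u → l1 c' c → l2 u' u → G j c' u') (u0 : S) :
    ∃ u, l2 u u0 ∧ ∀ j c, ∃ c', l1 c' c ∧
      (G j c' u ∨ ∀ c'' u', l1 c'' c' → l2 u' u → ¬ G j c'' u') :=
  meet_lt l2 r2 t2 hcl hJ (fun j u => ∀ c, ∃ c', l1 c' c ∧
      (G j c' u ∨ ∀ c'' u', l1 c'' c' → l2 u' u → ¬ G j c'' u'))
    (fun _ _ _ h hb c => (h c).imp fun _ k => ⟨k.1, k.2.imp (fun e => hG _ _ _ _ _ e (r1 _) hb)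
      fun e c'' u' e1 e2 => e c'' u' e1 (t2 _ _ _ e2 hb)⟩) u0
    fun j s => easton1 l1 l2 r1 r2 t2 hcc hcl (G j) (hG j) t1 s

lemma cc_prod {A H : Type} (l0 : A → A → Prop) (l1 : H → H → Prop) (r0 : ∀ a, l0 a a)
    {ρ : Cardinal.{0}} (hρ : ρ.IsRegular) (hA : #A < ρ) (h : CC l1 ρ) :
    CC (fun x y : A × H => l0 x.1 y.1 ∧ l1 x.2 y.2) ρ := by
  intro D
  choose B b1 b2 b3 using fun a : A => h {c | (a, c) ∈ D}
  refine ⟨⋃ a, Prod.mk a '' B a, ?_, ?_, fun d hd => ?_⟩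
  · rintro _ ⟨_, ⟨a, rfl⟩, c, hc, rfl⟩
    exact b1 a hc
  · exact (card_iUnion_lt_iff_forall_of_isRegular hρ hA).2 fun a => mk_image_le.trans_lt (b2 a)
  · obtain ⟨c, k1, e, k2, k3⟩ := b3 d.1 d.2 hd
    exact ⟨(d.1, c), mem_iUnion.2 ⟨d.1, c, k1, rfl⟩, (d.1, e), ⟨r0 _, k2⟩, r0 _, k3⟩

section K

variable {K : Type} [LinearOrder K]

/-- the size of an ordinal -/
abbrev cd (β : K) : Cardinal.{0} := #(Iio β)

lemma cd_mono {β γ : K} (h : β ≤ γ) : cd β ≤ cd γ := mk_le_mk_of_subset (Iio_subset_Iio h)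

lemma lt_of_cd {β γ : K} (h : cd β < cd γ) : β < γ := not_le.1 fun l => absurd (cd_mono l) (not_le.2 h)

variable [WellFoundedLT K]

lemma mk_Lt {ρ : Cardinal.{0}} (h : ρ ≤ #K) : #(Lt K ρ) = ρ := (mk_Lt_le ρ).antisymm (le_mk_Lt h)

lemma exists_Iio_eq {ρ : Cardinal.{0}} (h : ρ < #K) : ∃ w : K, Iio w = Lt K ρ := by
  obtain ⟨β, -, h1⟩ := exists_Lt_notMem (K := K) le_rfl ((mk_Lt_le ρ).trans_lt h)
  obtain ⟨w, h2, h3⟩ := (wellFounded_lt (α := K)).has_min {β | β ∉ Lt K ρ} ⟨β, h1⟩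
  exact ⟨w, Subset.antisymm (fun γ l => by_contra fun k => h3 γ k l)
    fun γ k => not_le.1 fun l => h2 (lower_Lt ρ l k)⟩

lemma exists_cd {ρ : Cardinal.{0}} (h : ρ < #K) : ∃ w : K, cd w = ρ := by
  obtain ⟨w, hw⟩ := exists_Iio_eq h
  exact ⟨w, by rw [cd, hw, mk_Lt h.le]⟩

theorem exists_closed {lam ν : Cardinal.{0}} (hl : lam.IsRegular) (hK : lam ≤ #K)
    (hν : ν.IsRegular) (h : ν < lam) (g : K → K) (hg : ∀ β ∈ Lt K lam, g β ∈ Lt K lam) :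
    ∃ δ ∈ Lt K lam, (∀ β < δ, g β < δ) ∧ (∀ S ⊆ Iio δ, #S < ν → ∃ β < δ, S ⊆ Iio β) ∧
      ∃ f : ν.ord.ToType → K, (∀ i, f i < δ) ∧ ∀ β < δ, ∃ i, β < f i := by
  have hb : ∀ S : Set K, ∃ δ ∈ Lt K lam, #S < lam → S ⊆ Lt K lam → ∀ β ∈ S, β < δ := fun S => by
    by_cases k : #S < lam ∧ S ⊆ Lt K lam
    · obtain ⟨δ, k1, k2⟩ := exists_Lt_bound hK hl k.1 k.2
      exact ⟨δ, k1, fun _ _ => k2⟩
    · obtain ⟨δ, k1, -⟩ := exists_Lt_notMem hK (S := ∅) (by simpa using hl.pos)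
      exact ⟨δ, k1, fun a b => absurd ⟨a, b⟩ k⟩
  choose bd b1 b2 using hb
  let N := ν.ord.ToType
  have hN : #N = ν := by simp [N]
  have hI : ∀ i : N, cd i < ν := fun i => by simpa [N] using mk_Iio_lt i
  let f : N → K := (wellFounded_lt (α := N)).fix fun i f =>
    bd (⋃ j : Iio i, Iic (f j.1 j.2) ∪ g '' Iic (f j.1 j.2))
  have hf : ∀ i, f i = bd (⋃ j : Iio i, Iic (f j.1) ∪ g '' Iic (f j.1)) :=
    fun i => (wellFounded_lt (α := N)).fix_eq _ i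
  have f1 : ∀ i, f i ∈ Lt K lam := fun i => hf i ▸ b1 _
  have f2 : ∀ i j, j < i → ∀ β ≤ f j, β < f i ∧ g β < f i := fun i j l β hβ => by
    have k := b2 (⋃ j : Iio i, Iic (f j.1) ∪ g '' Iic (f j.1))
      ((card_iUnion_lt_iff_forall_of_isRegular hl ((hI i).trans h)).2 fun j =>
        mk_union_lt' hl.1 (mk_Iic_lt hl.1 (f1 _)) (mk_image_le.trans_lt (mk_Iic_lt hl.1 (f1 _))))
      (iUnion_subset fun j => union_subset (fun γ k => lower_Lt _ k (f1 _))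
        (image_subset_iff.2 fun γ k => hg γ (lower_Lt _ k (f1 _))))
    rw [← hf] at k
    exact ⟨k _ (mem_iUnion.2 ⟨⟨j, l⟩, Or.inl hβ⟩), k _ (mem_iUnion.2 ⟨⟨j, l⟩, Or.inr ⟨β, hβ, rfl⟩⟩)⟩
  have nb : ∀ S : Set N, #S < ν → ∃ i, ∀ j ∈ S, j < i := fun S hS => by
    obtain ⟨i, -, k⟩ := exists_Lt_bound (K := N) hN.ge hν hS fun j _ => hI j
    exact ⟨i, k⟩
  obtain ⟨δ0, d1, d2⟩ := exists_Lt_bound hK hl (S := range f) (mk_range_le.trans_lt (hN ▸ h))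
    (range_subset_iff.2 f1)
  obtain ⟨δ, d3, d4⟩ := (wellFounded_lt (α := K)).has_min {β | ∀ i, f i < β}
    ⟨δ0, fun i => d2 _ (mem_range_self i)⟩
  have d5 : ∀ β < δ, ∃ i, β ≤ f i := fun β l => by
    by_contra k
    exact d4 β (fun i => not_le.1 fun e => k ⟨i, e⟩) l
  have nx : ∀ j : N, ∃ i, j < i := fun j =>
    (nb {j} (by simpa using one_lt_aleph0.trans_le hν.1)).imp fun _ k => k j rfl
  refine ⟨δ, lower_Lt _ (not_lt.1 (d4 δ0 fun i => d2 _ (mem_range_self i))) d1, fun β l => ?_,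
    fun S h1 h2 => ?_, f, d3, fun β l => ?_⟩
  · obtain ⟨j, k⟩ := d5 β l
    obtain ⟨i, k'⟩ := nx j
    exact (f2 i j k' β k).2.trans (d3 i)
  · choose j hj using fun β : S => d5 β (h1 β.2)
    obtain ⟨i, k⟩ := nb (range j) (mk_range_le.trans_lt h2)
    exact ⟨f i, d3 i, fun β hβ => (f2 i _ (k _ (mem_range_self ⟨β, hβ⟩)) β (hj ⟨β, hβ⟩)).1⟩
  · obtain ⟨j, k⟩ := d5 β l
    obtain ⟨i, k'⟩ := nx j
    exact ⟨i, (f2 i j k' β k).1⟩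

end K

/-- `σ ^ (< ν) ≤ σ` -/
def Pw (σ ν : Cardinal.{0}) : Prop := ∀ ρ < ν, σ ^ ρ ≤ σ

lemma cnt {σ ν : Cardinal.{0}} (hσ : ℵ₀ ≤ σ) (hν : ν ≤ σ) (h : Pw σ ν) {A : Type} {Z : Set A}
    (hZ : #Z ≤ σ) : #{t : Set A | t ⊆ Z ∧ #t < ν} ≤ σ := by
  let N := ν.ord.ToType
  have hN : #N = ν := by simp [N]
  have hI : ∀ i : N, cd i < ν := fun i => by simpa [N] using mk_Iio_lt i
  refine (mk_le_mk_of_subset (t := ⋃ i : N, {t : Set A | t ⊆ Z ∧ #t ≤ cd i}) fun t ht => ?_).trans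
    (mk_iUnion_le' hσ (hN.trans_le hν) fun i => ?_)
  · obtain ⟨w, hw⟩ := exists_cd (K := N) (ht.2.trans_eq hN.symm)
    exact mem_iUnion.2 ⟨w, ht.1, hw.ge⟩
  · exact (mk_bounded_subset_le Z _).trans
      ((power_le_power_right (max_le hZ hσ)).trans (h _ (hI i)))

lemma pw_succ {ρ : Cardinal.{0}} (h0 : ℵ₀ ≤ ρ) (h : 2 ^ ρ = Order.succ ρ) :
    Pw (Order.succ ρ) (Order.succ ρ) := fun τ hτ => by
  rw [← h, ← power_mul]
  exact power_le_power_left two_ne_zero (mul_le' h0 le_rfl (Order.lt_succ_iff.1 hτ))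

lemma pw_inacc {c : Cardinal.{0}} (h : IsInaccessible c) : Pw c c := fun _ hb => inacc_pow_le h hb

lemma pw_fin {σ : Cardinal.{0}} (h : ℵ₀ ≤ σ) : Pw σ ℵ₀ := fun _ hb => pow_le h hb

/-- few small subsets -/
def Sm (ν lam : Cardinal.{0}) : Prop :=
  ∀ (A : Type) (Z : Set A), #Z < lam → #{t : Set A | t ⊆ Z ∧ #t < ν} < lam

lemma sm_inacc {c : Cardinal.{0}} (h : IsInaccessible c) (ν : Cardinal.{0}) : Sm ν c :=
  fun A Z hZ => by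
    refine lt_of_le_of_lt ?_ (h.isStrongPrelimit hZ)
    rw [← mk_powerset]
    exact mk_le_mk_of_subset fun t ht => ht.1

lemma sm_fin {c : Cardinal.{0}} (h : ℵ₀ < c) : Sm ℵ₀ c := fun _ Z hZ =>
  (cnt (le_max_right #Z ℵ₀) (le_max_right _ _) (pw_fin (le_max_right _ _)) (le_max_left _ _)).trans_lt
    (max_lt hZ h)

end Pool.Agent.Lib.MP_72fca1_lc
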