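import Pool.Agent.Lib.MP_72fca1_lc.Prikry

set_option autoImplicit false
set_option linter.unusedSectionVars false

namespace Pool.Agent.Lib.MP_72fca1_lc

open Pool.Agent.Lib.MP_d4b40b_lc Set Cardinal Filter

/-- there are at most `σ` names for subsets of `J` -/
def Cov (P : Type) [Preorder P] (J : Type) (σ : Cardinal.{0}) : Prop :=
  ∃ (Φ : Type) (N : Φ → J → P → Prop), #Φ ≤ σ ∧ (∀ φ j, Mon (N φ j)) ∧
    ∀ Q : J → P → Prop, (∀ j, Mon (Q j)) → (∀ j, Reg (Q j)) → ∀ p, ∃ r ≤ p, ∃ φ, ∀ j, ∀ q ≤ r,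
      (N φ j q → Q j q) ∧ (Q j q → ∃ q' ≤ q, N φ j q')

theorem cov_of_cc {P J : Type} [Preorder P] {σ : Cardinal.{0}} (hσ : σ.IsRegular) (hp : Pw σ σ)
    (hP : #P ≤ σ) (hJ : #J < σ) (hcc : CC (fun p q : P => p ≤ q) σ) : Cov P J σ := by
  refine ⟨{φ : Set (J × P) | φ ⊆ Set.univ ∧ #φ < σ}, fun φ j q => ∃ a, (j, a) ∈ φ.1 ∧ q ≤ a,
    cnt hσ.1 le_rfl hp (by rw [mk_univ]; exact mk_prod_le' hσ.1 hJ.le hP),
    fun _ _ _ _ ⟨a, h, k⟩ e => ⟨a, h, e.trans k⟩, fun Q hm _ p => ?_⟩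
  choose A a1 a2 a3 using fun j => hcc {a | Q j a}
  refine ⟨p, le_rfl, ⟨⋃ j, Prod.mk j '' A j, subset_univ _,
    (card_iUnion_lt_iff_forall_of_isRegular hσ hJ).2 fun j => mk_image_le.trans_lt (a2 j)⟩,
    fun j q _ => ⟨?_, fun k => ?_⟩⟩
  · rintro ⟨a, ⟨_, ⟨i, rfl⟩, b, k, e⟩, k'⟩
    cases e
    exact hm _ _ _ (a1 _ k) k'
  · obtain ⟨a, k1, e, k2, k3⟩ := a3 j q k
    exact ⟨e, k2, a, mem_iUnion.2 ⟨j, a, k1, rfl⟩, k3⟩

variable {B I Y O : Type} [LinearOrder B] [WellFoundedLT B] [LinearOrder O] [WellFoundedLT O]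
  {S : Bot B I Y O} {Γ : Gui S}

namespace Cond

lemma mk_le : #(Cond Γ) ≤ Order.succ S.κ := by
  have i : ℵ₀ ≤ Order.succ S.κ := S.inf.trans (Order.le_succ _)
  have k : S.κ ≤ 2 ^ S.κ := (cantor _).le
  refine (mk_le_of_injective (f := fun p : Cond Γ => (p.s, p.c, p.A, p.F)) ?_).trans
    (mk_prod_le' i (S.mk_L.trans (Order.le_succ _)) (mk_prod_le' i
      (S.mk_Q.le.trans (Order.le_succ _)) (mk_prod_le' i ?_ ?_)))
  · rintro ⟨⟩ ⟨⟩ e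
    cases e
    rfl
  · rw [← power_def]
    exact S.pow_κ (by rw [mk_set]; exact power_le_power_left two_ne_zero S.hY) S.mk_L
  · rw [← power_def]
    exact S.pow_κ (S.mk_Q.le.trans k) S.mk_L

/-- two conditions with a common lower part are compatible -/
lemma common {p q : Cond Γ} (e : q.s = p.s) {c : Set (T3 B)} (hc : Hd S.l (p.s.length + 1) c)
    (h1 : p.c ⊆ c) (h2 : q.c ⊆ c) (h3 : ∀ z ∈ q.A p.s, q.F (z :: p.s) ⊆ p.F (z :: p.s)) :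
    ∃ r ≤ p, r ≤ q := by
  obtain ⟨η, -⟩ := S.bnd (A := Empty) (by simp) Empty.elim
  obtain ⟨A, hA, η', -, -, h⟩ := exists_nf p.s (fun z => p.F (z :: p.s)) (fun z => p.hF (z :: p.s))
    (J := Bool) ((lt_aleph0_of_finite _).trans_le (S.sc.inf _)) (fun b => cond b p q)
    (fun b => by cases b; exacts [e, rfl])
    (fun b => by cases b; exacts [h3, fun _ _ => Subset.rfl]) η (fun _ => Set.univ)
    fun _ => univ_mem
  exact ⟨_, h c hc true h1, h c hc false h2⟩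

lemma exists_top (p : Cond Γ) (η : O) (ι : I) : ∃ q ≤ p, ∃ y, q.s = y :: p.s ∧ ι ∈ S.el y ∧
    #(S.el y) < S.l (p.s.length + 2) ∧ ∀ z, Γ.G η (z :: y :: p.s) ⊆ q.F (z :: y :: p.s) := by
  obtain ⟨A, hA, η', h1, -, h⟩ := exists_nf p.s (fun z => p.F (z :: p.s))
    (fun z => p.hF (z :: p.s)) (J := Unit) ((lt_aleph0_of_finite _).trans_le (S.sc.inf _))
    (fun _ => p) (fun _ => rfl) (fun _ _ _ => Subset.rfl) η (fun _ => Set.univ) fun _ => univ_mem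
  obtain ⟨y, k1, k2, k3, k4⟩ := (Eventually.and (hA p.s) ((S.fine _ ι).and ((S.small _).and
    (Γ.mono _ _ h1 _)))).exists
  have k0 := h p.c p.hc () Subset.rfl
  exact ⟨ext (nf Γ p.s p.c p.hc A hA _ _ η') y k1, (ext_le _ y _).trans k0, y, rfl, k2, k3,
    fun z => (k4 _ z rfl).trans
      (nfF_up (Γ := Γ) (fun z => p.F (z :: p.s)) η' z y (List.suffix_refl p.s)).ge⟩

theorem cc : CC (fun p q : Cond Γ => p ≤ q) (Order.succ S.κ) := by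
  intro D
  obtain ⟨idx⟩ := (Cardinal.le_def _ _).1 ((mk_le (Γ := Γ)).trans S.hO.ge)
  obtain ⟨η, ι, key⟩ := Γ.key (fun t c u γ => Good (fun p => ∃ d ∈ D, idx d = γ ∧ p ≤ d) t c u)
    fun _ _ _ _ _ _ => Good.mono
  refine ⟨{d | d ∈ D ∧ idx d < η}, fun _ k => k.1, Order.lt_succ_iff.2 (le_trans
    (mk_le_of_injective (f := fun d : {d | d ∈ D ∧ idx d < η} => (⟨idx d, d.2.2⟩ : Iio η))
      fun _ _ e => Subtype.ext (idx.injective (congrArg Subtype.val e))) (S.hO' η)), fun d hd => ?_⟩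
  obtain ⟨q, q1, y, q2, q3, q4, q5⟩ := d.exists_top η ι
  obtain ⟨c, c1, c2, c3⟩ := key y d.s q3 q4 q.c (by have := q.hc; rwa [q2] at this)
  obtain ⟨γ, g1, p, p1, p2, p3, a, a1, rfl, a3⟩ := c3.resolve_right fun k =>
    k c (fun z => q.F (z :: y :: d.s)) (idx d) Subset.rfl c2 q5 (fun z => q.hF (z :: y :: d.s))
      ⟨q, q2, c1, fun _ _ => Subset.rfl, d, hd, rfl, q1⟩
  obtain ⟨r, r1, r2⟩ := common (p := q) (q := p) (p1.trans q2.symm) (c := c) (by rwa [q2]) c1 p2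
    (by rw [q2]; exact fun z k => (p3 z k).trans (q5 z))
  exact ⟨a, ⟨a1, g1⟩, r, r1.trans q1, r2.trans a3⟩

theorem cov_top {J : Type} (hJ : #J ≤ S.κ) : Cov (Cond Γ) J (Order.succ S.κ) :=
  cov_of_cc (isRegular_succ S.inf) (pw_succ S.inf S.gch) mk_le (Order.lt_succ_iff.2 hJ) cc

theorem cov_low (n : ℕ) {J : Type} (hJ : #J < S.l (n + 1)) : Cov (Cond Γ) J (S.l (n + 1)) := by
  have rg := S.sc.reg (n + 1)
  refine ⟨{φ : Set (J × {a : Set (T3 B) // Hd S.l (n + 1) a}) | φ ⊆ Set.univ ∧ #φ < S.l (n + 1)},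
    fun φ j q => ∃ a, (j, a) ∈ φ.1 ∧ a.1 ⊆ q.c, cnt rg.1 le_rfl (S.pw n)
      (by rw [mk_univ]; exact mk_prod_le' rg.1 hJ.le (mk_hd S.sc (S.pw n))),
    fun _ _ _ _ ⟨a, h, k⟩ e => ⟨a, h, k.trans e.c⟩, fun Q hm hr p0 => ?_⟩
  obtain ⟨p, p1, p2⟩ := p0.exists_len n
  set m := p.s.length with em
  let T := {x : Set (T3 B) × (Y → Set (T3 B)) //
    Tl S.l (n + 1) x.1 ∧ x.1 ⊆ Lo (S.l (m + 1)) ∧ S.Val (m + 1) x.2}
  have lm := S.sc.mono.monotone (Nat.succ_le_succ p2)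
  obtain ⟨x, x1, x2⟩ := S.easton_hd (n + 1) (fun x y : T => y.1.1 ⊆ x.1.1 ∧ y.1.2 ≤ x.1.2)
    (fun _ => ⟨Subset.rfl, le_rfl⟩) (fun _ _ _ a b => ⟨b.1.trans a.1, b.2.trans a.2⟩)
    (fun _ f _ hI hc => ⟨⟨(⋃ i, (f i).1.1, fun z => ⋃ i, (f i).1.2 z),
      Tl.iUnion S.sc hI (fun i => (f i).2.1) fun i j => (hc i j).symm.imp And.left And.left,
      iUnion_subset fun i => (f i).2.2.1, fun z => C1.iUnion S.sc (hI.trans_le lm)
        (fun i => (f i).2.2.2 z) fun i j => (hc i j).symm.imp (fun k => k.2 z) fun k => k.2 z⟩,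
      fun i => ⟨subset_iUnion (fun i => (f i).1.1) i,
        fun z => subset_iUnion (fun i => (f i).1.2 z) i⟩⟩) hJ
    (fun j a x => Good (Dec (Q j)) p.s (a ∪ x.1.1) x.1.2)
    (fun _ _ _ _ _ h e e' => h.mono (union_subset_union e e'.1) e'.2)
    ⟨(p.c ∩ (Lo (S.l (n + 1)))ᶜ, fun z => p.F (z :: p.s)), p.hc.1.tl _,
      inter_subset_left.trans p.hc.2, fun z => p.hF (z :: p.s)⟩
  have hd : ∀ {a}, Hd S.l (n + 1) a → Hd S.l (m + 1) (a ∪ x.1.1) := fun h =>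
    ⟨h.tl S.sc x.2.1, union_subset (h.2.trans (Lo_mono lm)) x.2.2.1⟩
  have x3 : ∀ j a, Hd S.l (n + 1) a → ∃ a', a ⊆ a' ∧ Hd S.l (n + 1) a' ∧
      Good (Dec (Q j)) p.s (a' ∪ x.1.1) x.1.2 := fun j a ha => by
    obtain ⟨a', k1, k2, k3⟩ := x2 j a ha
    refine ⟨a', k1, k2, k3.resolve_right fun k => ?_⟩
    obtain ⟨c, u, c1, c2, c3, c4, c5⟩ := prikry (hm j) (hr j) p.s _ _ (hd k2) x.2.2.2
    exact k (c ∩ Lo (S.l (n + 1))) ⟨(c ∩ (Lo (S.l (n + 1)))ᶜ, u), c2.1.tl _,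
        inter_subset_left.trans c2.2, c4⟩ (subset_inter (subset_union_left.trans c1) k2.2)
      (c2.1.hd _) ⟨subset_inter (subset_union_right.trans c1) x.2.1.2, c3⟩
      (c5.mono (inter_union_compl _ _).ge le_rfl)
  choose A a1 a2 a3 using fun j =>
    S.cchd (n + 1) {a | Good (Dec (Q j)) p.s (a.1 ∪ x.1.1) x.1.2}
  choose w w1 w2 w3 w4 using fun i : Σ j, A j => a1 i.1 i.2.2
  have hS : #(Σ j, A j) < S.l (n + 1) := by
    rw [mk_sigma]; exact sum_lt_of_isRegular rg hJ a2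
  obtain ⟨η, -⟩ := S.bnd (A := Empty) (by simp) Empty.elim
  obtain ⟨C, hC, η', -, -, h⟩ := exists_nf p.s x.1.2 x.2.2.2 (J := Option (Σ j, A j))
    (by
      rw [mk_option]
      exact (add_lt_of_lt rg.1 hS (one_lt_aleph0.trans_le rg.1)).trans_le
        (lm.trans (S.sc.mono.monotone (Nat.le_succ _))))
    (fun i => i.elim p w) (fun i => by cases i; exacts [rfl, w1 _])
    (fun i => by cases i; exacts [fun z _ => x1.2 z, w3 _]) η (fun _ => Set.univ) fun _ => univ_mem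
  have h0 := hd (p.hc.1.hd (n + 1))
  have h1 : ∀ q ≤ nf Γ p.s _ h0 C hC _ x.2.2.2 η', ∀ i : Σ j, A j, i.2.1.1 ⊆ q.c → q ≤ w i :=
    fun q k i e => le_trans (⟨k.tr, union_subset e (subset_union_right.trans k.c), k.st, k.A, k.F⟩ :
      q ≤ nf Γ p.s _ (hd i.2.1.2) C hC _ x.2.2.2 η') (h _ _ (some i) (w2 i))
  refine ⟨_, (h _ h0 none ((inter_union_compl _ _).ge.trans
    (union_subset_union_right _ x1.1))).trans p1,
    ⟨range (fun i : {i : Σ j, A j // Q i.1 (w i)} => (i.1.1, i.1.2.1)), subset_univ _,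
      mk_range_le.trans_lt ((mk_subtype_le _).trans_lt hS)⟩, fun j q hq => ⟨?_, fun k => ?_⟩⟩
  · rintro ⟨a, ⟨i, e⟩, k⟩
    cases e
    exact hm _ _ _ i.2 (h1 q hq i.1 k)
  · obtain ⟨a, k1, k2, k3⟩ := x3 j _ (q.hc.1.hd (n + 1))
    obtain ⟨b, k4, e, k5, k6⟩ := a3 j ⟨a, k2⟩ k3
    have he : Hd S.l (q.s.length + 1) (q.c ∪ e.1) :=
      ⟨q.hc.1.add_hd S.sc e.2 (e.2.1.fn.sub (union_subset (k1.trans k5) Subset.rfl)),
        union_subset q.hc.2 (e.2.2.trans (S.sc.lo_mono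
          (Nat.succ_le_succ (p2.trans (len_le hq :)))))⟩
    have l1 := q.wc_le he subset_union_left
    have l2 := h1 _ (l1.trans hq) ⟨j, b, k4⟩ (k6.trans subset_union_right)
    exact ⟨_, l1, b, ⟨⟨⟨j, b, k4⟩, (w4 _).resolve_right fun a => a _ l2 (hm _ _ _ k l1)⟩, rfl⟩,
      k6.trans subset_union_right⟩

end Cond

end Pool.Agent.Lib.MP_72fca1_lc
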