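import Pool.Agent.Lib.MP_72fca1_lc.Abs

set_option autoImplicit false
set_option linter.unusedSectionVars false

namespace Pool.Agent.Lib.MP_72fca1_lc

open Pool.Agent.Lib.MP_d4b40b_lc Set Cardinal

/-- triples (column, row, value) -/
abbrev T3 (K : Type) : Type := K × K × K

variable {K : Type} [LinearOrder K]

/-- the value is determined by column and row -/
def Fn (c : Set (T3 K)) : Prop := ∀ a x v w, (a, x, v) ∈ c → (a, x, w) ∈ c → v = w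

/-- the triples of level `m` -/
def Tri (l : ℕ → Cardinal.{0}) (m : ℕ) : Set (T3 K) :=
  {t | l m ≤ cd t.1 ∧ cd t.1 < l (m + 1) ∧ cd t.2.1 < l m ∧ t.2.2 < t.1}

/-- the triples with small column -/
def Lo (ρ : Cardinal.{0}) : Set (T3 K) := {t | cd t.1 < ρ}

/-- conditions of the product of the collapses -/
structure CP (l : ℕ → Cardinal.{0}) (c : Set (T3 K)) : Prop where
  fn : Fn c
  tri : ∀ t ∈ c, ∃ m, t ∈ Tri l m
  sz : ∀ m, #(c ∩ Tri l m : Set (T3 K)) < l m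

/-- a scale of regular cardinals -/
structure Sc (l : ℕ → Cardinal.{0}) : Prop where
  mono : StrictMono l
  reg : ∀ m, (l m).IsRegular

/-- overriding -/
def ovr (c d : Set (T3 K)) : Set (T3 K) := c ∪ {t | t ∈ d ∧ ∀ v, (t.1, t.2.1, v) ∉ c}

variable {l : ℕ → Cardinal.{0}} {c c' d : Set (T3 K)}

lemma Fn.sub (h : Fn c) (hs : c' ⊆ c) : Fn c' := fun a x v w k k' => h a x v w (hs k) (hs k')

lemma Fn.union (h : Fn c) (h' : Fn d) (e : ∀ a x v w, (a, x, v) ∈ c → (a, x, w) ∈ d → v = w) :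
    Fn (c ∪ d) := by
  rintro a x v w (k | k) (k' | k')
  · exact h _ _ _ _ k k'
  · exact e _ _ _ _ k k'
  · exact (e _ _ _ _ k' k).symm
  · exact h' _ _ _ _ k k'

lemma Fn.lo_hi {ρ : Cardinal.{0}} (h : Fn c) (h' : Fn d) (h1 : c ⊆ Lo ρ) (h2 : d ⊆ (Lo ρ)ᶜ) :
    Fn (c ∪ d) := h.union h' fun a _ _ _ k k' =>
      absurd (show cd a < ρ from h1 k) (show ¬ cd a < ρ from h2 k')

lemma Fn.iUnion {I : Type} {f : I → Set (T3 K)} (h : ∀ i, Fn (f i))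
    (hc : ∀ i j, f i ⊆ f j ∨ f j ⊆ f i) : Fn (⋃ i, f i) := by
  intro a x v w k k'
  obtain ⟨i, k⟩ := mem_iUnion.1 k
  obtain ⟨j, k'⟩ := mem_iUnion.1 k'
  rcases hc i j with e | e
  · exact h j _ _ _ _ (e k) k'
  · exact h i _ _ _ _ k (e k')

lemma Fn.ovr (h : Fn c) (h' : Fn d) : Fn (ovr c d) :=
  h.union (h'.sub fun _ k => k.1) fun _ _ v _ k k' => absurd k (k'.2 v)

lemma sub_ovr : c ⊆ ovr c d := subset_union_left

lemma ovr_ovr (c d e : Set (T3 K)) : ovr c (ovr d e) = ovr (ovr c d) e := by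
  ext t
  constructor
  · rintro (k | ⟨k | ⟨k1, k2⟩, k3⟩)
    · exact Or.inl (Or.inl k)
    · exact Or.inl (Or.inr ⟨k, k3⟩)
    · exact Or.inr ⟨k1, fun v k => k.elim (k3 v) fun k => k2 v k.1⟩
  · rintro ((k | k) | ⟨k1, k2⟩)
    · exact Or.inl k
    · exact Or.inr ⟨Or.inl k.1, k.2⟩
    · have k3 : ∀ v, (t.1, t.2.1, v) ∉ c := fun v k => k2 v (Or.inl k)
      exact Or.inr ⟨Or.inr ⟨k1, fun v k => k2 v (Or.inr ⟨k, k3⟩)⟩, k3⟩

lemma ovr_of_sub (h : Fn d) (hs : c ⊆ d) : ovr c d = d := by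
  refine Subset.antisymm (union_subset hs fun _ k => k.1) fun t k => ?_
  by_cases e : ∃ v, (t.1, t.2.1, v) ∈ c
  · obtain ⟨v, e⟩ := e
    obtain rfl : v = t.2.2 := h _ _ _ _ (hs e) k
    exact Or.inl e
  · exact Or.inr ⟨k, fun v k => e ⟨v, k⟩⟩

lemma ovr_mono {d' : Set (T3 K)} (h : d ⊆ d') : ovr c d ⊆ ovr c d' :=
  union_subset_union_right _ fun _ k => ⟨h k.1, k.2⟩

lemma Sc.pos (h : Sc l) (m : ℕ) : 0 < l m := (h.reg m).pos

lemma Sc.inf (h : Sc l) (m : ℕ) : ℵ₀ ≤ l m := (h.reg m).1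

lemma Sc.uniq (h : Sc l) {t t' : T3 K} {m n : ℕ} (k : t ∈ Tri l m) (k' : t' ∈ Tri l n)
    (e : t.1 = t'.1) : m = n := by
  rcases lt_trichotomy m n with a | a | a
  · exact absurd (k.2.1.trans_le ((h.mono.monotone a).trans (e ▸ k'.1))) (lt_irrefl _)
  · exact a
  · exact absurd (k'.2.1.trans_le ((h.mono.monotone a).trans (e ▸ k.1))) (lt_irrefl _)

lemma Sc.lo_iff (h : Sc l) {t : T3 K} {m n : ℕ} (k : t ∈ Tri l m) : t ∈ Lo (l n) ↔ m < n :=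
  ⟨fun e => h.mono.lt_iff_lt.1 (k.1.trans_lt e), fun e => k.2.1.trans_le (h.mono.monotone e)⟩

lemma Lo_mono {ρ σ : Cardinal.{0}} (h : ρ ≤ σ) : (Lo ρ : Set (T3 K)) ⊆ Lo σ :=
  fun _ k => lt_of_lt_of_le k h

lemma Sc.lo_mono (h : Sc l) {m n : ℕ} (e : m ≤ n) : (Lo (l m) : Set (T3 K)) ⊆ Lo (l n) :=
  Lo_mono (h.mono.monotone e)

lemma tri_lo (m : ℕ) : (Tri l m : Set (T3 K)) ⊆ Lo (l (m + 1)) := fun _ k => k.2.1

lemma tri_hi (m : ℕ) : (Tri l m : Set (T3 K)) ⊆ (Lo (l m))ᶜ := fun _ k => not_lt.2 k.1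

lemma CP.sub (h : CP l c) (hs : c' ⊆ c) : CP l c' :=
  ⟨h.fn.sub hs, fun t k => h.tri t (hs k),
    fun m => (mk_le_mk_of_subset (inter_subset_inter_left _ hs)).trans_lt (h.sz m)⟩

lemma CP.empty (hl : Sc l) : CP l (∅ : Set (T3 K)) :=
  ⟨fun _ _ _ _ k => k.elim, fun _ k => k.elim, fun m => by simpa using hl.pos m⟩

lemma CP.union (hl : Sc l) (h : CP l c) (h' : CP l d) (e : Fn (c ∪ d)) : CP l (c ∪ d) :=
  ⟨e, fun t k => k.elim (h.tri t) (h'.tri t), fun m => by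
    rw [union_inter_distrib_right]
    exact mk_union_lt' (hl.inf m) (h.sz m) (h'.sz m)⟩

lemma CP.lo_hi {ρ : Cardinal.{0}} (hl : Sc l) (h : CP l c) (h' : CP l d) (h1 : c ⊆ Lo ρ)
    (h2 : d ⊆ (Lo ρ)ᶜ) : CP l (c ∪ d) := h.union hl h' (h.fn.lo_hi h'.fn h1 h2)

lemma CP.ovr (hl : Sc l) (h : CP l c) (h' : CP l d) : CP l (ovr c d) :=
  h.union hl (h'.sub fun _ k => k.1) (h.fn.ovr h'.fn)

lemma CP.iUnion (hl : Sc l) {I : Type} {f : I → Set (T3 K)} {n : ℕ} (hI : #I < l n)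
    (h : ∀ i, CP l (f i)) (h' : ∀ i, f i ⊆ (Lo (l n))ᶜ) (e : Fn (⋃ i, f i)) : CP l (⋃ i, f i) := by
  refine ⟨e, fun t k => ?_, fun m => ?_⟩
  · obtain ⟨i, k⟩ := mem_iUnion.1 k
    exact (h i).tri t k
  · rw [iUnion_inter]
    by_cases k : m < n
    · rw [iUnion_eq_empty.2 fun i => eq_empty_of_forall_notMem fun t e =>
        h' i e.1 ((hl.lo_iff e.2).2 k)]
      simpa using hl.pos m
    · exact (card_iUnion_lt_iff_forall_of_isRegular (hl.reg m)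
        (hI.trans_le (hl.mono.monotone (not_lt.1 k)))).2 fun i => (h i).sz m

lemma CP.hi0 (hl : Sc l) (h : CP l c) : c ⊆ (Lo (l 0))ᶜ := fun t k e => by
  obtain ⟨m, hm⟩ := h.tri t k
  exact absurd ((hl.lo_iff hm).1 e) (Nat.not_lt_zero m)

lemma CP.split (hl : Sc l) (h : CP l c) {n : ℕ} (e : c ⊆ Lo (l (n + 1))) :
    c = c ∩ Lo (l n) ∪ c ∩ Tri l n := by
  refine Subset.antisymm (fun t k => ?_) (union_subset inter_subset_left inter_subset_left)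
  obtain ⟨m, hm⟩ := h.tri t k
  rcases Nat.lt_succ_iff_lt_or_eq.1 ((hl.lo_iff hm).1 (e k)) with a | a
  · exact Or.inl ⟨k, (hl.lo_iff hm).2 a⟩
  · exact Or.inr ⟨k, a ▸ hm⟩

lemma CP.mk_lt (hl : Sc l) (h : CP l c) : ∀ {n : ℕ}, c ⊆ Lo (l (n + 1)) → #c < l n := by
  have key : ∀ n, #(c ∩ Lo (l n) : Set (T3 K)) < l n ∧
      #(c ∩ Lo (l (n + 1)) : Set (T3 K)) < l n := by
    have step : ∀ n, #(c ∩ Lo (l n) : Set (T3 K)) < l n →
        #(c ∩ Lo (l (n + 1)) : Set (T3 K)) < l n := fun n k => by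
      rw [(h.sub inter_subset_left).split hl inter_subset_right]
      exact mk_union_lt' (hl.inf n)
        ((mk_le_mk_of_subset fun t e => (⟨e.1.1, e.2⟩ : t ∈ c ∩ Lo (l n))).trans_lt k)
        ((mk_le_mk_of_subset fun t e => (⟨e.1.1, e.2⟩ : t ∈ c ∩ Tri l n)).trans_lt (h.sz n))
    intro n
    induction n with
    | zero =>
      have : #(c ∩ Lo (l 0) : Set (T3 K)) < l 0 := by
        rw [eq_empty_of_forall_notMem fun t (e : t ∈ c ∩ Lo (l 0)) => h.hi0 hl e.1 e.2]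
        simpa using hl.pos 0
      exact ⟨this, step 0 this⟩
    | succ n ih =>
      have := ih.2.trans (hl.mono (Nat.lt_succ_self n))
      exact ⟨this, step _ this⟩
  intro n e
  simpa only [inter_eq_left.2 e] using (key n).2

/-- heads -/
def Hd (l : ℕ → Cardinal.{0}) (n : ℕ) (c : Set (T3 K)) : Prop := CP l c ∧ c ⊆ Lo (l n)

/-- tails -/
def Tl (l : ℕ → Cardinal.{0}) (n : ℕ) (c : Set (T3 K)) : Prop := CP l c ∧ c ⊆ (Lo (l n))ᶜ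

/-- conditions of one level -/
def C1 (l : ℕ → Cardinal.{0}) (n : ℕ) (c : Set (T3 K)) : Prop := CP l c ∧ c ⊆ Tri l n

lemma C1.tl {n : ℕ} (h : C1 l n c) : Tl l n c := ⟨h.1, h.2.trans (tri_hi n)⟩

lemma C1.empty (hl : Sc l) (n : ℕ) : C1 l n (∅ : Set (T3 K)) := ⟨CP.empty hl, empty_subset _⟩

lemma Hd.empty (hl : Sc l) (n : ℕ) : Hd l n (∅ : Set (T3 K)) := ⟨CP.empty hl, empty_subset _⟩

lemma CP.hd (h : CP l c) (n : ℕ) : Hd l n (c ∩ Lo (l n)) :=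
  ⟨h.sub inter_subset_left, inter_subset_right⟩

lemma CP.tl (h : CP l c) (n : ℕ) : Tl l n (c ∩ (Lo (l n))ᶜ) :=
  ⟨h.sub inter_subset_left, inter_subset_right⟩

lemma CP.c1 (h : CP l c) (n : ℕ) : C1 l n (c ∩ Tri l n) :=
  ⟨h.sub inter_subset_left, inter_subset_right⟩

lemma Hd.tl {n : ℕ} (hl : Sc l) (h : Hd l n c) (h' : Tl l n d) : CP l (c ∪ d) :=
  h.1.lo_hi hl h'.1 h.2 h'.2

lemma Hd.step {n : ℕ} (hl : Sc l) (h : Hd l n c) (h' : C1 l n d) : Hd l (n + 1) (c ∪ d) :=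
  ⟨h.tl hl h'.tl, union_subset (h.2.trans (hl.lo_mono n.le_succ)) (h'.2.trans (tri_lo n))⟩

lemma Hd.up {n m : ℕ} (hl : Sc l) (h : Hd l n c) (e : n ≤ m) : Hd l m c :=
  ⟨h.1, h.2.trans (hl.lo_mono e)⟩

lemma Tl.iUnion (hl : Sc l) {I : Type} {f : I → Set (T3 K)} {n : ℕ} (hI : #I < l n)
    (h : ∀ i, Tl l n (f i)) (hc : ∀ i j, f i ⊆ f j ∨ f j ⊆ f i) : Tl l n (⋃ i, f i) :=
  ⟨CP.iUnion hl hI (fun i => (h i).1) (fun i => (h i).2) (Fn.iUnion (fun i => (h i).1.fn) hc),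
    iUnion_subset fun i => (h i).2⟩

lemma C1.iUnion (hl : Sc l) {I : Type} {f : I → Set (T3 K)} {n : ℕ} (hI : #I < l n)
    (h : ∀ i, C1 l n (f i)) (hc : ∀ i j, f i ⊆ f j ∨ f j ⊆ f i) : C1 l n (⋃ i, f i) :=
  ⟨(Tl.iUnion hl hI (fun i => (h i).tl) hc).1, iUnion_subset fun i => (h i).2⟩

lemma cl_tl (hl : Sc l) (n : ℕ) :
    CL (fun u v : {u : Set (T3 K) // Tl l n u} => v.1 ⊆ u.1) (l n) := fun _ f _ hI hc =>
  ⟨⟨_, Tl.iUnion hl hI (fun i => (f i).2) fun i j => (hc i j).symm⟩,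
    fun i => subset_iUnion (fun i => (f i).1) i⟩

/-- adding a head to a longer condition -/
lemma CP.add_hd (hl : Sc l) {n : ℕ} {a : Set (T3 K)} (h : CP l c) (ha : Hd l n a)
    (e : Fn (c ∩ Lo (l n) ∪ a)) : CP l (c ∪ a) :=
  h.union hl ha.1 (h.fn.union ha.1.fn fun α _ _ _ k k' =>
    e _ _ _ _ (Or.inl ⟨k, show cd α < l n from ha.2 k'⟩) (Or.inr k'))

variable [WellFoundedLT K]

lemma mk_box {ρ σ : Cardinal.{0}} {δ : K} (hσ : ℵ₀ ≤ σ) (h : cd δ < σ) (h' : ρ < σ) :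
    #(Iio δ ×ˢ Lt K ρ ×ˢ Iio δ : Set (T3 K)) < σ :=
  mk_sprod_lt' hσ h (mk_sprod_lt' hσ ((mk_Lt_le ρ).trans_lt h') h)

theorem cc_core {lam ν : Cardinal.{0}} (hl : lam.IsRegular) (hK : lam ≤ #K) (hν : ν.IsRegular)
    (h : ν < lam) (hs : Sm ν lam) (D : Set (Set (T3 K)))
    (hD : ∀ d ∈ D, Fn d ∧ #d < ν ∧ ∀ t ∈ d, cd t.1 < lam ∧ cd t.2.1 < ν ∧ t.2.2 < t.1) :
    ∃ A ⊆ D, #A < lam ∧ ∀ d ∈ D, ∃ a ∈ A, Fn (d ∪ a) := by
  have h1 : ∀ c : Set (T3 K), ∃ a, (∃ d ∈ D, Fn (c ∪ d)) → a ∈ D ∧ Fn (c ∪ a) := fun c => by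
    by_cases k : ∃ d ∈ D, Fn (c ∪ d)
    · exact k.imp fun _ k _ => k
    · exact ⟨∅, fun e => absurd e k⟩
  choose ch hch using h1
  let X : K → Set (Set (T3 K)) := fun δ =>
    {c | (c ⊆ Iio δ ×ˢ Lt K ν ×ˢ Iio δ ∧ #c < ν) ∧ ∃ d ∈ D, Fn (c ∪ d)}
  have hX : ∀ δ ∈ Lt K lam, #(X δ) < lam := fun δ k =>
    (mk_le_mk_of_subset fun _ e => e.1).trans_lt (hs _ _ (mk_box hl.1 k h))
  have h2 : ∀ δ : K, ∃ γ, δ ∈ Lt K lam → γ ∈ Lt K lam ∧ ∀ c ∈ X δ, ∀ t ∈ ch c, t.1 < γ := fun δ => by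
    by_cases k : δ ∈ Lt K lam
    · obtain ⟨γ, k1, k2⟩ := exists_Lt_bound hK hl (S := ⋃ c ∈ X δ, Prod.fst '' ch c)
        ((card_biUnion_lt_iff_forall_of_isRegular (t := fun c _ => Prod.fst '' ch c) hl (hX δ k)).2
          fun c hc => mk_image_le.trans_lt ((hD _ (hch c hc.2).1).2.1.trans h))
        (iUnion₂_subset fun c hc => image_subset_iff.2 fun t e => ((hD _ (hch c hc.2).1).2.2 t e).1)
      exact ⟨γ, fun _ => ⟨k1, fun c hc t e => k2 _ (mem_biUnion hc ⟨t, e, rfl⟩)⟩⟩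
    · exact ⟨δ, fun e => absurd e k⟩
  choose g hg using h2
  obtain ⟨δ, d1, d2, d3, -⟩ := exists_closed hl hK hν h g fun β k => (hg β k).1
  refine ⟨ch '' X δ, image_subset_iff.2 fun c hc => (hch c hc.2).1,
    mk_image_le.trans_lt (hX δ d1), fun d hd => ?_⟩
  obtain ⟨e1, e2, e3⟩ := hD d hd
  have e4 : #(d ∩ {t | t.1 < δ} : Set (T3 K)) < ν :=
    (mk_le_mk_of_subset inter_subset_left).trans_lt e2
  obtain ⟨β, b1, b2⟩ := d3 (Prod.fst '' (d ∩ {t | t.1 < δ})) (image_subset_iff.2 fun t k => k.2)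
    (mk_image_le.trans_lt e4)
  have e5 : ∀ γ, β ≤ γ → d ∩ {t | t.1 < δ} ∈ X γ := fun γ k =>
    ⟨⟨fun t e => ⟨lt_of_lt_of_le (b2 ⟨t, e, rfl⟩) k, (e3 t e.1).2.1,
      ((e3 t e.1).2.2.trans (b2 ⟨t, e, rfl⟩)).trans_le k⟩, e4⟩, d, hd,
      e1.sub (union_subset inter_subset_left Subset.rfl)⟩
  have e6 := hch _ (e5 β le_rfl).2
  refine ⟨_, ⟨_, e5 δ b1.le, rfl⟩, e1.union (hD _ e6.1).1 fun a x v w k k' => ?_⟩
  exact e6.2 a x v w (Or.inl ⟨k, ((hg β (lower_Lt _ b1.le d1)).2 _ (e5 β le_rfl) _ k').trans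
    (d2 β b1)⟩) (Or.inr k')

lemma cc_hd (hl : Sc l) (hK : ∀ n, l n ≤ #K) (hs : ∀ n, Sm (l n) (l (n + 1))) (n : ℕ) :
    CC (fun u v : {u : Set (T3 K) // Hd l n u} => v.1 ⊆ u.1) (l n) := by
  intro D
  cases n with
  | zero =>
    refine ⟨D, Subset.rfl, ?_, fun d hd => ⟨d, hd, d, Subset.rfl, Subset.rfl⟩⟩
    have : D.Subsingleton := fun a _ b _ => Subtype.ext
      ((eq_empty_of_forall_notMem fun t k => a.2.1.hi0 hl k (a.2.2 k)).trans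
        (eq_empty_of_forall_notMem fun t k => b.2.1.hi0 hl k (b.2.2 k)).symm)
    exact (lt_aleph0_iff_set_finite.2 this.finite).trans_le (hl.inf 0)
  | succ n =>
    obtain ⟨A, h1, h2, h3⟩ := cc_core (hl.reg _) (hK _) (hl.reg n) (hl.mono n.lt_succ_self) (hs n)
      (Subtype.val '' D) (by
        rintro _ ⟨d, -, rfl⟩
        refine ⟨d.2.1.fn, d.2.1.mk_lt hl d.2.2, fun t k => ?_⟩
        obtain ⟨m, hm⟩ := d.2.1.tri t k
        exact ⟨d.2.2 k, hm.2.2.1.trans_le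
          (hl.mono.monotone (Nat.lt_succ_iff.1 ((hl.lo_iff hm).1 (d.2.2 k)))), hm.2.2.2⟩)
    refine ⟨Subtype.val ⁻¹' A, fun a k => ?_,
      (mk_preimage_of_injective _ _ Subtype.val_injective).trans_lt h2, fun d hd => ?_⟩
    · obtain ⟨b, k1, k2⟩ := h1 k
      exact Subtype.ext k2 ▸ k1
    · obtain ⟨a, k1, k2⟩ := h3 _ ⟨d, hd, rfl⟩
      obtain ⟨b, -, rfl⟩ := h1 k1
      exact ⟨b, k1, ⟨_, d.2.1.union hl b.2.1 k2, union_subset d.2.2 b.2.2⟩, subset_union_left,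
        subset_union_right⟩

lemma mk_hd (hl : Sc l) {n : ℕ} (hp : Pw (l n) (l n)) : #{u : Set (T3 K) // Hd l n u} ≤ l n := by
  have i := hl.inf n
  refine le_trans (mk_le_mk_of_subset (s := {u | Hd l n u}) fun u k => ?_)
    (cnt i le_rfl hp (Z := Lt K (l n) ×ˢ Lt K (l n) ×ˢ Lt K (l n))
      (mk_sprod_le' i (mk_Lt_le _) (mk_sprod_le' i (mk_Lt_le _) (mk_Lt_le _))))
  refine ⟨fun t e => ?_, ?_⟩
  · obtain ⟨m, hm⟩ := k.1.tri t e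
    exact ⟨k.2 e, hm.2.2.1.trans (hl.mono ((hl.lo_iff hm).1 (k.2 e))),
      lower_Lt _ hm.2.2.2.le (k.2 e)⟩
  · cases n with
    | zero =>
      rw [eq_empty_of_forall_notMem fun t e => k.1.hi0 hl e (k.2 e)]
      simpa using hl.pos 0
    | succ n => exact (k.1.mk_lt hl k.2).trans (hl.mono n.lt_succ_self)

/-- a fresh row -/
lemma CP.add (hl : Sc l) (h : CP l c) {m : ℕ} (hK : l m ≤ #K) {α v : K} (h1 : l m ≤ cd α)
    (h2 : cd α < l (m + 1)) (hv : v < α) :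
    ∃ ξ ∈ Lt K (l m), CP l (insert (α, ξ, v) c) := by
  obtain ⟨ξ, k1, k2⟩ := exists_Lt_notMem hK (S := (fun t : T3 K => t.2.1) '' (c ∩ Tri l m))
    (mk_image_le.trans_lt (h.sz m))
  have k3 : (α, ξ, v) ∈ Tri l m := ⟨h1, h2, k1, hv⟩
  have k4 : Fn {(α, ξ, v)} := fun _ _ _ _ a b => by
    cases a; cases b; rfl
  refine ⟨ξ, k1, CP.union hl (c := {(α, ξ, v)}) ⟨k4, fun t e => ⟨m, e ▸ k3⟩, fun n =>
    (lt_aleph0_iff_set_finite.2 ((finite_singleton _).inter_of_left _)).trans_le (hl.inf n)⟩ h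
    (k4.union h.fn fun a x v' w e e' => ?_)⟩
  cases e
  obtain ⟨n, hn⟩ := h.tri _ e'
  obtain rfl := hl.uniq k3 hn rfl
  exact absurd ⟨_, ⟨e', hn⟩, rfl⟩ k2

/-- gluing few conditions with new values -/
lemma glue (hl : Sc l) {J : Type} (hJ : #J < l 0) (h : J → Set (T3 K)) (hh : ∀ i, CP l (h i))
    (R : K → K → K → Prop) (hR : ∀ α ξ, (∃ i γ, (α, ξ, γ) ∈ h i) → ∃ γ < α, R α ξ γ) :
    ∃ g, CP l g ∧ ∀ i α ξ γ, (α, ξ, γ) ∈ h i → ∃ γ', (α, ξ, γ') ∈ g ∧ R α ξ γ' := by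
  choose! v v1 v2 using hR
  let φ : T3 K → T3 K := fun t => (t.1, t.2.1, v t.1 t.2.1)
  have k1 : Fn (φ '' univ) := by
    rintro a x u w ⟨t, -, e⟩ ⟨t', -, e'⟩
    cases e
    simp only [φ, Prod.mk.injEq] at e'
    rw [← e'.2.2, e'.1, e'.2.1]
  have k2 : ∀ i, ∀ t ∈ h i, ∀ m, t ∈ Tri l m → φ t ∈ Tri l m := fun i t e m k =>
    ⟨k.1, k.2.1, k.2.2.1, v1 _ _ ⟨i, t.2.2, e⟩⟩
  have k3 : ∀ i, CP l (φ '' h i) := fun i => by
    refine ⟨k1.sub (image_mono (subset_univ _)), ?_, fun m => ?_⟩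
    · rintro _ ⟨t, e, rfl⟩
      exact ((hh i).tri t e).imp (k2 i t e)
    · refine lt_of_le_of_lt ((mk_le_mk_of_subset (t := φ '' (h i ∩ Tri l m)) ?_).trans mk_image_le)
        ((hh i).sz m)
      rintro _ ⟨⟨t, e, rfl⟩, k⟩
      obtain ⟨n, hn⟩ := (hh i).tri t e
      exact ⟨t, ⟨e, hl.uniq hn k rfl ▸ hn⟩, rfl⟩
  exact ⟨⋃ i, φ '' h i, CP.iUnion hl hJ k3 (fun i => (k3 i).hi0 hl)
    (k1.sub (iUnion_subset fun _ => image_mono (subset_univ _))), fun i α ξ γ e =>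
      ⟨_, mem_iUnion.2 ⟨i, _, e, rfl⟩, v2 _ _ ⟨i, γ, e⟩⟩⟩

end Pool.Agent.Lib.MP_72fca1_lc
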