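import Pool.Agent.Lib.MP_72fca1_lc.GuideB

set_option autoImplicit false
set_option linter.unusedSectionVars false

namespace Pool.Agent.Lib.MP_72fca1_lc

open Pool.Agent.Lib.MP_d4b40b_lc Set Cardinal Filter

section Tree

variable {Y : Type}

/-- the nodes of the tree above `s` with successor sets `A` -/
inductive Tr (s : List Y) (A : List Y → Set Y) : List Y → Prop
  | base : Tr s A s
  | step {t : List Y} {z : Y} : Tr s A t → z ∈ A t → Tr s A (z :: t)

variable {s t r : List Y} {A A' : List Y → Set Y} {z : Y}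

lemma Tr.suf (h : Tr s A t) : s <:+ t := by
  induction h with
  | base => exact List.suffix_refl _
  | step _ _ ih => exact ih.trans (List.suffix_cons _ _)

lemma Tr.len (h : Tr s A t) : s.length ≤ t.length := h.suf.length_le

lemma Tr.trans (h : Tr s A t) (h' : Tr t A' r) (e : ∀ x, Tr t A' x → A' x ⊆ A x) : Tr s A r := by
  induction h' with
  | base => exact h
  | step k k' ih => exact ih.step (e _ k k')

lemma not_suf (h : z :: t <:+ s) (h' : s <:+ t) : False := by
  have := h.length_le.trans h'.length_le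
  simp at this

lemma Tr.cut (h : Tr s A r) (h1 : z :: t <:+ r) (h2 : s <:+ t) : Tr s A t ∧ z ∈ A t := by
  induction h with
  | base => exact (not_suf h1 h2).elim
  | step k k' ih =>
    rcases List.suffix_cons_iff.1 h1 with e | e
    · cases e; exact ⟨k, k'⟩
    · exact ih e

lemma Tr.first (h : Tr s A r) (h1 : r ≠ s) : ∃ z ∈ A s, Tr (z :: s) A r := by
  induction h with
  | base => exact absurd rfl h1
  | @step t z k k' ih =>
    by_cases e : t = s
    · subst e; exact ⟨z, k', Tr.base⟩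
    · obtain ⟨w, a, b⟩ := ih e
      exact ⟨w, a, b.step k'⟩

lemma suf_ne (h : s <:+ t) : z :: t ≠ s := fun e => not_suf (e ▸ List.suffix_refl s : z :: t <:+ s) h

lemma suf_uniq {a b : List Y} (h : a <:+ t) (h' : b <:+ t) (e : a.length = b.length) : a = b :=
  (List.suffix_of_suffix_length_le h h' e.le).eq_of_length e

lemma suf_cases (h : s <:+ r) (h' : z :: t <:+ r) : z :: t <:+ s ∨ s <:+ t := by
  rcases le_or_gt s.length t.length with l | l
  · exact Or.inr (List.suffix_of_suffix_length_le h ((List.suffix_cons _ _).trans h') l)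
  · exact Or.inl (List.suffix_of_suffix_length_le h' h l)

lemma exists_suf : ∀ (r : List Y) (n : ℕ), n < r.length → ∃ z t, z :: t <:+ r ∧ t.length = n
  | [], _, h => absurd h (Nat.not_lt_zero _)
  | z :: t, n, h => by
    rcases Nat.lt_succ_iff_lt_or_eq.1 h with l | l
    · obtain ⟨w, x, a, b⟩ := exists_suf t n l
      exact ⟨w, x, a.trans (List.suffix_cons _ _), b⟩
    · exact ⟨z, t, List.suffix_refl _, l.symm⟩

end Tree

variable {B I Y O : Type} [LinearOrder B] [WellFoundedLT B] [LinearOrder O] [WellFoundedLT O]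
  {S : Bot B I Y O}

/-- conditions of the lower forcing -/
structure Cond (Γ : Gui S) where
  s : List Y
  c : Set (T3 B)
  A : List Y → Set Y
  F : List Y → Set (T3 B)
  hc : Hd S.l (s.length + 1) c
  hA : ∀ t, A t ∈ S.U t.length
  hF : ∀ t, C1 S.l t.length (F t)
  hG : ∃ ζ, ∀ t y z, Tr s A t → y ∈ A t → z ∈ A (y :: t) → F (z :: y :: t) ⊆ Γ.G ζ (z :: y :: t)

variable {Γ : Gui S}

/-- the order -/
structure Cond.LE (q p : Cond Γ) : Prop where
  tr : Tr p.s p.A q.s
  c : p.c ⊆ q.c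
  st : ∀ z t, p.s <:+ t → z :: t <:+ q.s → p.F (z :: t) ⊆ q.c
  A : ∀ t, Tr q.s q.A t → q.A t ⊆ p.A t
  F : ∀ t z, Tr q.s q.A t → z ∈ q.A t → p.F (z :: t) ⊆ q.F (z :: t)

lemma Cond.LE.up {q p : Cond Γ} (h : q.LE p) {t : List Y} (k : Tr q.s q.A t) : Tr p.s p.A t :=
  h.tr.trans k h.A

instance : Preorder (Cond Γ) where
  le := Cond.LE
  le_refl p := ⟨Tr.base, Subset.rfl, fun _ _ a b => (not_suf b a).elim, fun _ _ => Subset.rfl,
    fun _ _ _ _ => Subset.rfl⟩
  le_trans r q p h h' := ⟨h'.up h.tr, h'.c.trans h.c, fun z t a b => by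
      rcases suf_cases h.tr.suf b with e | e
      · exact (h'.st z t a e).trans h.c
      · exact (h'.F t z (h.tr.cut b e).1 (h.tr.cut b e).2).trans (h.st z t e b),
    fun t k => (h.A t k).trans (h'.A t (h.up k)),
    fun t z k k' => (h'.F t z (h.up k) (h.A t k k')).trans (h.F t z k k')⟩

namespace Cond

lemma len_le {q p : Cond Γ} (h : q ≤ p) : p.s.length ≤ q.s.length := h.tr.len

/-- one step extension -/
def ext (p : Cond Γ) (z : Y) (hz : z ∈ p.A p.s) : Cond Γ :=
  ⟨z :: p.s, p.c ∪ p.F (z :: p.s), p.A, p.F, p.hc.step S.sc (p.hF (z :: p.s)), p.hA, p.hF,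
    p.hG.imp fun _ h t y w k => h t y w ((Tr.base.step hz).trans k fun _ _ => Subset.rfl)⟩

lemma ext_le (p : Cond Γ) (z : Y) (hz : z ∈ p.A p.s) : p.ext z hz ≤ p :=
  ⟨Tr.base.step hz, subset_union_left, fun w t a b => by
      rcases List.suffix_cons_iff.1 b with e | e
      · cases e; exact subset_union_right
      · exact (not_suf e a).elim,
    fun _ _ => Subset.rfl, fun _ _ _ _ => Subset.rfl⟩

lemma le_ext {q p : Cond Γ} (h : q ≤ p) (e : q.s ≠ p.s) : ∃ z hz, q ≤ p.ext z hz := by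
  obtain ⟨z, hz, k⟩ := h.tr.first e
  exact ⟨z, hz, k, union_subset h.c (h.st z _ (List.suffix_refl _) k.suf),
    fun w t a b => h.st w t ((List.suffix_cons _ _).trans a) b, h.A, h.F⟩

lemma ne (p : Cond Γ) (t : List Y) : (p.A t).Nonempty := Ultrafilter.nonempty_of_mem (p.hA t)

lemma exists_len (p : Cond Γ) (n : ℕ) : ∃ q ≤ p, n ≤ q.s.length := by
  induction n with
  | zero => exact ⟨p, le_rfl, Nat.zero_le _⟩
  | succ n ih =>
    obtain ⟨q, h1, h2⟩ := ih
    obtain ⟨z, hz⟩ := q.ne q.s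
    exact ⟨q.ext z hz, (q.ext_le z hz).trans h1, Nat.succ_le_succ h2⟩

/-- changing the head -/
def wc (p : Cond Γ) (c : Set (T3 B)) (hc : Hd S.l (p.s.length + 1) c) : Cond Γ :=
  ⟨p.s, c, p.A, p.F, hc, p.hA, p.hF, p.hG⟩

lemma wc_le (p : Cond Γ) {c : Set (T3 B)} (hc : Hd S.l (p.s.length + 1) c) (h : p.c ⊆ c) :
    p.wc c hc ≤ p :=
  ⟨Tr.base, h, fun _ _ a b => (not_suf b a).elim, fun _ _ => Subset.rfl, fun _ _ _ _ => Subset.rfl⟩

open Classical in
/-- the collapse part of a condition in normal form -/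
noncomputable def nfF (Γ : Gui S) (s : List Y) (u : Y → Set (T3 B)) (η : O) :
    List Y → Set (T3 B)
  | [] => ∅
  | z :: t => if t = s then u z else Γ.G η (z :: t)

lemma nfF_self (s : List Y) (u : Y → Set (T3 B)) (η : O) (z : Y) : nfF Γ s u η (z :: s) = u z :=
  if_pos rfl

lemma nfF_up {s t : List Y} (u : Y → Set (T3 B)) (η : O) (z y : Y) (h : s <:+ t) :
    nfF Γ s u η (z :: y :: t) = Γ.G η (z :: y :: t) := if_neg (suf_ne h)

/-- conditions in normal form -/
noncomputable def nf (Γ : Gui S) (s : List Y) (c : Set (T3 B)) (hc : Hd S.l (s.length + 1) c)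
    (A : List Y → Set Y) (hA : ∀ t, A t ∈ S.U t.length) (u : Y → Set (T3 B))
    (hu : S.Val (s.length + 1) u) (η : O) : Cond Γ :=
  ⟨s, c, A, nfF Γ s u η, hc, hA, fun t => by
    cases t with
    | nil => exact C1.empty S.sc _
    | cons z t =>
      by_cases e : t = s
      · subst e; rw [nfF_self]; exact hu z
      · rw [nfF, if_neg e]; exact Γ.val _ _, η, fun _ _ _ k _ _ => (nfF_up _ _ _ _ k.suf).le⟩

lemma lκ (n : ℕ) : S.l n ≤ S.κ := (S.lB n).trans S.Bκ.le

/-- a common upper part for few conditions with the same stem -/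
theorem exists_nf (s : List Y) (u : Y → Set (T3 B)) (hu : S.Val (s.length + 1) u) {J : Type}
    (hJ : #J < S.l (s.length + 2)) (q : J → Cond Γ) (h1 : ∀ i, (q i).s = s)
    (h2 : ∀ i, ∀ z ∈ (q i).A s, (q i).F (z :: s) ⊆ u z) (η0 : O) (X : List Y → Set Y)
    (hX : ∀ t, X t ∈ S.U t.length) :
    ∃ A hA η, η0 ≤ η ∧ (∀ t, A t ⊆ X t) ∧
      ∀ c hc i, (q i).c ⊆ c → nf Γ s c hc A hA u hu η ≤ q i := by
  choose ζ hζ using fun i => (q i).hG
  obtain ⟨β, hβ⟩ := S.bnd (hJ.le.trans (lκ _)) ζ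
  let A : List Y → Set Y := fun t => X t ∩ {y | s.length ≤ t.length → ∀ i, y ∈ (q i).A t ∧
    ∀ t' z, t'.length = t.length → Γ.G (ζ i) (z :: y :: t') ⊆ Γ.G (max η0 β) (z :: y :: t')}
  refine ⟨A, fun t => inter_mem (hX t) ?_, max η0 β, le_max_left _ _, fun _ => inter_subset_left,
    fun c hc i hi => ?_⟩
  · by_cases k : s.length ≤ t.length
    · simp only [k, true_imp_iff]
      exact ae_all (S.U t.length) _ (hJ.trans_le (S.sc.mono.monotone (Nat.add_le_add_right k 2)))
        fun i => Eventually.and ((q i).hA t) (Γ.mono _ _ ((hβ i).le.trans (le_max_right _ _)) _)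
    · exact univ_mem' fun _ e => absurd e k
  · have a1 : ∀ t, Tr s A t → A t ⊆ (q i).A t := fun t k y e => (e.2 k.len i).1
    refine ⟨h1 i ▸ Tr.base, hi, fun _ _ a b => (not_suf b (h1 i ▸ a)).elim, a1, fun t z k k' => ?_⟩
    cases k with
    | base => exact (h2 i z (a1 _ Tr.base k')).trans (nfF_self _ _ _ _).ge
    | @step t y k e =>
      refine (hζ i t y z (h1 i ▸ Tr.base.trans k a1) (a1 _ k e) (a1 _ (k.step e) k')).trans ?_
      exact ((e.2 k.len i).2 t z rfl).trans (nfF_up _ _ _ _ k.suf).ge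

/-- amalgamation of conditions with one more point -/
theorem amalg (s : List Y) (c : Set (T3 B)) (hc : Hd S.l (s.length + 1) c) (η : O) (Z : Set Y)
    (hZ : Z ∈ S.U s.length) (v : Y → Set (T3 B)) (hv : S.Val (s.length + 1) v) (q : Y → Cond Γ)
    (h1 : ∀ z ∈ Z, (q z).s = z :: s) (h2 : ∀ z ∈ Z, (q z).c ⊆ c ∪ v z)
    (h3 : ∀ z ∈ Z, ∀ w ∈ (q z).A (z :: s), (q z).F (w :: z :: s) ⊆ Γ.G η (w :: z :: s)) :
    ∃ p : Cond Γ, p.s = s ∧ p.c = c ∧ (∀ z, p.F (z :: s) = v z) ∧
      ∀ z hz, z ∈ Z ∧ p.ext z hz ≤ q z := by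
  choose ζ hζ using fun i => (q i).hG
  obtain ⟨β, hβ⟩ := S.bnd S.hY ζ
  let M : O → List Y → Y → Prop := fun ξ t y =>
    ∀ t' z, t'.length = t.length → Γ.G ξ (z :: y :: t') ⊆ Γ.G (max η β) (z :: y :: t')
  let A : List Y → Set Y := fun t => {y | t = s → y ∈ Z ∧ M η t y} ∩
    {y | ∀ z ∈ Z, z :: s <:+ t → y ∈ (q z).A t ∧ M (ζ z) t y}
  have hA : ∀ t, A t ∈ S.U t.length := fun t => by
    refine inter_mem ?_ ?_
    · by_cases k : t = s
      · subst k
        simp only [true_imp_iff]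
        exact Eventually.and hZ (Γ.mono _ _ (le_max_left _ _) _)
      · exact univ_mem' fun _ e => absurd e k
    · by_cases k : ∃ z ∈ Z, z :: s <:+ t
      · obtain ⟨z, -, k⟩ := k
        refine mem_of_superset (Eventually.and ((q z).hA t)
          (Γ.mono _ _ ((hβ z).le.trans (le_max_right η β)) _)) fun y e w _ k' => ?_
        cases suf_uniq k k' rfl
        exact e
      · exact univ_mem' fun _ z a b => absurd ⟨z, a, b⟩ k
  refine ⟨nf Γ s c hc A hA v hv (max η β), rfl, rfl, nfF_self _ _ _, fun z hz => ?_⟩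
  have z1 := hz.1 rfl
  have a1 : ∀ t, Tr (z :: s) A t → A t ⊆ (q z).A t := fun t k y e => (e.2 z z1.1 k.suf).1
  refine ⟨z1.1, h1 z z1.1 ▸ Tr.base, (h2 z z1.1).trans
    (union_subset_union_right _ (nfF_self _ _ _ _).ge),
    fun _ t a b => (not_suf b (h1 z z1.1 ▸ a : z :: s <:+ t)).elim, a1, fun t w k k' => ?_⟩
  cases k with
  | base =>
    exact ((h3 z z1.1 w (a1 _ Tr.base k')).trans (z1.2 s w rfl)).trans
      (nfF_up _ _ _ _ (List.suffix_refl _)).ge
  | @step t y k e =>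
    refine (hζ z t y w (h1 z z1.1 ▸ Tr.base.trans k a1) (a1 _ k e) (a1 _ (k.step e) k')).trans ?_
    exact ((e.2 z z1.1 k.suf).2 t w rfl).trans
      (nfF_up _ _ _ _ ((List.suffix_cons _ _).trans k.suf)).ge

end Cond

end Pool.Agent.Lib.MP_72fca1_lc
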