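import Pool.Agent.Lib.MP_d4b40b_lc.Defs

set_option autoImplicit false

namespace Pool.Agent.Lib.MP_72fca1_lc

open Pool.Agent.Lib.helper81 Pool.Agent.Lib.MP_fcebdf_lc Pool.Agent.Lib.MP_d4b40b_lc

variable {M : Type} (E : M → M → Prop)

/-- The generalized continuum hypothesis: the power set of every infinite ordinal injects into
its successor cardinal. -/
def GCH : Prop :=
  ∀ w a y b, Omega E w → IsOrd E a → Sub E w a → Pow E y a → Next E a b → Le E y b

/-- `t` is the tuple (iterated Kuratowski pair, ending in the empty set) of the list. -/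
def Tup : List M → M → Prop
  | [], t => ∀ z, ¬ E z t
  | x :: l, t => ∃ u, Tup l u ∧ OP E t x u

/-- `F` assigns to every finite tuple of members of `k` a unique value, which lies in `k`. -/
def FinFun (F k : M) : Prop :=
  ∀ l t, (∀ x ∈ l, E x k) → Tup E l t → ∃ y, E y k ∧ ∀ z, Rel E F t z ↔ z = y

/-- `X` is closed under `F`. -/
def Closed (F X : M) : Prop :=
  ∀ l t y, (∀ x ∈ l, E x X) → Tup E l t → Rel E F t y → E y X

/-- Chang's Conjecture `(b 0, b 1, ...) ↠ (a 0, a 1, ...)` for the universe `k`: every finitary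
function on `k` has a closed set `X ⊆ k` with `|X ∩ b n| = |a n|` for all `n`. -/
def Chang (k : M) (b a : ℕ → M) : Prop :=
  ∀ F, FinFun E F k → ∃ X, Sub E X k ∧ Closed E F X ∧
    ∀ n Y, (∀ z, E z Y ↔ E z X ∧ E z (b n)) → Le E Y (a n) ∧ Le E (a n) Y

end Pool.Agent.Lib.MP_72fca1_lc
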