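import Pool.Agent.Lib.MP_72fca1_lc.Col

set_option autoImplicit false
set_option linter.unusedSectionVars false

namespace Pool.Agent.Lib.MP_72fca1_lc

open Pool.Agent.Lib.MP_d4b40b_lc Set Cardinal Filter

/-- the data of the lower forcing -/
structure Bot (B I Y O : Type) [LinearOrder B] [LinearOrder O] where
  κ : Cardinal.{0}
  l : ℕ → Cardinal.{0}
  el : Y → Set I
  U : ℕ → Ultrafilter Y
  sc : Sc l
  lB : ∀ n, l n ≤ #B
  sm : ∀ n, Sm (l n) (l (n + 1))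
  pw : ∀ n, Pw (l (n + 1)) (l (n + 1))
  inacc : IsInaccessible κ
  Bκ : #B < κ
  hI : #I = κ
  hY : #Y ≤ κ
  hO : #O = Order.succ κ
  hO' : ∀ η : O, cd η ≤ κ
  gch : 2 ^ κ = Order.succ κ
  cpl : ∀ n, CardinalInterFilter (U n : Filter Y) (l (n + 2))
  small : ∀ n, ∀ᶠ y in (U n : Filter Y), #(el y) < l (n + 2)
  fine : ∀ n ι, ∀ᶠ y in (U n : Filter Y), ι ∈ el y
  clo : ∀ n (f : I → I), ∀ᶠ y in (U n : Filter Y), ∀ ι ∈ el y, f ι ∈ el y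

variable {B I Y O : Type} [LinearOrder B] [WellFoundedLT B] [LinearOrder O] [WellFoundedLT O]

lemma exists_onto {A C : Type} {Z : Set C} (h : #Z ≤ #A) (c : C) : ∃ e : A → C, Z ⊆ range e := by
  obtain ⟨e, -, he⟩ := exists_enum' h
  exact ⟨fun a => (e a).getD c, fun z hz => (he z hz).imp fun a k => by simp [k]⟩
where
  exists_enum' {A C : Type} {Z : Set C} (h : #Z ≤ #A) :
      ∃ e : A → Option C, True ∧ ∀ z ∈ Z, ∃ a, e a = some z := by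
    classical
    obtain ⟨f⟩ := (Cardinal.le_def _ _).1 h
    refine ⟨fun a => if k : ∃ z, f z = a then some k.choose.1 else none, trivial, fun z hz =>
      ⟨f ⟨z, hz⟩, ?_⟩⟩
    have k : ∃ z', f z' = f ⟨z, hz⟩ := ⟨_, rfl⟩
    simp only [dif_pos k]
    rw [f.injective k.choose_spec]

namespace Bot

variable (S : Bot B I Y O)

instance (n : ℕ) : CardinalInterFilter (S.U n : Filter Y) (S.l (n + 2)) := S.cpl n

lemma inf : ℵ₀ ≤ S.κ := S.inacc.1.le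

lemma mk_Q : #(Set (T3 B)) < S.κ := by
  rw [mk_set]
  exact S.inacc.isStrongPrelimit (mk_prod_lt' S.inf S.Bκ (mk_prod_lt' S.inf S.Bκ S.Bκ))

lemma mk_L : #(List Y) ≤ S.κ := (mk_list_le_max Y).trans (max_le S.inf S.hY)

lemma pow_κ {a b : Cardinal.{0}} (ha : a ≤ 2 ^ S.κ) (hb : b ≤ S.κ) : a ^ b ≤ Order.succ S.κ := by
  rw [← S.gch]
  refine (power_le_power_right ha).trans ?_
  rw [← power_mul]
  exact power_le_power_left two_ne_zero (mul_le' S.inf le_rfl hb)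

lemma bnd {A : Type} (hA : #A ≤ S.κ) (f : A → O) : ∃ β, ∀ a, f a < β := by
  obtain ⟨β, -, h⟩ := exists_Lt_bound S.hO.ge (isRegular_succ S.inf) (S := range f)
    (mk_range_le.trans_lt (Order.lt_succ_iff.2 hA)) fun η _ => mem_Lt_succ.2 (S.hO' η)
  exact ⟨β, fun a => h _ (mem_range_self a)⟩

lemma cchd (n : ℕ) : CC (fun u v : {u : Set (T3 B) // Hd S.l n u} => v.1 ⊆ u.1) (S.l n) :=
  cc_hd S.sc S.lB S.sm n

theorem easton_hd (n : ℕ) {T : Type} (l2 : T → T → Prop) (r2 : ∀ a, l2 a a)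
    (t2 : ∀ a b c, l2 a b → l2 b c → l2 a c) (hcl : CL l2 (S.l n)) {J : Type} (hJ : #J < S.l n)
    (G : J → Set (T3 B) → T → Prop)
    (hG : ∀ j c c' u u', G j c u → c ⊆ c' → l2 u' u → G j c' u') (u0 : T) :
    ∃ u, l2 u u0 ∧ ∀ j c, Hd S.l n c → ∃ c', c ⊆ c' ∧ Hd S.l n c' ∧
      (G j c' u ∨ ∀ c'' u', c' ⊆ c'' → Hd S.l n c'' → l2 u' u → ¬ G j c'' u') := by
  obtain ⟨u, k1, k2⟩ := easton (fun u v : {u : Set (T3 B) // Hd S.l n u} => v.1 ⊆ u.1) l2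
    (fun _ => Subset.rfl) (fun _ _ _ a b => b.trans a) r2 t2 (S.cchd n) hcl hJ
    (fun j c u => G j c.1 u) (fun j c c' u u' => hG j c.1 c'.1 u u') u0
  refine ⟨u, k1, fun j c hc => ?_⟩
  obtain ⟨c', k3, k4⟩ := k2 j ⟨c, hc⟩
  exact ⟨c'.1, k3, c'.2, k4.imp id fun k c'' u' a b => k ⟨c'', b⟩ u' a⟩

theorem exists_base : ∃ r : List Y → Set (T3 B), (∀ t, Tl S.l (t.length + 1) (r t)) ∧
    (∀ y t, r t ∩ (Lo (S.l (t.length + 2)))ᶜ ⊆ r (y :: t)) ∧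
    ∀ D : Set (T3 B) → Prop, (∀ c, CP S.l c → ∃ c', c ⊆ c' ∧ CP S.l c' ∧ D c') →
      ∃ ι, ∀ y t, ι ∈ S.el y → #(S.el y) < S.l (t.length + 2) → ∀ c, Hd S.l (t.length + 2) c →
        ∃ c', c ⊆ c' ∧ Hd S.l (t.length + 2) c' ∧ ∃ d ⊆ c' ∪ r (y :: t), D d := by
  obtain ⟨en, hen⟩ := exists_onto (A := I) (Z := (univ : Set (Set (Set (T3 B))))) (by
    rw [mk_univ, mk_set, S.hI]
    exact (S.inacc.isStrongPrelimit S.mk_Q).le) ∅
  have h1 : ∀ (n : ℕ) (y : Y) (u0 : {u : Set (T3 B) // Tl S.l (n + 2) u}),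
      ∃ u : {u : Set (T3 B) // Tl S.l (n + 2) u}, u0.1 ⊆ u.1 ∧ (#(S.el y) < S.l (n + 2) →
        ∀ (ι : S.el y) c, Hd S.l (n + 2) c → ∃ c', c ⊆ c' ∧ Hd S.l (n + 2) c' ∧
          ((∃ d ⊆ c' ∪ u.1, d ∈ en ι) ∨
            ∀ c'' (u' : {u : Set (T3 B) // Tl S.l (n + 2) u}), c' ⊆ c'' → Hd S.l (n + 2) c'' →
              u.1 ⊆ u'.1 → ¬ ∃ d ⊆ c'' ∪ u'.1, d ∈ en ι)) := by
    intro n y u0
    by_cases k : #(S.el y) < S.l (n + 2)
    · obtain ⟨u, k1, k2⟩ := S.easton_hd (n + 2)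
        (fun u v : {u : Set (T3 B) // Tl S.l (n + 2) u} => v.1 ⊆ u.1) (fun _ => Subset.rfl)
        (fun _ _ _ a b => b.trans a) (cl_tl S.sc (n + 2)) k (fun ι c u => ∃ d ⊆ c ∪ u.1, d ∈ en ι)
        (fun _ _ _ _ _ ⟨d, a, b⟩ e e' => ⟨d, a.trans (union_subset_union e e'), b⟩) u0
      exact ⟨u, k1, fun _ => k2⟩
    · exact ⟨u0, Subset.rfl, fun e => absurd e k⟩
  choose nx n1 n2 using h1
  let r : ∀ t : List Y, {u : Set (T3 B) // Tl S.l (t.length + 1) u} := fun t =>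
    List.rec (motive := fun t => {u : Set (T3 B) // Tl S.l (t.length + 1) u})
      ⟨∅, CP.empty S.sc, empty_subset _⟩
      (fun y t ih => nx t.length y ⟨_, ih.2.1.tl (t.length + 2)⟩) t
  refine ⟨fun t => (r t).1, fun t => (r t).2,
    fun y t => n1 t.length y ⟨_, (r t).2.1.tl (t.length + 2)⟩, fun D hD => ?_⟩
  obtain ⟨ι, hι⟩ := hen (mem_univ {c | D c})
  refine ⟨ι, fun y t h1 h2 c hc => ?_⟩
  obtain ⟨c', k1, k3, k2⟩ := n2 t.length y ⟨_, (r t).2.1.tl (t.length + 2)⟩ h2 ⟨ι, h1⟩ c hc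
  refine ⟨c', k1, k3, ?_⟩
  simp only [hι] at k2
  refine k2.elim id fun k => ?_
  obtain ⟨d, d1, d2, d3⟩ := hD _ (k3.tl S.sc (r (y :: t)).2)
  exact absurd ⟨d, (inter_union_compl d _).ge, d3⟩ (k _ ⟨_, d2.tl _⟩
    (subset_inter (subset_union_left.trans d1) k3.2) (d2.hd _)
    (subset_inter (subset_union_right.trans d1) (r (y :: t)).2.2))

theorem exists_tree : ∃ R : Y → O → O → Prop, (∀ y ζ η, R y ζ η → ζ < η) ∧
    (∀ y ξ ζ η, R y ζ η → R y ξ η → ξ < ζ → R y ξ ζ) ∧ (∀ y η, #{ζ | R y ζ η} ≤ #(S.el y)) ∧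
    ∀ ζ η, ζ < η → ∀ n, ∀ᶠ y in (S.U n : Filter Y), R y ζ η := by
  choose e he using fun η : O => exists_onto (A := I) (Z := Iio η) (S.hI ▸ S.hO' η) η
  let E : O → Y → Set O := fun η y => e η '' S.el y ∩ Iio η
  refine ⟨fun y ζ η => ζ ∈ E η y ∧ E η y ∩ Iio ζ = E ζ y, fun y ζ η h => h.1.2,
    fun y ξ ζ η h h' l => ⟨h.2 ▸ ⟨h'.1, l⟩, ?_⟩, fun y η =>
      (mk_le_mk_of_subset fun ζ h => h.1.1).trans mk_image_le, fun ζ η l n => ?_⟩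
  · rw [← h.2, inter_assoc, Iio_inter_Iio, min_eq_right l.le, h'.2]
  · have tr : ∀ a b : O, ∃ f : I → I, ∀ ι, e a ι < b → e b (f ι) = e a ι := fun a b => by
      have : ∀ ι, ∃ ι', e a ι < b → e b ι' = e a ι := fun ι => by
        by_cases k : e a ι < b
        · exact (he b k).imp fun _ k _ => k
        · exact ⟨ι, fun e => absurd e k⟩
      choose f hf using this
      exact ⟨f, hf⟩
    obtain ⟨f1, h1⟩ := tr η ζ
    obtain ⟨f2, h2⟩ := tr ζ η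
    obtain ⟨ι, hι⟩ := he η l
    filter_upwards [S.fine n ι, S.clo n f1, S.clo n f2] with y k1 k2 k3
    refine ⟨⟨⟨ι, k1, hι⟩, l⟩, Subset.antisymm ?_ ?_⟩
    · rintro _ ⟨⟨⟨i, a, rfl⟩, -⟩, b⟩
      exact ⟨⟨_, k2 i a, h1 i b⟩, b⟩
    · rintro _ ⟨⟨i, a, rfl⟩, b⟩
      exact ⟨⟨⟨_, k3 i a, h2 i (lt_trans b l)⟩, lt_trans b l⟩, b⟩

/-- valid first level functions -/
def Val (n : ℕ) (u : Y → Set (T3 B)) : Prop := ∀ z, C1 S.l n (u z)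

end Bot

/-- the guiding system -/
structure Gui (S : Bot B I Y O) where
  G : O → List Y → Set (T3 B)
  r : List Y → Set (T3 B)
  val : ∀ η t, C1 S.l t.length (G η t)
  mono : ∀ ζ η, ζ ≤ η → ∀ n, ∀ᶠ y in (S.U n : Filter Y),
    ∀ t z, t.length = n → G ζ (z :: y :: t) ⊆ G η (z :: y :: t)
  rv : ∀ t, Tl S.l (t.length + 1) (r t)
  rs : ∀ y t, r t ∩ (Lo (S.l (t.length + 2)))ᶜ ⊆ r (y :: t)
  rG : ∀ η z y t, r (y :: t) ∩ Tri S.l (t.length + 2) ⊆ G η (z :: y :: t)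
  rD : ∀ D : Set (T3 B) → Prop, (∀ c, CP S.l c → ∃ c', c ⊆ c' ∧ CP S.l c' ∧ D c') →
    ∃ ι, ∀ y t, ι ∈ S.el y → #(S.el y) < S.l (t.length + 2) → ∀ c, Hd S.l (t.length + 2) c →
      ∃ c', c ⊆ c' ∧ Hd S.l (t.length + 2) c' ∧ ∃ d ⊆ c' ∪ r (y :: t), D d
  key : ∀ Gd : List Y → Set (T3 B) → (Y → Set (T3 B)) → O → Prop,
    (∀ t c c' u u' γ, Gd t c u γ → c ⊆ c' → u ≤ u' → Gd t c' u' γ) →
    ∃ η ι, ∀ y t, ι ∈ S.el y → #(S.el y) < S.l (t.length + 2) → ∀ c, Hd S.l (t.length + 2) c →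
      ∃ c', c ⊆ c' ∧ Hd S.l (t.length + 2) c' ∧
        ((∃ γ < η, Gd (y :: t) c' (fun z => G η (z :: y :: t)) γ) ∨
          ∀ c'' u γ, c' ⊆ c'' → Hd S.l (t.length + 2) c'' → (fun z => G η (z :: y :: t)) ≤ u →
            S.Val (t.length + 2) u → ¬ Gd (y :: t) c'' u γ)

end Pool.Agent.Lib.MP_72fca1_lc
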