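import Pool.Agent.Lib.MP_72fca1_lc.Guide

set_option autoImplicit false
set_option linter.unusedSectionVars false

namespace Pool.Agent.Lib.MP_72fca1_lc

open Pool.Agent.Lib.MP_d4b40b_lc Set Cardinal Filter

variable {B I Y O : Type} [LinearOrder B] [WellFoundedLT B] [LinearOrder O] [WellFoundedLT O]

/-- pointwise union -/
def un {X : Type} (T : Set (Y → Set X)) : Y → Set X := fun z => ⋃ u : T, u.1 z

lemma le_un {X : Type} {T : Set (Y → Set X)} {u : Y → Set X} (h : u ∈ T) : u ≤ un T :=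
  fun z => subset_iUnion (fun u : T => u.1 z) ⟨u, h⟩

namespace Bot

variable (S : Bot B I Y O)

lemma val_un {n : ℕ} {T : Set (Y → Set (T3 B))} (h : #T < S.l n) (h1 : ∀ u ∈ T, S.Val n u)
    (h2 : ∀ u ∈ T, ∀ v ∈ T, u ≤ v ∨ v ≤ u) : S.Val n (un T) := fun z =>
  C1.iUnion S.sc h (fun u => h1 u.1 u.2 z) fun u v =>
    (h2 u.1 u.2 v.1 v.2).imp (fun k => k z) fun k => k z

theorem exists_rec (n : ℕ) (bs : Y → Set (T3 B)) (hb : S.Val n bs) (R : O → O → Prop)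
    (R1 : ∀ ζ η, R ζ η → ζ < η) (R2 : ∀ ξ ζ η, R ζ η → R ξ η → ξ < ζ → R ξ ζ)
    (R3 : ∀ η, #{ζ | R ζ η} < S.l n) (Φ : O → (Y → Set (T3 B)) → Prop) :
    ∃ G : O → Y → Set (T3 B), ∀ η, S.Val n (G η) ∧ bs ≤ G η ∧ (∀ ζ, R ζ η → G ζ ≤ G η) ∧
      S.Val n (un (insert bs (G '' {ζ | R ζ η}))) ∧
      ((∃ u, S.Val n u ∧ un (insert bs (G '' {ζ | R ζ η})) ≤ u ∧ Φ η u) →
        Φ η (G η)) := by
  have h1 : ∀ η (m : Y → Set (T3 B)), ∃ u, m ≤ u ∧ (S.Val n m → S.Val n u) ∧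
      ((∃ u, S.Val n u ∧ m ≤ u ∧ Φ η u) → Φ η u) := fun η m => by
    by_cases k : ∃ u, S.Val n u ∧ m ≤ u ∧ Φ η u
    · obtain ⟨u, k1, k2, k3⟩ := k
      exact ⟨u, k2, fun _ => k1, fun _ => k3⟩
    · exact ⟨m, le_rfl, id, fun e => absurd e k⟩
  choose ch c1 c2 c3 using h1
  let G : O → Y → Set (T3 B) := (wellFounded_lt (α := O)).fix fun η f =>
    ch η (un (insert bs (range fun ζ : {ζ | R ζ η} => f ζ.1 (R1 _ _ ζ.2))))
  have hG : ∀ η, G η = ch η (un (insert bs (G '' {ζ | R ζ η}))) := fun η => by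
    rw [image_eq_range]
    exact (wellFounded_lt (α := O)).fix_eq _ η
  have a1 : ∀ η, bs ≤ G η := fun η => by
    rw [hG]
    exact (le_un (mem_insert _ _)).trans (c1 η _)
  have a2 : ∀ η ζ, R ζ η → G ζ ≤ G η := fun η ζ h => by
    rw [hG η]
    exact (le_un (mem_insert_of_mem _ (⟨ζ, h, rfl⟩ : G ζ ∈ G '' {ζ | R ζ η}))).trans (c1 η _)
  have a3 : ∀ η, (∀ ζ < η, S.Val n (G ζ)) →
      S.Val n (un (insert bs (G '' {ζ | R ζ η}))) := fun η ih => by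
    refine S.val_un (mk_insert_le.trans_lt (add_lt_of_lt (S.sc.inf n)
      (mk_image_le.trans_lt (R3 η)) (one_lt_aleph0.trans_le (S.sc.inf n)))) ?_ ?_
    · rintro _ (rfl | ⟨ζ, h, rfl⟩)
      · exact hb
      · exact ih ζ (R1 _ _ h)
    · rintro _ (rfl | ⟨ζ, h, rfl⟩) _ (rfl | ⟨ξ, h', rfl⟩)
      · exact Or.inl le_rfl
      · exact Or.inl (a1 ξ)
      · exact Or.inr (a1 ζ)
      · rcases lt_trichotomy ζ ξ with l | l | l
        · exact Or.inl (a2 _ _ (R2 _ _ _ h' h l))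
        · exact Or.inl (l ▸ le_rfl)
        · exact Or.inr (a2 _ _ (R2 _ _ _ h h' l))
  have a4 : ∀ η, S.Val n (G η) := fun η => by
    induction η using (wellFounded_lt (α := O)).induction with
    | _ η ih =>
    rw [hG]
    exact c2 _ _ (a3 η ih)
  exact ⟨G, fun η => ⟨a4 η, a1 η, a2 η, a3 η fun ζ _ => a4 ζ, fun h => by
    rw [hG η]
    exact c3 _ _ h⟩⟩

theorem exists_gui : Nonempty (Gui S) := by
  classical
  obtain ⟨r, r1, r2, r3⟩ := S.exists_base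
  obtain ⟨R, R1, R2, R3, R4⟩ := S.exists_tree
  let H := Y → Set (T3 B)
  have two : S.κ ≤ 2 ^ S.κ := (cantor _).le
  obtain ⟨idx⟩ : Nonempty (H ↪ O) := by
    rw [← Cardinal.le_def, S.hO]
    exact (mk_arrow _ _).le.trans (by simpa using S.pow_κ (S.mk_Q.le.trans two) S.hY)
  let Ω := List Y × Set (T3 B) × H × O
  let Om : O → Set Ω := fun ξ => Set.univ ×ˢ Set.univ ×ˢ (idx ⁻¹' Iio ξ) ×ˢ Iio ξ
  have hH : ∀ ξ, #(idx ⁻¹' Iio ξ) ≤ S.κ := fun ξ =>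
    (mk_preimage_of_injective _ _ idx.injective).trans (S.hO' ξ)
  have hOm : ∀ ξ, #(Om ξ) ≤ S.κ := fun ξ =>
    mk_sprod_le' S.inf (by simpa using S.mk_L) (mk_sprod_le' S.inf (mk_univ.trans_le S.mk_Q.le)
      (mk_sprod_le' S.inf (hH ξ) (S.hO' ξ)))
  obtain ⟨b, hb⟩ := exists_onto (A := O) (Z := ⋃ ξ, 𝒫 (Om ξ)) (by
    rw [S.hO]
    refine mk_iUnion_le' (S.inf.trans (Order.le_succ _)) S.hO.le fun ξ => ?_
    rw [mk_powerset, ← S.gch]
    exact power_le_power_left two_ne_zero (hOm ξ)) ∅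
  let ν := Order.succ #B
  have ν0 : ℵ₀ ≤ #B := (S.sc.inf 0).trans (S.lB 0)
  have ν1 : ν < S.κ := inacc_succ_lt S.inacc S.Bκ
  have ν2 : ∀ n, S.l n < ν := fun n => Order.lt_succ_iff.2 (S.lB n)
  let N := ν.ord.ToType
  have o0 : Nonempty O := mk_ne_zero_iff.1 (S.hO ▸ Order.succ_ne_bot _)
  choose gs hgs using fun η : O => exists_onto (A := I) (Z := {f : N → O | ∀ i, f i < η}) (by
    refine (mk_le_of_injective (f := fun f (i : N) => (⟨f.1 i, f.2 i⟩ : Iio η)) fun f g e =>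
      Subtype.ext (funext fun i => congrArg Subtype.val (congrFun e i))).trans ?_
    rw [S.hI]
    refine (mk_arrow _ _).le.trans ?_
    rw [lift_id, lift_id, mk_toType, card_ord]
    exact (power_le_power_right (S.hO' η)).trans (inacc_pow_le S.inacc ν1))
    fun _ => o0.some
  let Gs : O → I → List Y → Set (T3 B) → H → Prop := fun η ι t c u =>
    ∃ c0 ⊆ c, ∃ u0 ≤ u, ∃ γ, ∃ i, (t, c0, u0, γ) ∈ b (gs η ι i)
  let Φ : Y → List Y → O → H → Prop := fun y t η u => idx u < η ∧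
    ∀ (ι : S.el y) c, Hd S.l (t.length + 2) c → ∃ c', c ⊆ c' ∧ Hd S.l (t.length + 2) c' ∧
      (Gs η ι (y :: t) c' u ∨ ∀ c'' u', c' ⊆ c'' → Hd S.l (t.length + 2) c'' → u ≤ u' →
        S.Val (t.length + 2) u' → idx u' < η → ¬ Gs η ι (y :: t) c'' u')
  let bs : Y → List Y → H := fun y t _ => r (y :: t) ∩ Tri S.l (t.length + 2)
  let R' : Y → List Y → O → O → Prop := fun y t ζ η => #(S.el y) < S.l (t.length + 2) ∧ R y ζ η
  have R5 : ∀ y t η, #{ζ | R' y t ζ η} < S.l (t.length + 2) := fun y t η => by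
    by_cases k : #(S.el y) < S.l (t.length + 2)
    · exact ((mk_le_mk_of_subset fun ζ h => h.2).trans (R3 y η)).trans_lt k
    · rw [eq_empty_of_forall_notMem (s := {ζ | R' y t ζ η}) fun ζ h => k h.1]
      simpa using S.sc.pos _
  choose G hG using fun y t => S.exists_rec (t.length + 2) (bs y t)
    (fun _ => (r1 (y :: t)).1.c1 _) (R' y t) (fun _ _ h => R1 _ _ _ h.2)
    (fun _ _ _ h h' l => ⟨h.1, R2 _ _ _ _ h.2 h'.2 l⟩) (R5 y t) (Φ y t)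
  let G' : O → List Y → Set (T3 B) := fun η t =>
    match t with
    | z :: y :: t => G y t η z
    | _ => ∅
  refine ⟨⟨G', r, fun η t => ?_, fun ζ η l n => ?_, r1, r2, fun η z y t => (hG y t η).2.1 z, r3,
    fun Gd hm => ?_⟩⟩
  · match t with
    | [] => exact C1.empty S.sc _
    | [_] => exact C1.empty S.sc _
    | z :: y :: t => exact (hG y t η).1 z
  · rcases l.eq_or_lt with rfl | l
    · exact Eventually.of_forall fun _ _ _ _ => Subset.rfl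
    · filter_upwards [S.small n, R4 ζ η l n] with y k1 k2 t z e
      exact (hG y t η).2.2.1 ζ ⟨e ▸ k1, k2⟩ z
  let W : Set Ω := {w | Gd w.1 w.2.1 w.2.2.1 w.2.2.2}
  choose g1 hg1 using fun ξ => hb (mem_iUnion.2 ⟨ξ, (inter_subset_right : W ∩ Om ξ ⊆ Om ξ)⟩)
  choose g2 hg2 using fun ξ => S.bnd (A := {T : Set H | T ⊆ idx ⁻¹' Iio ξ ∧ #T < ν})
    (cnt S.inf ν1.le (fun ρ h => inacc_pow_le S.inacc (h.trans ν1)) (hH ξ))
    fun T => idx (un T.1)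
  choose g3 hg3 using fun ξ => S.bnd (A := Y × List Y) (mk_prod_le' S.inf S.hY S.mk_L)
    fun x => idx (G x.1 x.2 ξ)
  obtain ⟨β0, h0⟩ := S.bnd (A := Y × List Y) (mk_prod_le' S.inf S.hY S.mk_L)
    fun x => idx (bs x.1 x.2)
  have sk : ∀ w : Ω, ∃ v : Ω, (∃ c u γ, w.2.1 ⊆ c ∧ Hd S.l (w.1.length + 1) c ∧ w.2.2.1 ≤ u ∧
      S.Val (w.1.length + 1) u ∧ Gd w.1 c u γ) → w.2.1 ⊆ v.2.1 ∧ Hd S.l (w.1.length + 1) v.2.1 ∧
      w.2.2.1 ≤ v.2.2.1 ∧ S.Val (w.1.length + 1) v.2.2.1 ∧ Gd w.1 v.2.1 v.2.2.1 v.2.2.2 :=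
    fun w => by
      by_cases k : ∃ c u γ, w.2.1 ⊆ c ∧ Hd S.l (w.1.length + 1) c ∧ w.2.2.1 ≤ u ∧
        S.Val (w.1.length + 1) u ∧ Gd w.1 c u γ
      · obtain ⟨c, u, γ, k⟩ := k
        exact ⟨(w.1, c, u, γ), fun _ => k⟩
      · exact ⟨w, fun e => absurd e k⟩
  choose sk hsk using sk
  choose g4 hg4 using fun ξ => S.bnd (hOm ξ) fun w => max (idx (sk w).2.2.1) (sk w).2.2.2
  choose g5 hg5 using fun ξ : O => S.bnd (A := Unit) (by simpa using one_le_aleph0.trans S.inf)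
    fun _ => ξ
  have al : ∀ β : O, β ∈ Lt O (Order.succ S.κ) := fun β => mem_Lt_succ.2 (S.hO' β)
  obtain ⟨η, -, e1, e2, f, e3, e4⟩ := exists_closed (isRegular_succ S.inf) S.hO.ge
    (isRegular_succ ν0) (ν1.trans (Order.lt_succ _))
    (fun ξ => max (g1 ξ) (max (g2 ξ) (max (g3 ξ) (max (g4 ξ) (max (g5 ξ) β0))))) fun _ _ => al _
  simp only [max_lt_iff] at e1
  obtain ⟨ι, hι⟩ := hgs η (a := fun i => g1 (f i)) fun i => (e1 _ (e3 i)).1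
  have gu : ∀ w : Ω, (∃ i, w ∈ b (gs η ι i)) ↔ w ∈ W ∧ w ∈ Om η := fun w => by
    simp only [hι, hg1]
    refine ⟨fun ⟨i, k1, k2⟩ => ⟨k1, trivial, trivial, lt_trans k2.2.2.1 (e3 i),
      lt_trans k2.2.2.2 (e3 i)⟩, fun ⟨k1, k2⟩ => ?_⟩
    obtain ⟨i, k⟩ := e4 _ (max_lt k2.2.2.1 k2.2.2.2)
    exact ⟨i, k1, trivial, trivial, (max_lt_iff.1 k).1, (max_lt_iff.1 k).2⟩
  have hun : ∀ T : Set H, T ⊆ idx ⁻¹' Iio η → #T < ν → idx (un T) < η :=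
    fun T k1 k2 => by
      obtain ⟨β, k3, k4⟩ := e2 (idx '' T) (image_subset_iff.2 k1) (mk_image_le.trans_lt k2)
      exact (hg2 β ⟨T, image_subset_iff.1 k4, k2⟩).trans (e1 β k3).2.1
  obtain ⟨β1, hβ1, -⟩ := e2 ∅ (empty_subset _) (by simp)
  refine ⟨η, ι, fun y t k1 k2 c hc => ?_⟩
  obtain ⟨v1, -, -, v2, v3⟩ := hG y t η
  obtain ⟨u, u1, u2⟩ := S.easton_hd (t.length + 2)
    (fun u v : {u : H // S.Val (t.length + 2) u ∧ idx u < η} => v.1 ≤ u.1) (fun _ => le_rfl)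
    (fun _ _ _ a b => b.trans a) (fun J a _ hJ hc => ⟨⟨un (range fun j => (a j).1),
      S.val_un (mk_range_le.trans_lt hJ) (forall_mem_range.2 fun j => (a j).2.1)
        (forall_mem_range.2 fun i => forall_mem_range.2 fun j => (hc i j).symm),
      hun _ (range_subset_iff.2 fun j => (a j).2.2) (mk_range_le.trans_lt (hJ.trans (ν2 _)))⟩,
      fun j => le_un (mem_range_self j)⟩) k2
    (fun ι c u => Gs η ι (y :: t) c u.1)
    (fun _ _ _ _ _ ⟨c0, a, u0, a', k⟩ e e' => ⟨c0, a.trans e, u0, a'.trans e', k⟩)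
    ⟨_, v2, hun _ (insert_subset ((h0 (y, t)).trans (e1 _ hβ1).2.2.2.2.2)
      (image_subset_iff.2 fun ζ k => (hg3 ζ (y, t)).trans (e1 _ (R1 _ _ _ k.2)).2.2.1))
      (mk_insert_le.trans_lt (add_lt_of_lt (ν0.trans (Order.le_succ _))
        (mk_image_le.trans_lt ((R5 y t η).trans (ν2 _)))
        (one_lt_aleph0.trans_le (ν0.trans (Order.le_succ _)))))⟩
  obtain ⟨w1, w2⟩ := v3 ⟨u.1, u.2.1, u1, u.2.2, fun ι c hc => (u2 ι c hc).imp fun _ k =>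
    ⟨k.1, k.2.1, k.2.2.imp id fun k c'' u' a b a' b' b'' => k c'' ⟨u', b', b''⟩ a b a'⟩⟩
  obtain ⟨c', w3, w4, w5⟩ := w2 ⟨ι, k1⟩ c hc
  refine ⟨c', w3, w4, w5.imp ?_ fun k c'' u' γ a a' a'' a''' e => ?_⟩
  · rintro ⟨c0, a, u0, a', γ, k⟩
    obtain ⟨k3, k4⟩ := (gu _).1 k
    exact ⟨γ, k4.2.2.2, hm _ _ _ _ _ _ k3 a a'⟩
  · obtain ⟨β, b2⟩ := e4 _ w1
    have b3 := e1 _ (e3 β)
    let w : Ω := (y :: t, c', G y t η, idx (G y t η))
    obtain ⟨s1, s2, s3, s4, s5⟩ := hsk w ⟨c'', u', γ, a, a', a'', a''', e⟩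
    have s6 := max_lt_iff.1 ((hg4 (f β) ⟨w, trivial, trivial, b2, b2⟩).trans b3.2.2.2.1)
    exact k _ _ s1 s2 s3 s4 s6.1 ⟨_, Subset.rfl, _, le_rfl, (sk w).2.2.2,
      (gu (y :: t, _, _, _)).2 ⟨s5, trivial, trivial, s6.1, s6.2⟩⟩

end Bot

end Pool.Agent.Lib.MP_72fca1_lc
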