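import Pool.Agent.Lib.MP_72fca1_lc.Steps

set_option autoImplicit false

namespace Pool.Agent.Lib.MP_72fca1_lc

open Pool.Agent.Lib.helper81 Pool.Agent.Lib.helper81.Name Pool.Agent.Lib.MP_fcebdf_lc
open Pool.Agent.Lib.MP_d4b40b_lc Set Cardinal

/-- the combinatorial form of the long Chang property -/
def CCc (P K : Type) [Preorder P] [LinearOrder K] (c l : ℕ → Cardinal.{0}) : Prop :=
  ∀ F : List K → K → P → Prop, (∀ s γ, Mon (F s γ)) →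
    (∀ s γ γ' q, F s γ q → F s γ' q → γ = γ') → ∀ p0, ∃ p ≤ p0, ∃ X : K → P → Prop,
      (∀ γ, Mon (X γ)) ∧ (∀ γ q, X γ q → ∃ n, γ ∈ Lt K (l n)) ∧
      (∀ q ≤ p, ∀ s γ n, (∀ β ∈ s, X β q) → F s γ q → γ ∈ Lt K (l n) → ∃ r ≤ q, X γ r) ∧
      ∀ n, (∃ Z ⊆ Lt K (l n), c n ≤ #Z ∧ ∀ γ ∈ Z, X γ p) ∧
        ∃ (Φ : Type) (V : Φ → K → P → Prop), #Φ ≤ c n ∧ (∀ φ γ, Mon (V φ γ)) ∧
          (∀ φ γ γ' q, V φ γ q → V φ γ' q → γ = γ') ∧
          ∀ q ≤ p, ∀ γ ∈ Lt K (l n), X γ q → ∃ r ≤ q, ∃ φ, V φ γ r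

/-- tuples of a given length -/
def TupN {M : Type} (E : M → M → Prop) (k : M) : ℕ → M → Prop
  | 0, t => ∀ z, ¬ E z t
  | n + 1, t => ∃ x u, E x k ∧ TupN E k n u ∧ OP E t x u

lemma def_tupN : ∀ n i j : ℕ, Def (fun _ E v => TupN E (v i) n (v j))
  | 0, _, _ => Def.all (Def.mem _ _).not
  | n + 1, i, _ => Def.ex (Def.ex ((Def.mem _ _).and ((def_tupN n (i + 1 + 1) 0).and
      (Def.op _ _ _))))

lemma TupN.list {M : Type} {E : M → M → Prop} {k : M} : ∀ {n : ℕ} {t : M}, TupN E k n t →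
    ∃ l, (∀ x ∈ l, E x k) ∧ Tup E l t
  | 0, _, h => ⟨[], fun _ k => (List.not_mem_nil k).elim, h⟩
  | _ + 1, _, ⟨x, u, h1, h2, h3⟩ =>
    let ⟨l, a, b⟩ := h2.list
    ⟨x :: l, List.forall_mem_cons.2 ⟨h1, a⟩, u, b, h3⟩

variable {P K : Type} [Preorder P] [LinearOrder K] [WellFoundedLT K]

variable (P) in
/-- the name of a tuple -/
noncomputable def tupH : List K → HN P
  | [] => oS P (∅ : Set K)
  | γ :: s => opH (ordH P γ) (tupH s)

lemma tup_nil (g : GN P) (h : tupH P ([] : List K) ∈ g.S) (z : g.M) :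
    ¬ g.E z (g.val (tupH P ([] : List K))) := fun k => let ⟨_, a, _⟩ := oS_elim g h k; a

lemma tupN_val {L : Set K} : ∀ (s : List K), (∀ γ ∈ s, γ ∈ L) → ∀ g : GN P, oS P L ∈ g.S →
    tupH P s ∈ g.S → TupN g.E (g.val (oS P L)) s.length (g.val (tupH P s))
  | [], _, g, _, h => tup_nil g h
  | γ :: s, hs, g, h1, h2 => by
    obtain ⟨p, hp⟩ := g.nonempty
    refine Fc.of_extra (def_tupN (γ :: s).length 0 1) (w := w2 (oS P L) (tupH P (γ :: s)))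
      {ordH P γ, tupH P s} (to_countable _) (fun g _ k1 k2 => ?_) g hp (mem2 h1 h2)
    have a1 : ordH P γ ∈ g.S := k2 (by simp)
    have a2 : tupH P s ∈ g.S := k2 (by simp)
    exact ⟨_, _, oS_intro g (k1 0) a1 (hs γ (by simp)),
      tupN_val s (fun β k => hs β (by simp [k])) g (k1 0) a2, g.op_spec a1 a2 (k1 1)⟩

/-- the name of a set of ordinals -/
noncomputable def nX (X : K → P → Prop) (h : ∀ γ, Mon (X γ)) : HN P :=
  mkH (ordH P) fun γ => ⟨{q | X γ q}, fun _ _ l k => h _ _ _ k l⟩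

/-- the name of the set of tuples -/
noncomputable def nT (X : K → P → Prop) (h : ∀ γ, Mon (X γ)) : HN P :=
  mkH (tupH P) fun s => ⟨{q | ∀ γ ∈ s, X γ q}, fun _ _ l k γ e => h _ _ _ (k γ e) l⟩

lemma nT_cons (g : GN P) {X : K → P → Prop} {h : ∀ γ, Mon (X γ)} (h1 : nX X h ∈ g.S)
    (h2 : nT X h ∈ g.S) {x u t : g.M} (hx : g.E x (g.val (nX X h))) (hu : g.E u (g.val (nT X h)))
    (ht : OP g.E t x u) : g.E t (g.val (nT X h)) := by
  obtain ⟨γ, a1, rfl, q, a2, a3⟩ := mkH_elim g h1 hx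
  obtain ⟨s, b1, rfl, q', b2, b3⟩ := mkH_elim g h2 hu
  obtain ⟨r, c1, c2, c3⟩ := g.dir _ _ a2 b2
  refine Fc.of_extra (Def.all ((Def.op 0 1 2).imp (Def.mem 0 3)))
    (Φ := fun _ E v => ∀ t, OP E t (v 0) (v 1) → E t (v 2))
    (w := w3 (ordH P γ) (tupH P s) (nT X h)) {tupH P (γ :: s)} (to_countable _)
    (fun g k1 k2 k3 t k => ?_) g c1 (mem3 a1 b1 h2) t ht
  rw [OP.unique g.ext k (g.op_spec (k2 0) (k2 1) (k3 rfl))]
  exact val_mem g (k3 rfl) (k2 2) k1 (fmem_mkH (i := γ :: s)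
    (List.forall_mem_cons.2 ⟨h _ _ _ a3 c2, fun β e => h _ _ _ (b3 β e) c3⟩))

/-- the name of the pairing of the cardinals -/
noncomputable def nR (P K : Type) [Preorder P] [LinearOrder K] [WellFoundedLT K]
    (c l : ℕ → Cardinal.{0}) : HN P :=
  relH (fun n => oS P (Lt K (c n))) (fun n => oS P (Lt K (l n))) fun _ => ⊤

theorem chang {c l : ℕ → Cardinal.{0}} (hc : CCc P K c l) (hK : ∀ n, c n ≤ #K) (gm : GN P)
    (h1 : oS P (⋃ n, Lt K (l n)) ∈ gm.S) (h2 : ∀ n, oS P (Lt K (c n)) ∈ gm.S)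
    (h3 : ∀ n, oS P (Lt K (l n)) ∈ gm.S) (h4 : nR P K c l ∈ gm.S)
    (h5 : nT (fun γ (_ : P) => γ ∈ ⋃ n, Lt K (l n)) (fun _ _ _ k _ => k) ∈ gm.S) :
    Chang gm.E (gm.val (oS P (⋃ n, Lt K (l n)))) (fun n => gm.val (oS P (Lt K (l n))))
      fun n => gm.val (oS P (Lt K (c n))) := by
  intro F hF
  obtain ⟨F, hFS, rfl⟩ := gm.surj F
  set L := ⋃ n, Lt K (l n)
  set T := nT (fun γ (_ : P) => γ ∈ L) fun _ _ _ k _ => k
  have d1 : Def (fun _ E v => ∀ t, E t (v 2) → ∃ y, E y (v 1) ∧ ∀ z, Rel E (v 0) t z ↔ z = y) :=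
    Def.all ((Def.mem _ _).imp (Def.ex ((Def.mem _ _).and
      (Def.all ((Def.rel _ _ _).iff (Def.eq _ _))))))
  have d2 : Def (fun _ E v => ∃ X Z, Sub E X (v 1) ∧ (∀ e, (∀ z, ¬ E z e) → E e Z) ∧
      (∀ x u t, E x X → E u Z → OP E t x u → E t Z) ∧ (∀ t y, E t Z → Rel E (v 0) t y → E y X) ∧
      ∀ u w, Rel E (v 3) u w → ∀ Y, (∀ z, E z Y ↔ E z X ∧ E z w) → Le E Y u ∧ Le E u Y) := by
    with_reducible repeat' first
      | exact Def.mem _ _ | exact Def.sub _ _ | exact def_le _ _ | exact Def.op _ _ _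
      | exact Def.rel _ _ _ | apply Def.not | apply Def.and | apply Def.iff | apply Def.imp
      | apply Def.all | apply Def.ex
  have hw := mem4 hFS h1 h5 h4
  obtain ⟨p, hp, hp1⟩ := gm.truthDef d1 hw fun t ht => by
    obtain ⟨s, a1, rfl, q, -, a3⟩ := mkH_elim gm h5 ht
    obtain ⟨l, b1, b2⟩ := (tupN_val s a3 gm h1 a1).list
    exact hF l _ b1 b2
  refine (Fc.reg d2 (w := w4 F (oS P L) T (nR P K c l)) (fun p0 l0 => ?_) gm hp hw).elim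
    fun X ⟨Z, x1, x2, x3, x4, x5⟩ => ?_
  swap
  · refine ⟨X, x1, fun l t y k k' => x4 t y ?_, fun n => x5 _ _ ((rel_iff gm h4 (h2 n) (h3 n)).2
      ⟨n, p, hp, trivial, Feq.refl _ _, Feq.refl _ _⟩)⟩
    induction l generalizing t with
    | nil => exact x2 t k'
    | cons x l ih =>
      obtain ⟨u, a, b⟩ := k'
      exact x3 x u t (k x (by simp)) (ih u (fun z e => k z (by simp [e])) a) b
  have fT : ∀ s q, (∀ γ ∈ s, γ ∈ L) → Fmem (tupH P s).1 T.1 q := fun s q k => fmem_mkH (i := s) k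
  obtain ⟨r, r1, X, x1, x2, x3, x4⟩ := hc
    (fun s γ q => q ≤ p ∧ (∀ β ∈ s, β ∈ L) ∧ FR F (tupH P s) (ordH P γ) q)
    (fun _ _ _ _ k e => ⟨e.trans k.1, k.2.1, k.2.2.mono e⟩) (fun s γ γ' q k k' => by
      obtain ⟨g, k1, k2, k3⟩ := exists_gm' q (w4 F (oS P L) T (nR P K c l))
        {tupH P s, ordH P γ, ordH P γ'} (to_countable _)
      have a1 : tupH P s ∈ g.S := k3 (by simp)
      have a2 : ordH P γ ∈ g.S := k3 (by simp)
      have a3 : ordH P γ' ∈ g.S := k3 (by simp)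
      obtain ⟨y, -, a⟩ := hp1.mono k.1 g k1 k2 _ (val_mem g a1 (k2 2) k1 (fT s q k.2.1))
      exact ord_inj g a2 a3 (((a _).1 (k.2.2 g k1 (mem3 (k2 0) a1 a2))).trans
        ((a _).1 (k'.2.2 g k1 (mem3 (k2 0) a1 a3))).symm)) p0
  choose Z z1 z2 z3 using fun n => (x4 n).1
  have xL : ∀ γ q, X γ q → γ ∈ L := fun γ q k => mem_iUnion.2 (x2 γ q k)
  refine ⟨r, r1, Fc.of_extra d2 ({nX X x1, nT X x1, tupH P ([] : List K)} ∪
    range (fun n => oS P (Lt K (c n))) ∪ range (fun n => oS P (Lt K (l n))) ∪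
    range fun n => oS P (Z n)) ((((to_countable _).union (countable_range _)).union
      (countable_range _)).union (countable_range _)) fun g k1 k2 k3 => ?_⟩
  have a1 : nX X x1 ∈ g.S := k3 (by simp)
  have a2 : nT X x1 ∈ g.S := k3 (by simp)
  have a3 : tupH P ([] : List K) ∈ g.S := k3 (by simp)
  have a4 : ∀ n, oS P (Lt K (c n)) ∈ g.S := fun n => k3 (Or.inl (Or.inl (Or.inr ⟨n, rfl⟩)))
  have a5 : ∀ n, oS P (Lt K (l n)) ∈ g.S := fun n => k3 (Or.inl (Or.inr ⟨n, rfl⟩))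
  have a6 : ∀ n, oS P (Z n) ∈ g.S := fun n => k3 (Or.inr ⟨n, rfl⟩)
  refine ⟨g.val (nX X x1), g.val (nT X x1), fun x k => ?_, fun e k => ?_,
    fun x u t => nT_cons g a1 a2, fun t y k k' => ?_, fun u w k Y hY => ?_⟩
  · obtain ⟨γ, b1, rfl, q, -, b2⟩ := mkH_elim g a1 k
    exact oS_intro g (k2 1) b1 (xL γ q b2)
  · rw [g.ext e (g.val (tupH P ([] : List K))) fun z => iff_of_false (k z) (tup_nil g a3 z)]
    exact val_mem g a3 a2 k1 (fmem_mkH (i := []) fun _ k => (List.not_mem_nil k).elim)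
  · obtain ⟨s, b1, rfl, q, b2, b3⟩ := mkH_elim g a2 k
    have b4 : ∀ γ ∈ s, γ ∈ L := fun γ e => xL γ q (b3 γ e)
    obtain ⟨y', b5, b6⟩ := hp1.mono (r1.trans l0) g k1 k2 _ (val_mem g b1 (k2 2) k1 (fT s r b4))
    obtain rfl := (b6 y).1 k'
    obtain ⟨γ, b7, b8, rfl⟩ := oS_elim g (k2 1) b5
    obtain ⟨n, b7⟩ := mem_iUnion.1 b7
    obtain ⟨q1, c1, c2⟩ := g.truthDef (Def.rel 0 1 2) (mem3 (k2 0) b1 b8) k'
    obtain ⟨q2, c3, c4, c5, c6⟩ := dir3 g k1 b2 c1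
    refine val_mem g b8 a1 c3 (Fmem.reg fun q3 e => ?_)
    exact (x3 q3 (e.trans c4) s γ n (fun β k => x1 _ _ _ (b3 β k) (e.trans c5))
      ⟨e.trans (c4.trans (r1.trans l0)), b4, c2.mono (e.trans c6)⟩ b7).imp fun _ k =>
        ⟨k.1, fmem_mkH (i := γ) k.2⟩
  · obtain ⟨u, hu, rfl⟩ := g.surj u
    obtain ⟨w, hw, rfl⟩ := g.surj w
    obtain ⟨n, q, b1, -, b2, b3⟩ := (rel_iff g (k2 3) hu hw).1 k
    rw [val_eq g hu (a4 n) b1 b2]
    rw [val_eq g hw (a5 n) b1 b3] at hY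
    refine ⟨?_, (le_oS g ((mk_Lt_le _).trans (z2 n)) (a4 n) (a6 n)).mono fun x k => ?_⟩
    · obtain ⟨Y, hYS, rfl⟩ := g.surj Y
      obtain ⟨q1, c1, c2, c3⟩ := g.truthDef_le (Def.all ((Def.mem 0 1).iff ((Def.mem 0 2).and
        (Def.mem 0 3)))) (Φ := fun _ E v => ∀ z, E z (v 0) ↔ E z (v 1) ∧ E z (v 2))
        (mem3 hYS a1 (a5 n)) hY k1
      obtain ⟨Φ, V, v1, v2, v3, v4⟩ := (x4 n).2
      obtain ⟨e⟩ := (Cardinal.le_def _ _).1 (v1.trans (le_mk_Lt (hK n)))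
      refine fc_cover (Φ := Φ × K) (fun φ => ordH P φ.2) (fun φ => (e φ.1).1)
        (fun φ q => V φ.1 φ.2 q) (fun _ _ _ => v2 _ _ _ _) (fun φ _ _ => (e φ.1).2)
        (fun φ φ' q a b k => ?_) (fun x q hq hx => ?_) g c1 (mem2 hYS (a4 n))
      · rw [v3 _ _ _ _ a (e.injective (Subtype.ext k) ▸ b)]; exact Feq.refl _ _
      · have m1 : Fmem x.1 (nX X x1).1 q := fmem_of_gm {Y, oS P (Lt K (l n))} (to_countable _)
          fun g a b b' d => ((c3.mono hq g a (mem3 (d (by simp)) b' (d (by simp))) _).1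
            (val_mem g b (d (Or.inl rfl)) a hx)).1
        have m2 : Fmem x.1 (oS P (Lt K (l n))).1 q := fmem_of_gm {Y, nX X x1} (to_countable _)
          fun g a b b' d => ((c3.mono hq g a (mem3 (d (by simp)) (d (by simp)) b') _).1
            (val_mem g b (d (Or.inl rfl)) a hx)).2
        obtain ⟨q2, m3, γ, m4, m5⟩ : ∃ r ≤ q, ∃ γ, X γ r ∧ Feq x.1 (ordH P γ).1 r := fmem_elim m1
        obtain ⟨q3, m6, γ', m7, m8⟩ := fmem_oS_elim (m2.mono m3)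
        obtain rfl : γ = γ' := feq_ord ((m5.mono m6).symm.trans m8)
        obtain ⟨q4, m9, φ, m10⟩ := v4 q3 (m6.trans (m3.trans (hq.trans c2))) γ m7
          (x1 _ _ _ m4 m6)
        exact ⟨q4, m9.trans (m6.trans m3), (φ, γ), m10, m8.mono m9⟩
    · obtain ⟨γ, c1, c2, rfl⟩ := oS_elim g (a6 n) k
      exact (hY _).2 ⟨val_mem g c2 a1 k1 (fmem_mkH (i := γ) (z3 n γ c1)),
        oS_intro g (a5 n) c2 (z1 n c1)⟩

theorem model [Nonempty P] {c l : ℕ → Cardinal.{0}} (h0 : c 0 = ℵ₀)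
    (h1 : ∀ n, Step P (c n) (c (n + 1))) (h2 : Step P (⨆ n, c n) (l 0))
    (h3 : ∀ n, Step P (l n) (l (n + 1))) (h4 : ∀ ρ, ℵ₀ ≤ ρ → ∃ σ, Step P ρ σ)
    (hK : ∀ n, l n ≤ #K) (hc : CCc P K (fun n => c (n + 1)) l) :
    ∃ (M : Type) (E : M → M → Prop), IsZF E ∧ Choice E ∧ WellFounded E ∧ GCH E ∧
      ∃ (a b : ℕ → M) (k k2 : M), Omega E (a 0) ∧ (∀ n, Next E (a n) (a (n + 1))) ∧
        (∀ x, E x k ↔ ∃ n, E x (a n)) ∧ Next E k (b 0) ∧ (∀ n, Next E (b n) (b (n + 1))) ∧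
        (∀ x, E x k2 ↔ ∃ n, E x (b n)) ∧ Chang E k2 b fun n => a (n + 1) := by
  obtain ⟨gm, -, hS⟩ := exists_gm (G := Triv P) (Classical.arbitrary P)
    ((range (fun n => oS P (Lt K (c n))) ∪ range fun n => oS P (Lt K (l n))) ∪
      {oS P (Lt K (⨆ n, c n)), oS P (⋃ n, Lt K (l n)), nR P K (fun n => c (n + 1)) l,
        nT (fun γ (_ : P) => γ ∈ ⋃ n, Lt K (l n)) fun _ _ _ k _ => k})
    (((countable_range _).union (countable_range _)).union (to_countable _))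
  have a1 : ∀ n, oS P (Lt K (c n)) ∈ gm.S := fun n => hS (Or.inl (Or.inl ⟨n, rfl⟩))
  have a2 : ∀ n, oS P (Lt K (l n)) ∈ gm.S := fun n => hS (Or.inl (Or.inr ⟨n, rfl⟩))
  have a3 : oS P (Lt K (⨆ n, c n)) ∈ gm.S := hS (Or.inr (by simp))
  have a4 : oS P (⋃ n, Lt K (l n)) ∈ gm.S := hS (Or.inr (by simp))
  have b1 := h2.lt.le.trans (hK 0)
  have b2 : ∀ n, c n ≤ ⨆ n, c n := le_ciSup bddAbove_of_small
  have b3 : ∀ n, c n ≤ #K := fun n => (b2 n).trans b1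
  have : Infinite K := infinite_iff.2 (h0 ▸ b3 0)
  refine ⟨gm.M, gm.E, gm.isZF, choice gm, gm.wf, gch_of_step h4 gm,
    cons gm.omega fun n => gm.val (oS P (Lt K (c (n + 1)))), fun n => gm.val (oS P (Lt K (l n))),
    _, _, gm.omega_spec, fun n => ?_, fun x => ⟨fun k => ?_, fun ⟨n, k⟩ => ?_⟩,
    h2.next gm (hK 0) (mk_Lt b1) a3 (a2 0),
    fun n => (h3 n).next gm (hK _) (mk_Lt (hK n)) (a2 _) (a2 _),
    fun x => ⟨fun k => ?_, fun ⟨n, k⟩ => sub_oS gm (subset_iUnion _ n) (a2 n) a4 x k⟩,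
    chang hc (fun n => b3 _) gm a4 (fun n => a1 _) a2 (hS (Or.inr (by simp)))
      (hS (Or.inr (by simp)))⟩
  · have k := (h1 n).next gm (b3 _) (mk_Lt (b3 n)) (a1 _) (a1 _)
    cases n with
    | zero =>
      have a := a1 0
      rw [h0] at a k
      exact next_congr gm.isZF k (le_omega gm (le_aleph0_iff_set_countable.1 (mk_Lt_le _)) a)
        (omega_le gm a)
    | succ n => exact k
  · obtain ⟨β, k1, k2, rfl⟩ := oS_elim gm a3 k
    obtain ⟨n, k3⟩ := (lt_ciSup_iff bddAbove_of_small).1 k1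
    exact ⟨n + 1 + 1 - 1, oS_intro gm (a1 _) k2 (lt_trans k3 (h1 n).lt)⟩
  · cases n with
    | zero => exact omega_sub gm (Lt_mono (h0 ▸ b2 0)) a3 x k
    | succ n => exact sub_oS gm (Lt_mono (b2 _)) (a1 _) a3 x k
  · obtain ⟨β, k1, k2, rfl⟩ := oS_elim gm a4 k
    exact (mem_iUnion.1 k1).imp fun n k => oS_intro gm (a2 n) k2 k

end Pool.Agent.Lib.MP_72fca1_lc
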