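import Pool.Agent.Lib.MP_72fca1_lc.Names
import Pool.Agent.Lib.MP_72fca1_lc.Model

set_option autoImplicit false
set_option linter.unusedSectionVars false

namespace Pool.Agent.Lib.MP_72fca1_lc

open Pool.Agent.Lib.MP_d4b40b_lc Set Cardinal Filter

variable {K : Type} [LinearOrder K] [WellFoundedLT K] {l : ℕ → Cardinal.{0}}

lemma forall₂_fn {α β : Type} {R : α → β → Prop} (h : ∀ i a b, R i a → R i b → a = b)
    {L : List α} {s s' : List β} (h1 : List.Forall₂ R L s) (h2 : List.Forall₂ R L s') :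
    s = s' := by
  induction h1 generalizing s' with
  | nil => cases h2; rfl
  | cons a _ ih => cases h2 with
    | cons a' b' => rw [h _ _ _ a a', ih b']

lemma exists_forall₂ {α β : Type} {R : α → β → Prop} {Z : Set α} : ∀ {s : List β},
    (∀ b ∈ s, ∃ i ∈ Z, R i b) → ∃ L : List α, (∀ i ∈ L, i ∈ Z) ∧ List.Forall₂ R L s
  | [], _ => ⟨[], fun _ k => (List.not_mem_nil k).elim, .nil⟩
  | b :: _, h =>
    let ⟨i, a1, a2⟩ := h b (by simp)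
    let ⟨L, b1, b2⟩ := exists_forall₂ fun c k => h c (List.mem_cons_of_mem _ k)
    ⟨i :: L, List.forall_mem_cons.2 ⟨a1, b1⟩, .cons a2 b2⟩

section Ev

variable {A : Type} {P : A → Type} [∀ a, Preorder (P a)]

/-- the value of a name -/
structure Ev (ω : Set ((Σ a, P a) × K)) (a : A) (p : P a) (γ : K) : Prop where
  coh : ∀ p1 p2 γ1 γ2 (q : P a), (⟨a, p1⟩, γ1) ∈ ω → (⟨a, p2⟩, γ2) ∈ ω → q ≤ p1 → q ≤ p2 → γ1 = γ2
  ex : ∃ p1, (⟨a, p1⟩, γ) ∈ ω ∧ p ≤ p1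

lemma Ev.mono {ω : Set ((Σ a, P a) × K)} {a : A} {p q : P a} {γ : K} (h : Ev ω a p γ) (e : q ≤ p) :
    Ev ω a q γ := ⟨h.coh, h.ex.imp fun _ k => ⟨k.1, e.trans k.2⟩⟩

lemma Ev.fn {ω : Set ((Σ a, P a) × K)} {a : A} {p : P a} {γ γ' : K} (h : Ev ω a p γ)
    (h' : Ev ω a p γ') : γ = γ' :=
  let ⟨_, a, b⟩ := h.ex
  let ⟨_, a', b'⟩ := h'.ex
  h.coh _ _ _ _ _ a a' b b'

theorem exists_out (sc : Sc l) (hA : #A < l 0) (T : ∀ a, Upper (P a) K l)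
    (F : ∀ a, List K → K → Top (T a) → Prop) (f1 : ∀ a s γ, Mon (F a s γ))
    (f2 : ∀ a s γ γ' q, F a s γ q → F a s γ' q → γ = γ') (h0 : A → {u : Set (T3 K) // CP l u})
    {ι : Type} (w : ι → Set ((Σ a, P a) × K)) (L : List ι) (Z : Set K)
    (u0 : {u : Set (T3 K) // CP l u}) : ∃ u : {u : Set (T3 K) // CP l u}, u0.1 ⊆ u.1 ∧
      ∃ ω ⊆ Set.univ ×ˢ Z, #ω < l 0 ∧ ∀ a q s γ, q ≤ Top.ov (T a) q.p (h0 a) u →
        List.Forall₂ (fun i β => Ev (w i) a q.p β) L s → F a s γ q → γ ∈ Z →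
        ∃ r ≤ q, Ev ω a r.p γ := by
  let Q : ∀ a, Top (T a) → Prop := fun a q =>
    ∃ γ s, List.Forall₂ (fun i β => Ev (w i) a q.p β) L s ∧ F a s γ q ∧ γ ∈ Z
  have hQ : ∀ a, Mon (Q a) := fun a _ _ ⟨γ, s, k1, k2, k3⟩ e =>
    ⟨γ, s, k1.imp fun _ _ k => k.mono e.1, f1 _ _ _ _ _ k2 e, k3⟩
  obtain ⟨u, k1, k2⟩ := meet_lt (fun u v : {u : Set (T3 K) // CP l u} => v.1 ⊆ u.1)
    (fun _ => Subset.rfl) (fun _ _ _ a b => b.trans a) (cl_cp sc) hA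
    (fun a u => ∀ p, ∃ p' ≤ p, Dec (Q a) (Top.ov (T a) p' (h0 a) u))
    (fun a _ _ k e p => (k p).imp fun _ k =>
      ⟨k.1, mon_dec (hQ a) _ _ k.2 (Top.ov_mono le_rfl e)⟩) u0
    fun a u => Top.dec0 (h0 a) (hQ a) u
  choose C c1 c2 c3 using fun a => (T a).cc {p | Q a (Top.ov (T a) p (h0 a) u)}
  choose v s v1 v2 v3 using fun a (i : C a) => c1 a i.2
  have key : ∀ a (i : C a) r s' γ, r ≤ Top.ov (T a) i (h0 a) u →
      List.Forall₂ (fun i β => Ev (w i) a r.p β) L s' → F a s' γ r → v a i = γ :=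
    fun a i r s' γ e k k' => f2 a _ _ _ r (f1 _ _ _ _ _ (v2 a i) e)
      (forall₂_fn (fun _ _ _ => Ev.fn) k ((v1 a i).imp fun _ _ k => k.mono e.1) ▸ k')
  refine ⟨u, k1, {z | ∃ h : z.1.2 ∈ C z.1.1, v z.1.1 ⟨_, h⟩ = z.2},
    fun z ⟨h, e⟩ => ⟨mem_univ _, e ▸ v3 _ _⟩, ?_, fun a q s' γ e k k' z => ?_⟩
  · refine lt_of_le_of_lt ((mk_le_mk_of_subset
      (t := range fun i : Σ a, C a => ((⟨i.1, i.2.1⟩ : Σ a, P a), v i.1 i.2)) ?_).trans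
        mk_range_le) (by rw [mk_sigma]; exact sum_lt_of_isRegular (sc.reg 0) hA c2)
    exact fun z ⟨h, e⟩ => ⟨⟨z.1.1, z.1.2, h⟩, Prod.ext rfl e⟩
  obtain ⟨p', a1, a2⟩ := k2 a q.p
  have b : ∀ {p}, p ≤ q.p → (⟨p, q.h, q.hh⟩ : Top (T a)) ≤ q := fun k => Top.le_of k Subset.rfl
  obtain ⟨i, a3, p, a4, a5⟩ := c3 a p' (a2.resolve_right fun c =>
    c _ (Top.le_p ((b a1).trans e) le_rfl) (hQ a _ _ ⟨γ, s', k, k', z⟩ (b a1)))
  have b1 := b (a4.trans a1)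
  refine ⟨_, b1, ?_, i, ⟨a3, key a ⟨i, a3⟩ _ s' γ (Top.le_p (b1.trans e) a5)
    (k.imp fun _ _ k => k.mono b1.1) (f1 _ _ _ _ _ k' b1)⟩, a5⟩
  rintro p1 p2 _ _ r ⟨h1, g1⟩ ⟨h2, g2⟩ e1 e2
  exact g1.symm.trans ((key a ⟨p1, h1⟩ (Top.ov (T a) r (h0 a) u) _ _ (Top.ov_mono e1 Subset.rfl)
    ((v1 a ⟨p2, h2⟩).imp fun _ _ k => k.mono e2)
    (f1 _ _ _ _ _ (v2 a ⟨p2, h2⟩) (Top.ov_mono e2 Subset.rfl))).trans g2)

lemma exists_de {C : Type} {σ ν : Cardinal.{0}} (i : ℵ₀ ≤ σ) (h1 : ν ≤ σ) (h2 : Pw σ ν)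
    (hC : #C ≤ σ) (hK : σ ≤ #K) : ∃ de : K → Set (C × K),
      ∀ ω ⊆ Set.univ ×ˢ Lt K σ, #ω < ν → ∃ β ∈ Lt K σ, de β = ω := by
  obtain ⟨e, he⟩ := exists_onto (A := Lt K σ) ((cnt i h1 h2 (Z := (Set.univ : Set C) ×ˢ Lt K σ)
    (mk_sprod_le' i (by rwa [mk_univ]) (mk_Lt_le σ))).trans (le_mk_Lt hK)) ∅
  refine ⟨Function.extend Subtype.val e fun _ => ∅, fun ω a b => ?_⟩
  obtain ⟨β, k⟩ := he ⟨a, b⟩
  exact ⟨β, β.2, (Subtype.val_injective.extend_apply _ _ _).trans k⟩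

end Ev

variable {I Y O : Type} [LinearOrder O] [WellFoundedLT O] {κ : Cardinal.{0}}

theorem hull (gch : ∀ c : Cardinal.{0}, ℵ₀ ≤ c → 2 ^ c = Order.succ c) {W : Ultrafilter (Set K)}
    (hW : SC κ W) (hκ : ℵ₀ < κ) (sc : Sc l) (l0 : l 0 = Order.succ κ)
    (inacc : ∀ n, IsInaccessible (l (n + 1))) (hK : ⨆ n, l n < #K) {A : Type} (hA : #A ≤ κ)
    (B : A → Type) [∀ a, LinearOrder (B a)] [∀ a, WellFoundedLT (B a)]
    (S : ∀ a, Bot (B a) I Y O) (Γ : ∀ a, Gui (S a)) (T : ∀ a, Upper (Cond (Γ a)) K l)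
    (hT : ∀ a, Comp (T a)) (hx : ∀ᶠ x in (W : Filter (Set K)), ∃ a, ∃ π : B a → K, StrictMono π ∧
      range π = x ∧ ∀ n, (S a).l (n + 1) = #(Lt K (l n) ∩ x : Set K)) :
    ∃ a, CCc (Top (T a)) K (fun n => (S a).l (n + 1)) l := by
  classical
  by_contra h
  simp only [CCc, not_exists (α := A), not_forall, exists_prop] at h
  choose F f1 f2 p0 f3 using h
  have := hW.1
  have := CardinalInterFilter.toCountableInterFilter (W : Filter (Set K)) hκ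
  have b : ∀ n, l n ≤ ⨆ n, l n := le_ciSup bddAbove_of_small
  have lK : ∀ n, l n ≤ #K := fun n => (b n).trans hK.le
  have hA' : #A < l 0 := l0 ▸ Order.lt_succ_iff.2 hA
  obtain ⟨en, hen⟩ := exists_onto (A := K) (Z := {u : Set (T3 K) | CP l u})
    ((mk_cp sc).trans (gch _ ((sc.inf 0).trans (b 0)) ▸ Order.succ_le_of_lt hK)) ∅
  choose de hde using fun n => exists_de (K := K) (C := Σ a, Cond (Γ a)) (σ := l n) (ν := l 0)
    (sc.inf n) (sc.mono.monotone n.zero_le) (by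
      cases n with
      | zero => exact l0 ▸ pw_succ hκ.le (gch _ hκ.le)
      | succ n => exact fun ρ k => pw_inacc (inacc n) ρ (k.trans (sc.mono n.succ_pos))) (by
      rw [mk_sigma]
      refine le_trans ((sum_le_sum _ _ fun a => (T a).hP).trans ?_) (sc.mono.monotone n.zero_le)
      simpa using mul_le' (sc.inf 0) hA'.le le_rfl) (lK n)
  let h0 : A → {u : Set (T3 K) // CP l u} := fun a => ⟨(p0 a).h, (p0 a).hh⟩
  have i1 := loc_id hW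
  have x2 := (loc_nat.prod i1).diag (fun i x => i.2 ∈ Lt K (l i.1) →
    #(Iio i.2 ∩ x : Set K) < #(Lt K (l i.1) ∩ x : Set K)) fun i => by
      by_cases k : i.2 ∈ Lt K (l i.1)
      · exact (i1.lt i1 (k.trans_le (le_mk_Lt (lK _)))).mono fun _ a _ => a
      · exact Eventually.of_forall fun _ a => absurd a k
  have x3 := (loc_nat.prod i1).diag (fun i x => CP l (en i.2) →
    #(en i.2 ∩ Tri l i.1 ∩ cube x : Set (T3 K)) < #(Lt K (l i.1) ∩ x : Set K)) fun i => by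
      by_cases k : CP l (en i.2)
      · exact ((loc_cube hW).lt i1 ((k.sz _).trans_le (le_mk_Lt (lK _)))).mono fun _ a _ => a
      · exact Eventually.of_forall fun _ a => absurd a k
  have x4 := ae_trace hW en fun u k => hen k
  have x5 := (i1.prod i1).diag (fun i x => Fn ((en i.1 ∪ en i.2) ∩ cube x) →
    Fn (en i.1 ∪ en i.2)) fun i => by
      by_cases k : Fn (en i.1 ∪ en i.2)
      · exact Eventually.of_forall fun _ _ => k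
      · simp only [Fn, not_forall] at k
        obtain ⟨α, ξ, v, w, k1, k2, k3⟩ := k
        exact (((loc_cube hW).fine (α, ξ, v)).and ((loc_cube hW).fine (α, ξ, w))).mono
          fun x a e => absurd (e _ _ _ _ ⟨k1, a.1⟩ ⟨k2, a.2⟩) k3
  have x6 := (i1.prod ((loc_nat.prod i1).list.prod loc_nat)).diag (fun i x => CP l (en i.1) →
    ∃ β ∈ x, ∃ δ ∈ x, ∃ h : CP l (en β), en i.1 ⊆ en β ∧ δ ∈ Lt K (l i.2.2) ∧
      ∀ a q s γ, q ≤ Top.ov (T a) q.p (h0 a) ⟨en β, h⟩ →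
        List.Forall₂ (fun j β => Ev (de j.1 j.2) a q.p β) i.2.1 s → F a s γ q →
        γ ∈ Lt K (l i.2.2) → ∃ r ≤ q, Ev (de i.2.2 δ) a r.p γ) fun i => by
      by_cases k : CP l (en i.1)
      · obtain ⟨⟨u, hu⟩, k1, ω, k2, k3, k4⟩ := exists_out sc hA' T F f1 f2 h0
          (fun j : ℕ × K => de j.1 j.2) i.2.1 (Lt K (l i.2.2)) ⟨_, k⟩
        obtain ⟨β, rfl⟩ := hen hu
        obtain ⟨δ, k5, rfl⟩ := hde _ ω k2 k3
        exact ((i1.fine β).and (i1.fine δ)).mono fun _ a _ => ⟨β, a.1, δ, a.2, hu, k1, k5, k4⟩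
      · exact Eventually.of_forall fun _ a => absurd a k
  have x7 := (loc_nat.prod i1).diag (fun i x => i.2 ∈ Lt K (l i.1) →
    ∃ δ ∈ x, δ ∈ Lt K (l i.1) ∧ ∀ a, Ev (de i.1 δ) a (p0 a).p i.2) fun i => by
      by_cases k : i.2 ∈ Lt K (l i.1)
      · obtain ⟨δ, k1, k2⟩ := hde i.1 (range fun a => (⟨a, (p0 a).p⟩, i.2))
          (range_subset_iff.2 fun _ => ⟨mem_univ _, k⟩) (mk_range_le.trans_lt hA')
        refine (i1.fine δ).mono fun _ a _ => ⟨δ, a, k1, fun a => k2 ▸ ⟨?_, _, ⟨a, rfl⟩, le_rfl⟩⟩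
        rintro _ _ _ _ _ ⟨_, e⟩ ⟨_, e'⟩ - -
        exact (congrArg Prod.snd e).symm.trans (congrArg Prod.snd e')
      · exact Eventually.of_forall fun _ a => absurd a k
  obtain ⟨x, ⟨a, π, p1, rfl, p2⟩, x1, x2, x3, x4, x5, x6, x7⟩ :=
    (hx.and (Eventually.and hW.2.1 (x2.and (x3.and (x4.and (x5.and (x6.and x7))))))).exists
  have hc : ∀ n b, cd (π b) < l n ↔ cd b < (S a).l (n + 1) := fun n b => by
    rw [p2, cd_pi p1]
    refine ⟨x2 (n, π b) ⟨mem_univ _, b, rfl⟩, fun k => not_le.1 fun e => absurd k (not_lt.2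
      (mk_le_mk_of_subset (inter_subset_inter_left _ fun γ f => lt_of_cd (f.trans_le e))))⟩
  obtain ⟨g, hg⟩ := master (hT a) π (lt_trans x1 (l0 ▸ Order.lt_succ κ)) en
    fun β k β' k' => x5 (β, β') ⟨k, k'⟩
  have mn : ∀ {γ : K} {n}, γ ∈ Lt K (l n) → ∃ n, γ ∈ Lt K (l n) ∧ ∀ m, γ ∈ Lt K (l m) → n ≤ m :=
    fun {γ n} k => have e : ∃ n, γ ∈ Lt K (l n) := ⟨n, k⟩
      ⟨Nat.find e, Nat.find_spec e, fun _ => Nat.find_min' e⟩
  refine f3 a ⟨Top.ov (T a) (p0 a).p (h0 a) g, Top.le_of le_rfl sub_ovr,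
    fun γ q => ∃ i ∈ (Set.univ : Set ℕ) ×ˢ range π, Ev (de i.1 i.2) a q.p γ ∧ i.2 ∈ Lt K (l i.1) ∧
      γ ∈ Lt K (l i.1) ∧ ∀ m, γ ∈ Lt K (l m) → i.1 ≤ m,
    fun _ _ _ ⟨i, k1, k2, k3⟩ e => ⟨i, k1, k2.mono e.1, k3⟩,
    fun _ _ ⟨i, k⟩ => ⟨i.1, k.2.2.2.1⟩, fun q e s γ n k1 k2 k3 => ?_, fun n =>
      ⟨⟨Lt K (l n) ∩ range π, inter_subset_left, (p2 n).le, fun γ k => ?_⟩,
        ℕ × (Lt K (l n) ∩ range π : Set K), fun φ γ q => Ev (de φ.1 φ.2) a q.p γ,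
        mk_prod_le' ((S a).sc.inf _) (by simpa using (S a).sc.inf _) (p2 n).ge,
        fun _ _ _ _ k e => k.mono e.1, fun _ _ _ _ => Ev.fn,
        fun q _ γ k ⟨i, k1, k2, k3, _, k5⟩ => ⟨q, le_rfl,
          (i.1, ⟨i.2, Lt_mono (sc.mono.monotone (k5 n k)) k3, k1.2⟩), k2⟩⟩⟩
  · obtain ⟨n, k3, k4⟩ := mn k3
    obtain ⟨L, l1, l2⟩ := exists_forall₂ fun β k => (k1 β k).imp fun _ k => ⟨k.1, k.2.1⟩
    obtain ⟨p, a1, d, a2, β, a3, δ, a4, a5, a6, a7, a8⟩ := Cond.In.dense (fun d => ∃ β ∈ range π,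
      ∃ δ ∈ range π, ∃ h : CP l (en β), trc π (en β) ⊆ d ∧ δ ∈ Lt K (l n) ∧
        ∀ q s γ, q ≤ Top.ov (T a) q.p (h0 a) ⟨en β, h⟩ →
          List.Forall₂ (fun j β => Ev (de j.1 j.2) a q.p β) L s → F a s γ q →
          γ ∈ Lt K (l n) → ∃ r ≤ q, Ev (de n δ) a r.p γ) (fun d hd => by
        obtain ⟨u, u1, u2, u3, u4, u5⟩ := exists_lift p1 hc hd
        obtain ⟨β, b1, b2, b3⟩ := x4 u u1 u2 u3 fun m => p2 m ▸ u4 m
        obtain ⟨β', c1, δ, c2, c3, c4, c5, c6⟩ := x6 (β, L, n) ⟨b1, l1, mem_univ _⟩ b2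
        exact ⟨_, (inter_union_compl d (Lo ((S a).l 1))).ge.trans (union_subset_union_right _
          (u5.trans (preimage_mono (b3.trans c4)))), (hd.hd 1).tl (S a).sc
            (tl_trc p1 hc (S a).sc c3 fun m => p2 m ▸ x3 (m, β') ⟨mem_univ _, c1⟩ c3),
          β', c1, δ, c2, c3, subset_union_right, c5, c6 a⟩) q.p
    have b1 : (⟨p, q.h, q.hh⟩ : Top (T a)) ≤ q := Top.le_of a1 Subset.rfl
    obtain ⟨r, r1, r2⟩ := a8 ⟨p, q.h, q.hh⟩ s γ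
      ((Top.le_p (b1.trans e) le_rfl).trans (hg p d a2 β a3 a5 a6 _))
      (l2.imp fun _ _ k => k.mono a1) (f1 _ _ _ _ _ k2 b1) k3
    exact ⟨r, r1.trans b1, (n, δ), ⟨mem_univ _, a4⟩, r2, a7, k3, k4⟩
  · obtain ⟨m, k1, k2⟩ := mn k.1
    obtain ⟨δ, a1, a2, a3⟩ := x7 (m, γ) ⟨mem_univ _, k.2⟩ k1
    exact ⟨(m, δ), ⟨mem_univ _, a1⟩, a3 a, a2, k1, k2⟩

end Pool.Agent.Lib.MP_72fca1_lc
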