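import Pool.Agent.Lib.MP_72fca1_lc.Col
import Pool.Agent.Lib.MP_d4b40b_lc.Defs

set_option autoImplicit false

namespace Pool.Agent.Lib.MP_72fca1_lc

open Pool.Agent.Lib.MP_d4b40b_lc Set Cardinal Filter

/-- localizations with respect to a normal ultrafilter -/
structure Loc {K C : Type} (W : Ultrafilter (Set K)) (L : Set K → Set C) : Prop where
  fine : ∀ c, ∀ᶠ x in (W : Filter (Set K)), c ∈ L x
  diag : ∀ Q : C → Set K → Prop, (∀ c, ∀ᶠ x in (W : Filter (Set K)), Q c x) →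
    ∀ᶠ x in (W : Filter (Set K)), ∀ c ∈ L x, Q c x

variable {K C D : Type} {W : Ultrafilter (Set K)} {L : Set K → Set C} {L' : Set K → Set D}
  {κ : Cardinal.{0}}

lemma loc_id (h : SC κ W) : Loc W fun x => x := by
  refine ⟨h.2.2.1, fun Q hQ => by_contra fun k => ?_⟩
  have k1 : ∀ᶠ x in (W : Filter (Set K)), ∃ c, c ∈ x ∧ ¬ Q c x :=
    (Ultrafilter.eventually_not.2 k).mono fun x a => by simpa using a
  have : Nonempty K := let ⟨_, c, _⟩ := k1.exists; ⟨c⟩
  obtain ⟨g, hg⟩ := k1.choice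
  obtain ⟨β, k2⟩ := h.2.2.2 g (hg.mono fun _ a => a.1)
  obtain ⟨x, a, b, c⟩ := (hg.and (Eventually.and k2 (hQ β))).exists
  exact a.2 ((show g x = β from b) ▸ c)

lemma loc_nat [CountableInterFilter (W : Filter (Set K))] : Loc W fun _ => (Set.univ : Set ℕ) :=
  ⟨fun _ => Eventually.of_forall fun _ => mem_univ _, fun _ h =>
    (eventually_countable_forall.2 h).mono fun _ a c _ => a c⟩

lemma Loc.prod (h : Loc W L) (h' : Loc W L') : Loc W fun x => L x ×ˢ L' x :=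
  ⟨fun c => (h.fine c.1).and (h'.fine c.2), fun Q k =>
    (h.diag _ fun c => h'.diag (fun d => Q (c, d)) fun _ => k _).mono
      fun _ a c b => a c.1 b.1 c.2 b.2⟩

lemma Loc.list [CountableInterFilter (W : Filter (Set K))] (h : Loc W L) :
    Loc W fun x => {s : List C | ∀ c ∈ s, c ∈ L x} := by
  refine ⟨fun s => (eventually_all_finite s.finite_toSet).2 fun c _ => h.fine c, fun Q k => ?_⟩
  have key : ∀ (n : ℕ) (Q : List C → Set K → Prop), (∀ c, ∀ᶠ x in (W : Filter (Set K)), Q c x) →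
      ∀ᶠ x in (W : Filter (Set K)), ∀ s : List C, s.length = n → (∀ c ∈ s, c ∈ L x) → Q s x := by
    intro n
    induction n with
    | zero => exact fun Q k => (k []).mono fun _ a s b _ => List.length_eq_zero_iff.1 b ▸ a
    | succ n ih =>
      refine fun Q k => (h.diag _ fun c => ih (fun s => Q (c :: s)) fun _ => k _).mono
        fun x a s b e => ?_
      cases s with
      | nil => cases b
      | cons c s => exact a c (e c (by simp)) s (by simpa using b) fun d f => e d (by simp [f])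
  exact (eventually_countable_forall.2 fun n => key n Q k).mono fun _ a s => a _ s rfl

lemma Loc.cst (h : Loc W L) {g : Set K → C} (k : ∀ᶠ x in (W : Filter (Set K)), g x ∈ L x) :
    ∃ c, ∀ᶠ x in (W : Filter (Set K)), g x = c := by
  by_contra a
  obtain ⟨x, k1, k2⟩ := (k.and (h.diag (fun c x => g x ≠ c) fun c =>
    Ultrafilter.eventually_not.2 fun b => a ⟨c, b⟩)).exists
  exact k2 _ k1 rfl

lemma Loc.le (h : Loc W L) (h' : Loc W L') {A : Set C} {B : Set D} (e : #A ≤ #B) :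
    ∀ᶠ x in (W : Filter (Set K)), #(A ∩ L x : Set C) ≤ #(B ∩ L' x : Set D) := by
  obtain ⟨f⟩ := (Cardinal.le_def _ _).1 e
  refine (h.diag (fun c x => ∀ k : c ∈ A, (f ⟨c, k⟩).1 ∈ L' x) fun c => ?_).mono fun x a =>
    mk_le_of_injective (f := fun c : (A ∩ L x : Set C) =>
      (⟨_, (f ⟨c, c.2.1⟩).2, a c c.2.2 c.2.1⟩ : (B ∩ L' x : Set D))) fun _ _ k =>
      Subtype.ext (Subtype.mk.inj (f.injective (Subtype.ext (Subtype.mk.inj k))))
  by_cases k : c ∈ A
  · exact (h'.fine (f ⟨c, k⟩).1).mono fun _ a _ => a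
  · exact Eventually.of_forall fun _ a => absurd a k

lemma Loc.lt (h : Loc W L) (h' : Loc W L') {A : Set C} {B : Set D} (e : #A < #B) :
    ∀ᶠ x in (W : Filter (Set K)), #(A ∩ L x : Set C) < #(B ∩ L' x : Set D) := by
  by_contra k
  have k1 : ∀ᶠ x in (W : Filter (Set K)), ∃ g : D → Option C, (∀ d ∈ B ∩ L' x, ∃ c ∈ A ∩ L x,
      g d = some c) ∧ InjOn g (B ∩ L' x) := by
    classical
    refine (Ultrafilter.eventually_not.2 k).mono fun x a => ?_
    obtain ⟨f⟩ := (Cardinal.le_def _ _).1 (not_lt.1 a)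
    refine ⟨fun d => if b : d ∈ B ∩ L' x then some (f ⟨d, b⟩).1 else none,
      fun d b => ⟨_, (f ⟨d, b⟩).2, dif_pos b⟩, fun d b d' b' c => ?_⟩
    simp only [dif_pos b, dif_pos b'] at c
    exact Subtype.mk.inj (f.injective (Subtype.ext (Option.some.inj c)))
  obtain ⟨g, hg⟩ := k1.choice
  have k2 : ∀ d : B, ∃ c : A, ∀ᶠ x in (W : Filter (Set K)), g x d = some c.1 := fun d => by
    have a : ∀ᶠ x in (W : Filter (Set K)), ∃ c, c ∈ A ∩ L x ∧ g x d = some c :=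
      (hg.and (h'.fine d)).mono fun x a => a.1.1 d ⟨d.2, a.2⟩
    have : Nonempty C := let ⟨_, c, _⟩ := a.exists; ⟨c⟩
    obtain ⟨u, hu⟩ := a.choice
    obtain ⟨c, hc⟩ := h.cst (hu.mono fun _ a => a.1.2)
    obtain ⟨x, b1, b2⟩ := (hu.and hc).exists
    exact ⟨⟨c, b2 ▸ b1.1.1⟩, (hu.and hc).mono fun _ a => a.2 ▸ a.1.2⟩
  choose u hu using k2
  refine absurd (mk_le_of_injective (f := u) fun d d' a => ?_) (not_le.2 e)
  obtain ⟨x, b1, b2, b3, b4, b5⟩ :=
    (hg.and ((hu d).and ((hu d').and ((h'.fine d).and (h'.fine d'))))).exists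
  exact Subtype.ext (b1.2 ⟨d.2, b4⟩ ⟨d'.2, b5⟩ (b2.trans (a ▸ b3.symm)))

lemma Loc.trace (h : Loc W L) (g : Set K → Set C) : ∀ᶠ x in (W : Filter (Set K)),
    ∀ c ∈ L x, (∀ᶠ y in (W : Filter (Set K)), c ∈ g y) ↔ c ∈ g x :=
  h.diag _ fun c => by
    by_cases k : ∀ᶠ y in (W : Filter (Set K)), c ∈ g y
    · exact k.mono fun _ a => iff_of_true k a
    · exact (Ultrafilter.eventually_not.2 k).mono fun _ a => iff_of_false k a

lemma inacc_of_sc {I : Type} {c : Cardinal.{0}} {U : Ultrafilter (Set I)} (h : SC c U)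
    (h0 : ℵ₀ < c) (h1 : c ≤ #I) : IsInaccessible c := by
  obtain ⟨Z, hZ⟩ := le_mk_iff_exists_set.1 h1
  have k : ∀ᶠ y in (U : Filter (Set I)), ∃ z : Z, z.1 ∉ y := by
    refine Eventually.mono h.2.1 fun y a => by_contra fun b => ?_
    exact absurd (mk_le_mk_of_subset fun z e => by_contra fun f => b ⟨⟨z, e⟩, f⟩)
      (not_le.2 (hZ ▸ a : #y < #Z))
  have : Nonempty Z := let ⟨_, z, _⟩ := k.exists; ⟨z⟩
  obtain ⟨g, hg⟩ := k.choice
  have := h.1
  have : CardinalInterFilter ((U.map g : Ultrafilter Z) : Filter Z) c := by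
    rw [Ultrafilter.coe_map]; infer_instance
  exact inacc_of_ultra (U.map g) c (fun t => (hg.and (h.2.2.1 t.1)).mono fun y a e =>
    a.1 ((show g y = t from e) ▸ a.2)) hZ.le h0

section Order

variable [LinearOrder K] [WellFoundedLT K]

lemma exists_pi (x : Set K) (h : #x < #K) :
    ∃ (top : K) (π : Iio top → K), StrictMono π ∧ range π = x := by
  obtain ⟨top, f, h1, h2, -⟩ := exists_collapse x h
  choose π k1 k2 using fun b : Iio top => (h2.ge b.2 : ∃ a ∈ x, f a = b)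
  refine ⟨top, π, fun a b e => (h1.lt_iff_lt (k1 a) (k1 b)).1 (by rwa [k2, k2]),
    Subset.antisymm (range_subset_iff.2 k1) fun β k => ?_⟩
  exact ⟨⟨f β, h2.le (mem_image_of_mem f k)⟩, h1.injOn (k1 _) k (k2 _)⟩

omit [WellFoundedLT K] in
lemma cd_pi {B : Type} [LinearOrder B] {π : B → K} (h : StrictMono π) (b : B) :
    cd b = #(Iio (π b) ∩ range π : Set K) := by
  refine (mk_image_eq h.injective).symm.trans (congrArg (fun s : Set K => #s) ?_)
  refine Subset.antisymm ?_ ?_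
  · rintro _ ⟨a, k, rfl⟩
    exact ⟨h k, a, rfl⟩
  · rintro _ ⟨k, a, rfl⟩
    exact ⟨a, h.lt_iff_lt.1 k, rfl⟩

/-- the triples from a set -/
abbrev cube (x : Set K) : Set (T3 K) := x ×ˢ x ×ˢ x

omit [LinearOrder K] [WellFoundedLT K] in
lemma loc_cube (h : SC κ W) : Loc W fun x => cube x := (loc_id h).prod ((loc_id h).prod (loc_id h))

variable {l : ℕ → Cardinal.{0}}

theorem ae_trace [CountableInterFilter (W : Filter (Set K))] (h : SC κ W)
    (en : K → Set (T3 K)) (hen : ∀ u, CP l u → ∃ β, en β = u) :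
    ∀ᶠ x in (W : Filter (Set K)), ∀ q ⊆ cube x, Fn q → (∀ t ∈ q, ∃ m, t ∈ Tri l m) →
      (∀ m, #(q ∩ Tri l m : Set (T3 K)) < #(Lt K (l m) ∩ x : Set K)) →
      ∃ β ∈ x, CP l (en β) ∧ q ⊆ en β := by
  by_contra k
  have k1 : ∀ᶠ x in (W : Filter (Set K)), ∃ q, q ⊆ cube x ∧ Fn q ∧ (∀ t ∈ q, ∃ m, t ∈ Tri l m) ∧
      (∀ m, #(q ∩ Tri l m : Set (T3 K)) < #(Lt K (l m) ∩ x : Set K)) ∧
      ¬ ∃ β ∈ x, CP l (en β) ∧ q ⊆ en β :=
    (Ultrafilter.eventually_not.2 k).mono fun x a => by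
      simpa only [not_forall, exists_prop] using a
  obtain ⟨g, hg⟩ := k1.choice
  have tr := (loc_cube h).trace g
  have hu : CP l {c | ∀ᶠ y in (W : Filter (Set K)), c ∈ g y} := by
    refine ⟨fun _ _ _ _ a b => ?_, fun t a => ?_, fun m => not_le.1 fun a => ?_⟩
    · obtain ⟨x, b1, b2, b3⟩ := (hg.and (Eventually.and a b)).exists
      exact b1.2.1 _ _ _ _ b2 b3
    · obtain ⟨x, b1, b2⟩ := (hg.and a).exists
      exact b1.2.2.1 t b2
    · obtain ⟨x, b1, b2, b3⟩ := (hg.and (tr.and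
        ((loc_id h).le (loc_cube h) ((mk_Lt_le (l m)).trans a)))).exists
      exact absurd (b1.2.2.2.1 m) (not_lt.2
        (b3.trans (mk_le_mk_of_subset fun t e => ⟨(b2 t e.2).1 e.1.1, e.1.2⟩)))
  obtain ⟨β, e⟩ := hen _ hu
  obtain ⟨x, b1, b2, b3⟩ := (hg.and (tr.and (h.2.2.1 β))).exists
  exact b1.2.2.2.2 ⟨β, b3, e ▸ hu, fun t a => e ▸ (b2 t (b1.1 a)).2 a⟩

end Order

end Pool.Agent.Lib.MP_72fca1_lc
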