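import Pool.Agent.Lib.MP_72fca1_lc.Steps

set_option autoImplicit false
set_option linter.unusedSectionVars false

namespace Pool.Agent.Lib.MP_72fca1_lc

open Pool.Agent.Lib.MP_d4b40b_lc Set Cardinal Filter

lemma exists_col {K : Type} [LinearOrder K] [WellFoundedLT K] {ρ σ : Cardinal.{0}} (h : ρ < σ)
    (hK : σ ≤ #K) {A : Type} (hA : #A < σ) :
    ∃ α : K, ρ ≤ cd α ∧ cd α < σ ∧ Nonempty (A ↪ Iio α) := by
  obtain ⟨α, k⟩ := exists_cd (K := K) ((max_lt h hA).trans_le hK)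
  exact ⟨α, k ▸ le_max_left _ _, k ▸ max_lt h hA,
    (Cardinal.le_def _ _).1 ((le_max_right _ _).trans k.ge)⟩

variable {B I Y O : Type} [LinearOrder B] [WellFoundedLT B] [LinearOrder O] [WellFoundedLT O]
  {S : Bot B I Y O} {Γ : Gui S}

namespace Cond

theorem clp_low (n : ℕ) : Clp (Cond Γ) (S.l n) (S.l (n + 1)) := by
  intro A R hA hR
  obtain ⟨α, a1, a2, ⟨e⟩⟩ := exists_col (S.sc.mono (Nat.lt_succ_self n)) (S.lB _) hA
  obtain ⟨i⟩ := (Cardinal.le_def _ _).1 ((mk_Lt_le (K := B) (S.l n)).trans hR)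
  refine ⟨fun r a p => ∃ ξ, i ξ = r ∧ (α, ξ.1, (e a).1) ∈ p.c,
    fun _ _ _ _ ⟨ξ, k1, k2⟩ l => ⟨ξ, k1, l.c k2⟩, ?_, fun a p => ?_⟩
  · rintro _ a a' p ⟨ξ, rfl, k1⟩ ⟨ξ', k2, k3⟩
    cases i.injective k2
    exact e.injective (Subtype.ext (p.hc.1.fn _ _ _ _ k1 k3))
  · obtain ⟨q, q1, q2⟩ := p.exists_len n
    obtain ⟨ξ, k1, k2⟩ := q.hc.1.add S.sc (S.lB n) a1 a2 (e a).2
    exact ⟨q.wc _ ⟨k2, insert_subset (a2.trans_le (S.sc.mono.monotone (Nat.succ_le_succ q2)))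
      q.hc.2⟩, (q.wc_le _ (subset_insert _ _)).trans q1, _, ⟨ξ, k1⟩, rfl, mem_insert _ _⟩

theorem clp_top : Clp (Cond Γ) (⨆ n, S.l n) (Order.succ S.κ) := by
  intro A R hA hR
  have hl : ∀ n, S.l n ≤ #R := fun n => (le_ciSup bddAbove_of_small n).trans hR
  have i := (S.sc.inf 0).trans (hl 0)
  obtain ⟨e⟩ := (Cardinal.le_def _ _).1 ((Order.lt_succ_iff.1 hA).trans S.hI.ge)
  obtain ⟨j⟩ := (Cardinal.le_def _ _).1 (mk_prod_le' (A := ℕ) (B := R) i (by simpa using i) le_rfl)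
  obtain ⟨ι⟩ : Nonempty I := mk_ne_zero_iff.1 (S.hI ▸ S.inacc.pos.ne')
  have : ∀ y, ∃ en : R → I, #(S.el y) ≤ #R → S.el y ⊆ range en := fun y => by
    by_cases k : #(S.el y) ≤ #R
    · exact (exists_onto k ι).imp fun _ k _ => k
    · exact ⟨fun _ => ι, fun a => absurd a k⟩
  choose en hen using this
  refine ⟨fun r a p => ∃ y t ρ, y :: t <:+ p.s ∧ j (t.length, ρ) = r ∧ en y ρ = e a,
    fun _ _ _ _ ⟨y, t, ρ, k1, k2⟩ l => ⟨y, t, ρ, k1.trans l.tr.suf, k2⟩, ?_, fun a p => ?_⟩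
  · rintro _ a a' p ⟨y, t, ρ, k1, rfl, k2⟩ ⟨y', t', ρ', k3, k4, k5⟩
    obtain ⟨k6, rfl⟩ := Prod.mk.inj (j.injective k4)
    cases suf_uniq k1 k3 (congrArg (· + 1) k6.symm)
    exact e.injective (k2.symm.trans k5)
  · obtain ⟨y, k1, k2, k3⟩ := (Eventually.and (p.hA p.s) ((S.fine _ (e a)).and (S.small _))).exists
    obtain ⟨ρ, k4⟩ := hen y (k3.le.trans (hl _)) k2
    exact ⟨p.ext y k1, p.ext_le y k1, _, y, p.s, ρ, List.suffix_refl _, rfl, k4⟩

/-- `p` forces that `d` is in the generic of the product of the collapses -/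
structure In (p : Cond Γ) (d : Set (T3 B)) : Prop where
  cp : CP S.l d
  lo : d ∩ Lo (S.l (p.s.length + 1)) ⊆ p.c
  hi : ∀ t z, Tr p.s p.A t → z ∈ p.A t → d ∩ Tri S.l (t.length + 1) ⊆ p.F (z :: t)

lemma In.empty (p : Cond Γ) : p.In ∅ :=
  ⟨CP.empty S.sc, fun _ k => k.1.elim, fun _ _ _ _ _ k => k.1.elim⟩

lemma In.mono {p q : Cond Γ} {d : Set (T3 B)} (h : p.In d) (e : q ≤ p) : q.In d := by
  refine ⟨h.cp, fun x k => ?_, fun t z k k' => (h.hi t z (e.up k) (e.A t k k')).trans (e.F t z k k')⟩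
  obtain ⟨m, hm⟩ := h.cp.tri x k.1
  rcases lt_or_ge m (p.s.length + 1) with l | l
  · exact e.c (h.lo ⟨k.1, (S.sc.lo_iff hm).2 l⟩)
  · have l' := (S.sc.lo_iff hm).1 k.2
    obtain ⟨z, t, a, b⟩ := exists_suf q.s (m - 1) (by omega)
    have c : p.s <:+ t := List.suffix_of_suffix_length_le e.tr.suf
      ((List.suffix_cons _ _).trans a) (by omega)
    obtain ⟨c1, c2⟩ := e.tr.cut a c
    exact e.st z t c a (h.hi t z c1 c2 ⟨k.1, by rwa [show t.length + 1 = m by omega]⟩)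

lemma In.union {p : Cond Γ} {d d' : Set (T3 B)} (h : p.In d) (h' : p.In d') : p.In (d ∪ d') := by
  refine ⟨h.cp.union S.sc h'.cp (h.cp.fn.union h'.cp.fn fun a x v w k k' => ?_),
    (union_inter_distrib_right _ _ _).le.trans (union_subset h.lo h'.lo), fun t z k k' =>
      (union_inter_distrib_right _ _ _).le.trans (union_subset (h.hi t z k k') (h'.hi t z k k'))⟩
  obtain ⟨m, hm⟩ := h.cp.tri _ k
  obtain ⟨q, q1, q2⟩ := p.exists_len m
  have : S.l (m + 1) ≤ S.l (q.s.length + 1) := S.sc.mono.monotone (Nat.succ_le_succ q2)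
  exact q.hc.1.fn _ _ _ _ ((h.mono q1).lo ⟨k, hm.2.1.trans_le this⟩)
    ((h'.mono q1).lo ⟨k', hm.2.1.trans_le this⟩)

theorem In.dense (D : Set (T3 B) → Prop) (hD : ∀ c, CP S.l c → ∃ c', c ⊆ c' ∧ CP S.l c' ∧ D c')
    (p : Cond Γ) : ∃ q ≤ p, ∃ d, q.In d ∧ D d := by
  obtain ⟨ι, hι⟩ := Γ.rD (fun d => CP S.l d ∧ D d) fun c k =>
    (hD c k).imp fun _ k => ⟨k.1, k.2.1, k.2⟩
  obtain ⟨η, -⟩ := S.bnd (A := Empty) (by simp) Empty.elim
  obtain ⟨A, hA, η', -, -, h⟩ := exists_nf p.s (fun z => p.F (z :: p.s))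
    (fun z => p.hF (z :: p.s)) (J := Unit) ((lt_aleph0_of_finite _).trans_le (S.sc.inf _))
    (fun _ => p) (fun _ => rfl) (fun _ _ _ => Subset.rfl) η (fun _ => Set.univ) fun _ => univ_mem
  obtain ⟨y, k1, k2, k3⟩ := (Eventually.and (hA p.s) ((S.fine _ ι).and (S.small _))).exists
  have k0 := h p.c p.hc () Subset.rfl
  set p' := nf Γ p.s p.c p.hc A hA _ _ η'
  obtain ⟨c, c1, c2, d, d1, d2, d3⟩ := hι y p.s k2 k3 _ (p'.ext y k1).hc
  have up : ∀ t, Tr (y :: p.s) A t → Γ.r (y :: p.s) ∩ (Lo (S.l (t.length + 1)))ᶜ ⊆ Γ.r t := by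
    intro t k
    induction k with
    | base => exact inter_subset_left
    | @step t z _ _ ih => exact (subset_inter ((inter_subset_inter_right _ (compl_subset_compl.2
        (S.sc.lo_mono (Nat.le_succ _)))).trans ih) inter_subset_right).trans (Γ.rs z t)
  refine ⟨(p'.ext y k1).wc c c2, ((p'.ext y k1).wc_le c2 c1).trans ((p'.ext_le y k1).trans k0),
    d, ⟨d2, fun x k => (d1 k.1).resolve_right fun a => (Γ.rv _).2 a k.2, fun t z k _ x a => ?_⟩, d3⟩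
  have b := (d1 a.1).resolve_left fun b => tri_hi _ a.2 (S.sc.lo_mono (Nat.succ_le_succ k.len) (c2.2 b))
  have b1 := up t k ⟨b, tri_hi _ a.2⟩
  cases t with
  | nil => exact absurd k.len (Nat.not_succ_le_zero _)
  | cons w t =>
    have b2 : p.s <:+ t := by
      rcases List.suffix_cons_iff.1 k.suf with e | e
      · cases e; exact List.suffix_refl _
      · exact (List.suffix_cons _ _).trans e
    exact (nfF_up (Γ := Γ) (fun z => p.F (z :: p.s)) η' z w b2).ge (Γ.rG η' z w t ⟨b1, a.2⟩)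

end Cond

end Pool.Agent.Lib.MP_72fca1_lc
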