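import Pool.Agent.Lib.MP_72fca1_lc.Hull

set_option autoImplicit false

namespace Pool.Agent.Lib.MP_72fca1_lc

open Pool.Agent.Lib.helper81 Pool.Agent.Lib.MP_fcebdf_lc
open Pool.Agent.Lib.MP_d4b40b_lc Set Cardinal Filter

theorem exists_bot (gch : ∀ c : Cardinal.{0}, ℵ₀ ≤ c → 2 ^ c = Order.succ c) {κ : Cardinal.{0}}
    (hκ : IsInaccessible κ) {c : ℕ → Cardinal.{0}} (c0 : c 0 = ℵ₀) {ν : Cardinal.{0}}
    (hν : ℵ₀ ≤ ν) (c1 : c 1 = Order.succ ν) (hc : StrictMono c)
    (hU : ∀ n, ∃ U : Ultrafilter (Set κ.out), SC (c (n + 2)) U) (B : Type) [LinearOrder B]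
    (hB : ∀ n, c n ≤ #B) (hB' : #B < κ) :
    ∃ S : Bot B κ.out {y : Set κ.out // #y < κ} (Order.succ κ).ord.ToType, S.κ = κ ∧ S.l = c := by
  classical
  choose U hU using hU
  have lt : ∀ n, c n < κ := fun n => (hB n).trans_lt hB'
  have ia : ∀ n, IsInaccessible (c (n + 2)) := fun n =>
    inacc_of_sc (hU n) (c0 ▸ hc n.succ.succ_pos) (by simpa using (lt _).le)
  let f : Set κ.out → {y : Set κ.out // #y < κ} := fun y =>
    if h : #y < κ then ⟨y, h⟩ else ⟨∅, by simpa using hκ.pos⟩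
  have tr : ∀ n (Q : Set κ.out → Prop), (∀ᶠ y in (U n : Filter (Set κ.out)), Q y) →
      ∀ᶠ y in (((U n).map f : Ultrafilter _) : Filter {y : Set κ.out // #y < κ}), Q y.1 :=
    fun n Q h => (h.and (hU n).2.1).mono fun y a => by
      show Q (f y).1
      simp only [f, dif_pos (lt_trans a.2 (lt _))]
      exact a.1
  refine ⟨⟨κ, c, Subtype.val, fun n => (U n).map f, ⟨hc, fun n => ?_⟩, hB, fun n => ?_,
    fun n => ?_, hκ, hB', by simp, ?_, by simp, fun η => ?_, gch _ hκ.1.le, fun n => ?_,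
    fun n => tr n (fun y => #y < c (n + 2)) (hU n).2.1,
    fun n ι => tr n (fun y => ι ∈ y) ((hU n).2.2.1 ι),
    fun n g => tr n (fun y => ∀ ι ∈ y, g ι ∈ y)
      ((loc_id (hU n)).diag (fun ι y => g ι ∈ y) fun ι => (hU n).2.2.1 _)⟩, rfl, rfl⟩
  · rcases n with _ | _ | n
    · exact c0 ▸ isRegular_aleph0
    · exact c1 ▸ isRegular_succ hν
    · exact (ia n).isRegular
  · cases n with
    | zero => exact c0 ▸ sm_fin (c0 ▸ hc Nat.one_pos)
    | succ n => exact sm_inacc (ia n) _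
  · cases n with
    | zero => exact c1 ▸ pw_succ hν (gch _ hν)
    | succ n => exact pw_inacc (ia n)
  · exact (cnt hκ.1.le le_rfl (pw_inacc hκ) (Z := Set.univ) (by simp)).trans'
      (mk_le_mk_of_subset (s := {y : Set κ.out | #y < κ}) fun y k => ⟨subset_univ _, k⟩)
  · exact Order.lt_succ_iff.1 (by simpa using mk_Iio_lt η)
  · have := (hU n).1
    rw [Ultrafilter.coe_map]
    infer_instance

theorem main (gch : ∀ c : Cardinal.{0}, ℵ₀ ≤ c → 2 ^ c = Order.succ c) (κ : Cardinal.{0})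
    (hκ : ℵ₀ < κ) (T : Type) (W : Ultrafilter (Set T)) (hW : SC κ W) (A : ℕ → Set T)
    (h0 : κ < #(A 0)) (h1 : StrictMono fun n => #(A n)) (h2 : ∀ n, IsInaccessible #(A n))
    (h3 : ⨆ n, #(A n) < #T)
    (h4 : ∀ n, {x : Set T | ∃ U : Ultrafilter (Set κ.out), SC #(x ∩ A n : Set T) U} ∈ W) :
    ∃ (M : Type) (E : M → M → Prop), IsZF E ∧ Choice E ∧ WellFounded E ∧ GCH E ∧
      ∃ (a b : ℕ → M) (k k2 : M), Omega E (a 0) ∧ (∀ n, Next E (a n) (a (n + 1))) ∧
        (∀ x, E x k ↔ ∃ n, E x (a n)) ∧ Next E k (b 0) ∧ (∀ n, Next E (b n) (b (n + 1))) ∧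
        (∀ x, E x k2 ↔ ∃ n, E x (b n)) ∧ Chang E k2 b fun n => a (n + 1) := by
  obtain ⟨_, _⟩ := exists_wellFoundedLT T
  have := hW.1
  have := CardinalInterFilter.toCountableInterFilter (W : Filter (Set T)) hκ
  let l : ℕ → Cardinal.{0} := cons (Order.succ κ) fun n => #(A n)
  have bA : ∀ n, #(A n) ≤ ⨆ n, #(A n) := le_ciSup bddAbove_of_small
  have l1 : l 0 < l 1 := inacc_succ_lt (h2 0) h0
  have sc : Sc l := ⟨strictMono_nat_of_lt_succ fun n => by
    cases n; exacts [l1, h1 (Nat.lt_succ_self _)], fun n => by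
    cases n; exacts [isRegular_succ hκ.le, (h2 _).isRegular]⟩
  have hK : ⨆ n, l n < #T := lt_of_le_of_lt (ciSup_le' fun n => by
    cases n; exacts [l1.le.trans (bA 0), bA _]) h3
  have lK : ∀ n, l n ≤ #T := fun n => (le_ciSup bddAbove_of_small n).trans hK.le
  have kT : κ < #T := (Order.lt_succ κ).trans_le (lK 0)
  have ia := inacc_of_sc hW hκ kT.le
  let D := {a : T × (ℕ → T) // ∃ S : Bot (Iio a.1) κ.out {y : Set κ.out // #y < κ}
    (Order.succ κ).ord.ToType, S.κ = κ ∧ S.l 0 = ℵ₀ ∧ ∀ n, S.l (n + 1) = cd (a.2 n)}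
  choose S s1 s2 s3 using fun a : D => a.2
  have hD : #D ≤ κ := by
    refine (mk_le_of_injective (f := fun a : D => ((⟨a.1.1, (S a).Bκ.trans_eq (s1 a)⟩ : Lt T κ),
      fun n =>
        (⟨a.1.2 n, ((s3 a n).ge.trans ((S a).lB _)).trans_lt ((S a).Bκ.trans_eq (s1 a))⟩ : Lt T κ)))
      fun a b e => Subtype.ext (Prod.ext (Subtype.mk.inj (Prod.mk.inj e).1)
        (funext fun n => Subtype.mk.inj (congrFun (Prod.mk.inj e).2 n)))).trans
      (mk_prod_le' hκ.le (mk_Lt_le κ) ?_)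
    rw [← power_def]
    exact (power_le_power_right (mk_Lt_le κ)).trans (inacc_pow_le ia (by simpa using hκ))
  have Γ := fun a => (S a).exists_gui.some
  choose U hU using fun a => exists_upper (Γ a) sc lK h2 (congrArg Order.succ (s1 a).symm)
  have i1 := loc_id hW
  obtain ⟨a, ha⟩ := hull gch hW hκ sc rfl h2 hK hD (fun a => Iio a.1.1) S Γ U hU (by
    filter_upwards [hW.2.1, eventually_countable_forall.2 h4,
      eventually_countable_forall.2 fun n => i1.lt i1 (A := Lt T (l n)) (B := Lt T (l (n + 1)))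
        (by rw [mk_Lt (lK _), mk_Lt (lK _)]; exact sc.mono n.lt_succ_self),
      eventually_countable_forall.2 fun n => (i1.le i1 (A := Lt T (l (n + 1))) (B := A n)
        (mk_Lt_le _)).and (i1.le i1 (B := Lt T (l (n + 1))) (A := A n) (le_mk_Lt (lK (n + 1)))),
      ae_ball W κ (R := Lt T ℵ₀) ((mk_Lt_le _).trans_lt hκ) fun β _ => i1.fine β,
      i1.lt i1 (A := Lt T κ) (B := Lt T (l 0))
        (by rw [mk_Lt (lK _), mk_Lt kT.le]; exact Order.lt_succ κ),
      i1.diag (fun β x => β ∈ Lt T (l 0) → #(Iio β ∩ x : Set T) ≤ #(Lt T κ ∩ x : Set T))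
        fun β => by
          by_cases k : β ∈ Lt T (l 0)
          · exact (i1.le i1 ((mem_Lt_succ.1 k).trans (le_mk_Lt kT.le))).mono fun _ a _ => a
          · exact Eventually.of_forall fun _ a => absurd a k] with x x1 x2 x3 x4 x5 x6 x7
    obtain ⟨top, π, p1, rfl⟩ := exists_pi x (lt_trans x1 kT)
    have m : #(range π) = #(Iio top) := mk_range_eq π p1.injective
    have i : ℵ₀ ≤ #(Lt T κ ∩ range π : Set T) := (le_mk_Lt (hκ.trans kT).le).trans
      (mk_le_mk_of_subset (subset_inter (Lt_mono hκ.le) x5))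
    have e : #(Lt T (l 0) ∩ range π : Set T) = Order.succ #(Lt T κ ∩ range π : Set T) := by
      refine le_antisymm ((mk_le_mk_of_subset ?_).trans ((mk_image_le (f := π)).trans
        (mk_Lt_le _))) (Order.succ_le_of_lt x6)
      rintro _ ⟨k, b, rfl⟩
      exact ⟨b, mem_Lt_succ.2 ((cd_pi p1 b).le.trans (x7 _ ⟨b, rfl⟩ k)), rfl⟩
    have b : ∀ n, #(Lt T (l n) ∩ range π : Set T) ≤ #(Iio top) := fun n =>
      (mk_le_mk_of_subset inter_subset_right).trans m.le
    obtain ⟨S', t1, t2⟩ := exists_bot gch ia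
      (c := cons ℵ₀ fun n => #(Lt T (l n) ∩ range π : Set T)) rfl i e
      (strictMono_nat_of_lt_succ fun n => by cases n; exacts [i.trans_lt x6, x3 _])
      (fun n => by
        have k := x2 n
        rwa [inter_comm, ← (x4 n).1.antisymm (x4 n).2] at k) (Iio top)
      (fun n => by cases n; exacts [(i.trans x6.le).trans (b 0), b _]) (m ▸ x1)
    choose v hv using fun n => exists_cd (K := T) ((b n).trans_lt ((m ▸ x1 : _ < κ).trans kT))
    exact ⟨⟨(top, v), S', t1, t2 ▸ rfl, fun n => t2 ▸ (hv n).symm⟩, π, p1, rfl,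
      fun n => (s3 _ n).trans (hv n)⟩)
  obtain ⟨k1, k2, k3, k4⟩ := steps gch (U a) (s2 a) (congrArg Order.succ (s1 a).symm)
  have : Nonempty (Top (U a)) := ⟨⟨Cond.nf (Γ a) [] ∅ (Hd.empty (S a).sc _) (fun _ => Set.univ)
    (fun _ => univ_mem) (fun _ => ∅) (fun _ => C1.empty (S a).sc _)
      ((S a).bnd (A := Empty) (by simp) Empty.elim).choose, ∅, CP.empty sc⟩⟩
  exact model (s2 a) k1 k2 k3 k4 lK ha

end Pool.Agent.Lib.MP_72fca1_lc
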