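import Pool.Agent.Lib.MP_72fca1_lc.Top
import Pool.Agent.Lib.MP_72fca1_lc.Loc

set_option autoImplicit false
set_option linter.unusedSectionVars false

namespace Pool.Agent.Lib.MP_72fca1_lc

open Pool.Agent.Lib.MP_d4b40b_lc Set Cardinal Filter

variable {K : Type} [LinearOrder K] [WellFoundedLT K] {l : ℕ → Cardinal.{0}}

lemma exists_nm (Q K : Type) [Nonempty Q] [LinearOrder K] : ∃ nm : K → K → Q → K,
    (∀ α (g : Q → K), (∀ q, g q < α) → ∃ γ < α, ∀ q, nm α γ q = nm α (g q) q) ∧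
    ∀ α, cd α ^ #Q ≤ cd α → ∀ v < α, ∃ γ < α, ∀ q, nm α γ q = v := by
  classical
  have : ∀ α : K, ∃ nm : K → Q → K,
      (∀ g : Q → K, (∀ q, g q < α) → ∃ γ < α, ∀ q, nm γ q = nm (g q) q) ∧
      (cd α ^ #Q ≤ cd α → ∀ v < α, ∃ γ < α, ∀ q, nm γ q = v) := fun α => by
    by_cases h : cd α ^ #Q ≤ cd α ∧ ∃ v, v < α
    · obtain ⟨h, v, hv⟩ := h
      obtain ⟨e, he⟩ := exists_onto (A := Iio α) (Z := (Set.univ : Set (Q → Iio α)))
        (by rwa [mk_univ, ← power_def]) fun _ => ⟨v, hv⟩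
      refine ⟨fun γ q => if k : γ < α then e ⟨γ, k⟩ q else α, fun g hg => ?_, fun _ w hw => ?_⟩
      · obtain ⟨γ, k⟩ := he (mem_univ fun q => e ⟨g q, hg q⟩ q)
        exact ⟨γ, γ.2, fun q => by simp only [dif_pos (show γ.1 < α from γ.2), dif_pos (hg q), k]⟩
      · obtain ⟨γ, k⟩ := he (mem_univ fun _ => ⟨w, hw⟩)
        exact ⟨γ, γ.2, fun q => by simp only [dif_pos (show γ.1 < α from γ.2), k]⟩
    · exact ⟨fun _ _ => α, fun g hg => ⟨_, hg (Classical.arbitrary Q), fun _ => rfl⟩,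
        fun a v b => absurd ⟨a, v, b⟩ h⟩
  choose nm h1 h2 using this
  exact ⟨nm, h1, h2⟩

variable {B I Y O : Type} [LinearOrder B] [WellFoundedLT B] [LinearOrder O] [WellFoundedLT O]
  {S : Bot B I Y O}

/-- names can be composed -/
def Comp {Γ : Gui S} (T : Upper (Cond Γ) K l) : Prop :=
  ∀ α (g : Set (T3 B) → K), (∀ d, g d < α) → ∃ γ < α, ∀ p d, Cond.In p d → ∀ γ',
    (∀ q, d ⊆ q → CP S.l q → g q = γ') → T.Eqv p α γ' γ

theorem exists_upper (Γ : Gui S) (sc : Sc l) (lK : ∀ n, l n ≤ #K)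
    (inacc : ∀ n, IsInaccessible (l (n + 1))) (h0 : l 0 = Order.succ S.κ) :
    ∃ T : Upper (Cond Γ) K l, Comp T := by
  obtain ⟨nm, h1, h2⟩ := exists_nm (Set (T3 B)) K
  refine ⟨⟨fun p α γ γ' => ∃ d, p.In d ∧ ∀ q, d ⊆ q → CP S.l q → nm α γ q = nm α γ' q, sc, lK,
    inacc, h0 ▸ Order.lt_succ_iff.2 S.inf, h0 ▸ Cond.mk_le, h0 ▸ Cond.cc,
    fun p _ _ => ⟨∅, .empty p, fun _ _ _ => rfl⟩,
    fun _ _ _ _ ⟨d, a, b⟩ => ⟨d, a, fun q e e' => (b q e e').symm⟩,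
    fun _ _ _ _ _ ⟨d, a, b⟩ ⟨d', a', b'⟩ => ⟨_, a.union a', fun q e e' =>
      (b q (subset_union_left.trans e) e').trans (b' q (subset_union_right.trans e) e')⟩,
    fun _ _ _ _ _ ⟨d, a, b⟩ e => ⟨d, a.mono e, b⟩, fun n ρ hρ => ?_⟩, fun α g hg => ?_⟩
  · let τ := max #(Set (T3 B)) ℵ₀
    have t1 : τ < l (n + 1) := max_lt (S.mk_Q.trans ((Order.lt_succ _).trans
      (h0 ▸ sc.mono n.succ_pos))) (inacc n).1
    have t2 := inacc_pow_lt (inacc n) (max_lt (sc.mono n.lt_succ_self) hρ) t1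
    have t3 := self_le_power (max (l n) ρ) (one_lt_aleph0.le.trans (le_max_right _ _) : 1 ≤ τ)
    obtain ⟨α, hα⟩ := exists_cd (K := K) (t2.trans_le (lK _))
    choose cn c1 c2 using h2 α (by
      rw [hα, ← power_mul]
      exact power_le_power_left ((sc.pos n).trans_le (le_max_left _ _)).ne'
        (mul_le' (le_max_right _ _) le_rfl (le_max_left _ _)))
    exact ⟨α, hα ▸ (le_max_left _ _).trans t3, hα ▸ (le_max_right _ _).trans t3, hα ▸ t2,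
      fun v => ⟨cn v v.2, c1 v v.2⟩, fun p v v' ⟨d, a, b⟩ =>
        Subtype.ext ((c2 v v.2 d).symm.trans ((b d Subset.rfl a.cp).trans (c2 v' v'.2 d)))⟩
  · obtain ⟨γ, k1, k2⟩ := h1 α g hg
    exact ⟨γ, k1, fun p d a γ' b => ⟨d, a, fun q e e' => b q e e' ▸ (k2 q).symm⟩⟩

/-- the trace of a condition -/
def trc (π : B → K) (h : Set (T3 K)) : Set (T3 B) := Prod.map π (Prod.map π π) ⁻¹' h

theorem master {Γ : Gui S} {T : Upper (Cond Γ) K l} (hT : Comp T) (π : B → K)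
    (hπ : #(range π) < l 0) (en : K → Set (T3 K))
    (wt : ∀ β ∈ range π, ∀ β' ∈ range π, Fn ((en β ∪ en β') ∩ cube (range π)) →
      Fn (en β ∪ en β')) :
    ∃ g : {u : Set (T3 K) // CP l u}, ∀ p d, Cond.In p d → ∀ β ∈ range π, ∀ h : CP l (en β),
      trc π (en β) ⊆ d → ∀ h0, Top.ov T p h0 g ≤ Top.ov T p h0 ⟨en β, h⟩ := by
  obtain ⟨g, g1, g2⟩ := glue T.sc (J := {β | β ∈ range π ∧ CP l (en β)})
    ((mk_le_mk_of_subset fun _ k => k.1).trans_lt hπ) (fun β => en β) (fun β => β.2.2)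
    (fun α ξ γ => ∀ p d, Cond.In p d → ∀ β ∈ range π, CP l (en β) → trc π (en β) ⊆ d →
      ∀ γ', (α, ξ, γ') ∈ en β → T.Eqv p α γ' γ) fun α ξ ⟨i, γ0, h0⟩ => by
    have : ∀ d, ∃ γ < α, CP S.l d → ∀ β ∈ range π, CP l (en β) → trc π (en β) ⊆ d →
        ∀ γ', (α, ξ, γ') ∈ en β → γ = γ' := fun d => by
      by_cases k : ∃ β ∈ range π, CP l (en β) ∧ trc π (en β) ⊆ d ∧ ∃ γ, (α, ξ, γ) ∈ en β
      · obtain ⟨β, k1, k2, k3, γ, k4⟩ := k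
        obtain ⟨_, k5⟩ := k2.tri _ k4
        refine ⟨γ, k5.2.2.2, fun a β' b _ c γ' e => wt β k1 β' b ?_ _ _ _ _ (Or.inl k4) (Or.inr e)⟩
        rintro _ _ _ _ ⟨e1, ⟨a1, rfl⟩, ⟨a2, rfl⟩, a3, rfl⟩ ⟨e2, -, -, a4, rfl⟩
        exact congrArg π (a.fn a1 a2 a3 a4 (union_subset k3 c e1) (union_subset k3 c e2))
      · obtain ⟨_, k5⟩ := i.2.2.tri _ h0
        exact ⟨γ0, k5.2.2.2, fun _ β a b c γ e => absurd ⟨β, a, b, c, γ, e⟩ k⟩
    choose v v1 v2 using this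
    obtain ⟨γ, k1, k2⟩ := hT α v v1
    exact ⟨γ, k1, fun p d a β b c e γ' f => k2 p d a γ' fun q a b' =>
      v2 q b' β b c (e.trans a) γ' f⟩
  refine ⟨⟨g, g1⟩, fun p d a β b c e h0 => ⟨le_rfl, ?_⟩⟩
  rintro α ξ γ (k | k)
  · exact ⟨γ, Or.inl k, T.refl _ _ _⟩
  · obtain ⟨γ', k1, k2⟩ := g2 ⟨β, b, c⟩ α ξ γ k.1
    exact ⟨γ', Or.inr ⟨k1, k.2⟩, k2 p d a β b c e γ k.1⟩

section Trace

variable {π : B → K} {c : ℕ → Cardinal.{0}} (hπ : StrictMono π)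
  (hc : ∀ n b, cd (π b) < l n ↔ cd b < c (n + 1))

include hπ hc

lemma tri_iff (t : T3 B) (m : ℕ) : Prod.map π (Prod.map π π) t ∈ Tri l m ↔ t ∈ Tri c (m + 1) :=
  and_congr (le_iff_le_iff_lt_iff_lt.2 (hc _ _)) (and_congr (hc _ _)
    (and_congr (hc _ _) hπ.lt_iff_lt))

omit hc in
lemma inj3 : Function.Injective (Prod.map π (Prod.map π π)) :=
  hπ.injective.prodMap (hπ.injective.prodMap hπ.injective)

lemma tl_trc (sc : Sc c) {h : Set (T3 K)} (h1 : CP l h)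
    (h2 : ∀ m, #(h ∩ Tri l m ∩ cube (range π) : Set (T3 K)) < c (m + 1)) : Tl c 1 (trc π h) := by
  have k : ∀ t ∈ trc π h, ∃ m, t ∈ Tri c (m + 1) := fun t e =>
    (h1.tri _ e).imp fun m => (tri_iff hπ hc t m).1
  refine ⟨⟨fun _ _ _ _ a b => hπ.injective (h1.fn _ _ _ _ a b),
    fun t e => let ⟨m, a⟩ := k t e; ⟨_, a⟩, fun m => ?_⟩, fun t e a => ?_⟩
  · cases m with
    | zero =>
      rw [eq_empty_of_forall_notMem (s := trc π h ∩ Tri c 0) fun t e =>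
        let ⟨m, a⟩ := k t e.1; Nat.succ_ne_zero m (sc.uniq a e.2 rfl)]
      simpa using sc.pos 0
    | succ m =>
      refine lt_of_le_of_lt ?_ (h2 m)
      rw [← mk_image_eq (inj3 hπ)]
      refine mk_le_mk_of_subset ?_
      rintro _ ⟨t, e, rfl⟩
      exact ⟨⟨e.1, (tri_iff hπ hc t m).2 e.2⟩, ⟨_, rfl⟩, ⟨_, rfl⟩, _, rfl⟩
  · obtain ⟨m, b⟩ := k t e
    exact absurd ((sc.lo_iff b).1 a) (by omega)

lemma exists_lift {d : Set (T3 B)} (h : CP c d) : ∃ q ⊆ cube (range π), Fn q ∧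
    (∀ t ∈ q, ∃ m, t ∈ Tri l m) ∧ (∀ m, #(q ∩ Tri l m : Set (T3 K)) < c (m + 1)) ∧
    d ∩ (Lo (c 1))ᶜ ⊆ trc π q := by
  refine ⟨Prod.map π (Prod.map π π) '' (d ∩ (Lo (c 1))ᶜ), ?_, ?_, ?_, fun m => ?_,
    subset_preimage_image _ _⟩
  · rintro _ ⟨t, -, rfl⟩
    exact ⟨⟨_, rfl⟩, ⟨_, rfl⟩, _, rfl⟩
  · rintro _ _ _ _ ⟨⟨a, x, v⟩, e, k⟩ ⟨⟨a', x', v'⟩, e', k'⟩
    cases k
    simp only [Prod.map, Prod.mk.injEq] at k'
    obtain ⟨k1, k2, rfl⟩ := k'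
    cases hπ.injective k1
    cases hπ.injective k2
    exact congrArg π (h.fn _ _ _ _ e.1 e'.1)
  · rintro _ ⟨t, e, rfl⟩
    obtain ⟨m, k⟩ := h.tri t e.1
    cases m with
    | zero => exact absurd (tri_lo 0 k) e.2
    | succ m => exact ⟨m, (tri_iff hπ hc t m).2 k⟩
  · refine lt_of_le_of_lt ((mk_le_mk_of_subset ?_).trans
      (mk_image_le (f := Prod.map π (Prod.map π π)))) (h.sz (m + 1))
    rintro _ ⟨⟨t, e, rfl⟩, k⟩
    exact ⟨t, ⟨e.1, (tri_iff hπ hc t m).1 k⟩, rfl⟩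

end Trace

end Pool.Agent.Lib.MP_72fca1_lc
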