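import Pool.Agent.Lib.MP_72fca1_lc.Cond

set_option autoImplicit false
set_option linter.unusedSectionVars false

namespace Pool.Agent.Lib.MP_72fca1_lc

open Pool.Agent.Lib.MP_d4b40b_lc Set Cardinal Filter

section Gen

variable {P : Type} [Preorder P]

/-- open sets -/
def Mon (Q : P → Prop) : Prop := ∀ p q, Q p → q ≤ p → Q q

/-- regular sets -/
def Reg (Q : P → Prop) : Prop := ∀ p, (∀ q ≤ p, ∃ r ≤ q, Q r) → Q p

/-- the pseudo-complement -/
def Ng (Q : P → Prop) (p : P) : Prop := ∀ q ≤ p, ¬ Q q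

/-- deciding -/
def Dec (Q : P → Prop) (p : P) : Prop := Q p ∨ Ng Q p

lemma mon_ng (Q : P → Prop) : Mon (Ng Q) := fun _ _ h e r k => h r (k.trans e)

lemma reg_ng {Q : P → Prop} (h : Mon Q) : Reg (Ng Q) := fun _ k q e a =>
  let ⟨r, b, c⟩ := k q e
  c r le_rfl (h _ _ a b)

lemma mon_dec {Q : P → Prop} (h : Mon Q) : Mon (Dec Q) := fun p q k e =>
  k.imp (fun a => h p q a e) fun a => mon_ng Q p q a e

lemma exists_dec (Q : P → Prop) (p : P) : ∃ q ≤ p, Dec Q q := by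
  by_cases h : ∃ q ≤ p, Q q
  · exact h.imp fun _ k => ⟨k.1, Or.inl k.2⟩
  · exact ⟨p, le_rfl, Or.inr fun q e k => h ⟨q, e, k⟩⟩

end Gen

variable {B I Y O : Type} [LinearOrder B] [WellFoundedLT B] [LinearOrder O] [WellFoundedLT O]
  {S : Bot B I Y O} {Γ : Gui S}

namespace Cond

/-- some condition with the given lower part has the property -/
def Good (D : Cond Γ → Prop) (t : List Y) (c : Set (T3 B)) (u : Y → Set (T3 B)) : Prop :=
  ∃ p : Cond Γ, p.s = t ∧ p.c ⊆ c ∧ (∀ z ∈ p.A t, p.F (z :: t) ⊆ u z) ∧ D p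

lemma Good.mono {D : Cond Γ → Prop} {t : List Y} {c c' : Set (T3 B)} {u u' : Y → Set (T3 B)}
    (h : Good D t c u) (e : c ⊆ c') (e' : u ≤ u') : Good D t c' u' :=
  h.imp fun _ k => ⟨k.1, k.2.1.trans e, fun z a => (k.2.2.1 z a).trans (e' z), k.2.2.2⟩

lemma of_ext {Q : Cond Γ → Prop} (hm : Mon Q) (hr : Reg Q) {p : Cond Γ}
    (h : ∀ z hz, Q (p.ext z hz)) : Q p := hr p fun q hq => by
  obtain ⟨r, h1, h2⟩ := q.exists_len (p.s.length + 1)
  obtain ⟨z, hz, k⟩ := le_ext (h1.trans hq) fun e => by simp [e] at h2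
  exact ⟨r, h1, hm _ _ (h z hz) k⟩

lemma mk_hd' (n : ℕ) : #{c : Set (T3 B) | Hd S.l (n + 1) c} < S.l (n + 2) :=
  (mk_hd S.sc (S.pw n)).trans_lt (S.sc.mono (Nat.lt_succ_self _))

theorem prikry {Q : Cond Γ → Prop} (hm : Mon Q) (hr : Reg Q) (s : List Y) (c : Set (T3 B))
    (u : Y → Set (T3 B)) (hc : Hd S.l (s.length + 1) c) (hu : S.Val (s.length + 1) u) :
    ∃ c' u', c ⊆ c' ∧ Hd S.l (s.length + 1) c' ∧ u ≤ u' ∧ S.Val (s.length + 1) u' ∧
      Good (Dec Q) s c' u' := by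
  classical
  obtain ⟨η, ι, key⟩ := Γ.key (fun t c u _ => Good (Dec Q) t c u) fun _ _ _ _ _ _ => Good.mono
  let Bad : List Y → Set (T3 B) → (Y → Set (T3 B)) → Prop := fun t c u =>
    ∀ c' u', c ⊆ c' → Hd S.l (t.length + 1) c' → u ≤ u' → S.Val (t.length + 1) u' →
      ¬ Good (Dec Q) t c' u'
  have step : ∀ t c u, Hd S.l (t.length + 1) c → S.Val (t.length + 1) u → Bad t c u →
      ∀ᶠ z in (S.U t.length : Filter Y), Bad (z :: t) (c ∪ u z) fun w => Γ.G η (w :: z :: t) := by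
    intro t c u hc hu hb
    by_contra h
    have h1 : ∀ᶠ z in (S.U t.length : Filter Y), ∃ x : Set (T3 B) × Cond Γ, c ∪ u z ⊆ x.1 ∧
        Hd S.l (t.length + 2) x.1 ∧ x.2.s = z :: t ∧ x.2.c ⊆ x.1 ∧
        (∀ w ∈ x.2.A (z :: t), x.2.F (w :: z :: t) ⊆ Γ.G η (w :: z :: t)) ∧ Dec Q x.2 := by
      filter_upwards [Ultrafilter.eventually_not.2 h, S.fine _ ι, S.small _] with z k1 k2 k3
      simp only [Bad, not_forall, not_not] at k1
      obtain ⟨c1, u1, a1, a2, a3, a4, a5⟩ := k1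
      obtain ⟨c2, b1, b2, b3⟩ := key z t k2 k3 c1 a2
      obtain ⟨-, -, p, b4⟩ := b3.resolve_right fun k => k c2 u1 η Subset.rfl b2 a3 a4
        (a5.mono b1 le_rfl)
      exact ⟨(c2, p), a1.trans b1, b2, b4⟩
    have : Nonempty (Set (T3 B) × Cond Γ) := let ⟨_, x, _⟩ := h1.exists; ⟨x⟩
    obtain ⟨x, h2⟩ := h1.choice
    obtain ⟨c', h3, h4⟩ := ae_cst (S.U t.length) _ (mk_hd' (S := S) t.length)
      (f := fun z => (x z).1 ∩ Lo (S.l (t.length + 1))) (h2.mono fun z k => k.2.1.1.hd _)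
    obtain ⟨Q', q1, q2, q3, h5⟩ : ∃ Q' : Cond Γ → Prop, Mon Q' ∧ Reg Q' ∧ (∀ p, Q' p → Dec Q p) ∧
        ∀ᶠ z in (S.U t.length : Filter Y), Q' (x z).2 := by
      rcases Ultrafilter.eventually_or.1 (h2.mono fun z k => k.2.2.2.2.2) with k | k
      · exact ⟨Q, hm, hr, fun _ => Or.inl, k⟩
      · exact ⟨Ng Q, mon_ng Q, reg_ng hm, fun _ => Or.inr, k⟩
    have hZ := h2.and (h4.and h5)
    rw [Filter.Eventually] at hZ
    set Z := {z | _} with eZ
    let v : Y → Set (T3 B) := fun z => if z ∈ Z then (x z).1 ∩ Tri S.l (t.length + 1) else u z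
    have hv : S.Val (t.length + 1) v := fun z => by
      by_cases k : z ∈ Z
      · simp only [v, if_pos k]; exact k.1.2.1.1.c1 _
      · simp only [v, if_neg k]; exact hu z
    obtain ⟨p, p1, p2, p3, p4⟩ := amalg t c' h3 η Z hZ v hv (fun z => (x z).2)
      (fun z k => k.1.2.2.1) (fun z k => k.1.2.2.2.1.trans (by
        simp only [v, if_pos k, ← k.2.1]
        exact (k.1.2.1.1.split S.sc k.1.2.1.2).le)) fun z k => k.1.2.2.2.2.1
    obtain ⟨z0, k0⟩ := Filter.nonempty_of_mem hZ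
    refine hb c' v ?_ h3 (fun z => ?_) hv ⟨p, p1, p2.le, fun z _ => (p3 z).le,
      q3 _ (of_ext q1 q2 fun z hz => q1 _ _ (p4 z hz).1.2.2 (p4 z hz).2)⟩
    · rw [← k0.2.1]
      exact subset_inter (subset_union_left.trans k0.1.1) hc.2
    · by_cases k : z ∈ Z
      · simp only [v, if_pos k]
        exact subset_inter (subset_union_right.trans k.1.1) (hu z).2
      · simp only [v, if_neg k]; exact Subset.rfl
  by_contra h
  have b0 : Bad s c u := fun c' u' a1 a2 a3 a4 a5 => h ⟨c', u', a1, a2, a3, a4, a5⟩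
  let F := nfF Γ s u η
  have vF : ∀ t, C1 S.l t.length (F t) :=
    (nf Γ s c hc (fun _ => Set.univ) (fun _ => univ_mem) u hu η).hF
  let A : List Y → Set Y := fun t => {z | ∀ c' : {c : Set (T3 B) | Hd S.l (t.length + 1) c},
    Bad t c' (fun w => F (w :: t)) → Bad (z :: t) (c'.1 ∪ F (z :: t)) fun w => Γ.G η (w :: z :: t)}
  have hA : ∀ t, A t ∈ S.U t.length := fun t =>
    ae_all (S.U t.length) _ (mk_hd' (S := S) t.length) fun c' => by
      by_cases k : Bad t c' fun w => F (w :: t)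
      · exact (step t c' _ c'.2 (fun w => vF (w :: t)) k).mono fun _ a _ => a
      · exact Eventually.of_forall fun _ a => absurd a k
  have ind : ∀ t, Tr s A t → ∃ c', Hd S.l (t.length + 1) c' ∧ Bad t c' (fun w => F (w :: t)) ∧
      ∀ q ≤ nf Γ s c hc A hA u hu η, t <:+ q.s → c' ⊆ q.c := by
    intro t k
    induction k with
    | base => exact ⟨c, hc, (funext (nfF_self s u η) : (fun w => F (w :: s)) = u) ▸ b0,
        fun q a _ => a.c⟩
    | @step t z k e ih =>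
      obtain ⟨c', a1, a2, a3⟩ := ih
      refine ⟨c' ∪ F (z :: t), a1.step S.sc (vF (z :: t)), ?_, fun q a b => union_subset
        (a3 q a ((List.suffix_cons _ _).trans b)) (a.st z t k.suf b)⟩
      rw [show (fun w => F (w :: z :: t)) = fun w => Γ.G η (w :: z :: t) from
        funext fun w => nfF_up u η w z k.suf]
      exact e ⟨c', a1⟩ a2
  obtain ⟨q, q1, q2⟩ := exists_dec Q (nf Γ s c hc A hA u hu η)
  obtain ⟨c', -, a2, a3⟩ := ind q.s q1.tr
  refine a2 q.c (fun z => if z ∈ q.A q.s then q.F (z :: q.s) else F (z :: q.s))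
    (a3 q q1 (List.suffix_refl _)) q.hc (fun z => ?_) (fun z => ?_)
    ⟨q, rfl, Subset.rfl, fun z k => (if_pos k).ge, q2⟩
  · by_cases k : z ∈ q.A q.s
    · simp only [if_pos k]; exact q1.F _ z Tr.base k
    · simp only [if_neg k]; exact Subset.rfl
  · by_cases k : z ∈ q.A q.s
    · simp only [if_pos k]; exact q.hF (z :: q.s)
    · simp only [if_neg k]; exact vF (z :: q.s)

end Cond

end Pool.Agent.Lib.MP_72fca1_lc
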