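import Pool.Agent.Lib.MP_72fca1_lc.Chain
import Pool.Agent.Lib.MP_72fca1_lc.Defs
import Pool.Agent.Lib.MP_d4b40b_lc.Tools

set_option autoImplicit false

namespace Pool.Agent.Lib.MP_72fca1_lc

open Pool.Agent.Lib.helper81 Pool.Agent.Lib.helper81.Name Pool.Agent.Lib.MP_fcebdf_lc
open Pool.Agent.Lib.MP_d4b40b_lc Set Cardinal

/-- everything below `σ` is collapsed to `ρ` -/
def Clp (P : Type) [Preorder P] (ρ σ : Cardinal.{0}) : Prop :=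
  ∀ A R : Type, #A < σ → ρ ≤ #R → ∃ H : R → A → P → Prop, (∀ r a, Mon (H r a)) ∧
    (∀ r a a' p, H r a p → H r a' p → a = a') ∧ ∀ a p, ∃ q ≤ p, ∃ r, H r a q

/-- `σ` becomes the successor and the power of `ρ` -/
structure Step (P : Type) [Preorder P] (ρ σ : Cardinal.{0}) : Prop where
  lt : ρ < σ
  cov : ∀ J : Type, #J ≤ ρ → Cov P J σ
  clp : Clp P ρ σ

lemma pow_mono {M : Type} {E : M → M → Prop} (h : IsZF E) {a a' y y' : M} (h1 : Le E a a')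
    (h2 : Pow E y a) (h3 : Pow E y' a') : Le E y y' := by
  obtain ⟨f, hf⟩ := h1
  have key : ∀ x x' z, E x y → (∀ j, E j z ↔ ∃ i, E i x ∧ Rel E f i j) →
      (∀ j, E j z ↔ ∃ i, E i x' ∧ Rel E f i j) → Sub E x x' := fun x x' z k a b i hi => by
    obtain ⟨j, k1, -⟩ := hf.2.1 i ((h2 x).1 k i hi)
    obtain ⟨i', k2, k3⟩ := (b j).1 ((a j).2 ⟨i, hi, k1⟩)
    exact hf.2.2 _ _ _ k3 k1 ▸ k2
  refine le_of_def h (Φ := fun _ E v => ∀ j, E j (v 1) ↔ ∃ i, E i (v 0) ∧ Rel E (v 2) i j)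
    (Def.all ((Def.mem _ _).iff (Def.ex ((Def.mem _ _).and (Def.rel _ _ _))))) (fun _ => f)
    (fun x _ => ?_) (fun x z _ k => (h3 z).2 fun j hj => ?_)
    fun x x' z k k' a b => h.ext _ _ fun i => ⟨key x x' z k a b i, key x' x z k' b a i⟩
  · obtain ⟨z, hz⟩ := h.sepDef (Φ := fun _ E v => ∃ i, E i (v 1) ∧ Rel E (v 2) i (v 0))
      (Def.ex ((Def.mem _ _).and (Def.rel _ _ _))) (w2 x f) a'
    have k : ∀ j, E j z ↔ ∃ i, E i x ∧ Rel E f i j := fun j => (hz j).trans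
      ⟨And.right, fun ⟨i, k1, k2⟩ => ⟨(Inj.rel_mem h hf k2).2, i, k1, k2⟩⟩
    exact ⟨z, k, fun z' k' => h.ext _ _ fun j => (k' j).trans (k j).symm⟩
  · obtain ⟨i, -, k2⟩ := (k j).1 hj
    exact (Inj.rel_mem h hf k2).2

variable {P K K' : Type} [Preorder P] [LinearOrder K] [WellFoundedLT K] [LinearOrder K']
  [WellFoundedLT K']

theorem pow_le (gm : GN P) {L : Set K} {L' : Set K'} {σ : Cardinal.{0}} (hc : Cov P L σ)
    (hL : σ ≤ #L') (h1 : oS P L ∈ gm.S) (h2 : oS P L' ∈ gm.S) {Y : gm.M}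
    (hY : Pow gm.E Y (gm.val (oS P L))) : Le gm.E Y (gm.val (oS P L')) := by
  obtain ⟨Y, h3, rfl⟩ := gm.surj Y
  obtain ⟨p, hp, h4⟩ := gm.truthDef (def_pow 0 1) (mem2 h3 h1) hY
  obtain ⟨Φ, N, n1, n2, n3⟩ := hc
  obtain ⟨e⟩ := (Cardinal.le_def _ _).1 (n1.trans hL)
  let σ : Φ → HN P := fun φ =>
    mkH (fun ξ : L => ordH P ξ.1) fun ξ => ⟨{r | N φ ξ r}, fun _ _ l k => n2 _ _ _ _ k l⟩
  refine fc_cover σ (fun φ => (e φ).1) (fun _ _ => True) (fun _ _ _ _ _ => trivial)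
    (fun φ _ _ => (e φ).2) (fun φ φ' q _ _ k => e.injective (Subtype.ext k) ▸ Feq.refl _ _)
    (fun x q hq hx => ?_) gm hp (mem2 h3 h2)
  obtain ⟨r, k1, φ, k2⟩ := n3 (fun ξ r => Fmem (ordH P ξ.1).1 x.1 r)
    (fun _ _ _ => Fmem.mono) (fun _ _ => Fmem.reg) q
  refine ⟨r, k1, φ, trivial, feq_of_gm {Y, oS P L} (to_countable _)
    fun g l1 l2 l3 l4 => g.ext _ _ fun z => ⟨fun k => ?_, fun k => ?_⟩⟩
  · have a1 : Y ∈ g.S := l4 (by simp)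
    have a2 : oS P L ∈ g.S := l4 (by simp)
    obtain ⟨ξ, n1, n2, rfl⟩ := oS_elim g a2 ((h4.mono (k1.trans hq) g l1 (mem2 a1 a2) _).1
      (val_mem g l2 a1 l1 (hx.mono k1)) z k)
    obtain ⟨s, n3, n4⟩ := (g.mem_iff n2 l2).1 k
    obtain ⟨t, n5, n6, n7⟩ := g.dir _ _ l1 n3
    refine val_mem g n2 l3 n5 (Fmem.reg fun u hu => ?_)
    exact ((k2 ⟨ξ, n1⟩ u (hu.trans n6)).2 (n4.mono (hu.trans n7))).imp fun _ k =>
      ⟨k.1, fmem_mkH (A := fun ξ : L => ordH P ξ.1) (i := ⟨ξ, n1⟩) k.2⟩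
  · obtain ⟨ξ, m2, rfl, s, m3, m4⟩ := mkH_elim g l3 k
    obtain ⟨t, n5, n6, n7⟩ := g.dir _ _ l1 m3
    exact val_mem g m2 l2 n5 ((k2 ξ t n6).1 (n2 _ _ _ _ m4 n7))

theorem le_clp (gm : GN P) {L : Set K} {L' : Set K'} {ρ σ : Cardinal.{0}} (hc : Clp P ρ σ)
    (hL : #L < σ) (hL' : ρ ≤ #L') (h1 : oS P L ∈ gm.S) (h2 : oS P L' ∈ gm.S) :
    Le gm.E (gm.val (oS P L)) (gm.val (oS P L')) := by
  obtain ⟨H, k1, k2, k3⟩ := hc L L' hL hL'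
  obtain ⟨p, hp⟩ := gm.nonempty
  refine fc_le_oS L (fun t : L' => ordH P t.1) (fun η => Lst fun ξ q => ∃ h, H ξ ⟨η, h⟩ q)
    (fun _ _ _ _ h hr => h.mono hr (h.1.imp fun _ k => k1 _ _ _ _ k hr))
    (fun _ t q _ _ _ => fmem_oS t.2 q) (fun η hη q _ => exists_lst _ ?_)
    (fun η ξ ξ' q => Lst.uniq) (fun η _ η' _ ξ ξ' q a b e => ?_) gm hp (mem2 h1 h2)
  · obtain ⟨r, a, ξ, b⟩ := k3 ⟨η, hη⟩ q
    exact ⟨r, a, ξ, hη, b⟩
  · obtain rfl : ξ = ξ' := Subtype.ext (feq_ord e)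
    obtain ⟨_, a⟩ := a.1
    obtain ⟨_, b⟩ := b.1
    exact congrArg Subtype.val (k2 _ _ _ _ a b)

theorem Step.next {ρ σ : Cardinal.{0}} (h : Step P ρ σ) (gm : GN P) (hK : σ ≤ #K') {L : Set K}
    (hL : #L = ρ) (h1 : oS P L ∈ gm.S) (h2 : oS P (Lt K' σ) ∈ gm.S) :
    Next gm.E (gm.val (oS P L)) (gm.val (oS P (Lt K' σ))) := by
  refine ⟨isOrd_oS gm (lower_Lt σ) h2, fun k => ?_, fun x hx => ?_⟩
  · obtain ⟨Y, hY⟩ := gm.isZF.pow (gm.val (oS P L))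
    exact cantor' gm.isZF hY (le_trans' gm.isZF
      (pow_le gm (h.cov _ hL.le) (le_mk_Lt hK) h1 h2 hY) k)
  · obtain ⟨β, k1, k2, rfl⟩ := oS_elim gm h2 hx
    rw [ordH_eq] at k2 ⊢
    exact le_clp gm h.clp k1 hL.ge k2 h1

lemma next_congr {M : Type} {E : M → M → Prop} (h : IsZF E) {a a' b : M} (k : Next E a b)
    (h1 : Le E a a') (h2 : Le E a' a) : Next E a' b :=
  ⟨k.1, fun e => k.2.1 (le_trans' h e h2), fun x e => le_trans' h (k.2.2 x e) h1⟩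

lemma not_le_big (gm : GN P) {X : HN P} (hX : X ∈ gm.S) (hK : #(P × X.1.ι) < #K)
    (h : oS P (Set.univ : Set K) ∈ gm.S) :
    ¬ Le gm.E (gm.val (oS P (Set.univ : Set K))) (gm.val X) := by
  rintro ⟨f, hf⟩
  obtain ⟨f, hfS, rfl⟩ := gm.surj f
  obtain ⟨p, -, hp⟩ := gm.truthDef (Def.inj 0 1 2) (mem3 hfS h hX) hf
  have : ∀ γ : K, ∃ x : P × X.1.ι, x.1 ≤ p ∧ FR f (ordH P γ) (X.sub x.2) x.1 := fun γ => by
    obtain ⟨q, k1, y, k2, k3⟩ := fr_exists hp (mem_univ γ)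
    obtain ⟨r, k4, i, -, k5⟩ := fmem_elim k2
    exact ⟨(r, i), k4.trans k1, FR.congr (k3.mono k4) k5⟩
  choose x x1 x2 using this
  exact absurd (mk_le_of_injective (f := x) fun γ γ' e => fr_inj hp (x1 γ) (x2 γ) (e ▸ x2 γ'))
    (not_le.2 hK)

lemma not_le_fin (gm : GN P) {L : Set K} (hL : #L < ℵ₀) (h : oS P L ∈ gm.S) :
    ¬ Le gm.E gm.omega (gm.val (oS P L)) := by
  rintro ⟨f, hf⟩
  have : Finite L := lt_aleph0_iff_finite.1 hL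
  have : ∀ n : ℕ, ∃ β : L, Rel gm.E f (gm.nat n) (gm.val (ordH P β.1)) := fun n => by
    obtain ⟨y, k, -⟩ := hf.2.1 _ ((gm.mem_omega _).2 ⟨n, rfl⟩)
    obtain ⟨β, k1, -, rfl⟩ := oS_elim gm h (Inj.rel_mem gm.isZF hf k).2
    exact ⟨⟨β, k1⟩, k⟩
  choose x hx using this
  exact not_injective_infinite_finite x fun n m e => gm.nat_inj (hf.2.2 _ _ _ (hx n) (e ▸ hx m))

theorem gch_of_step (hs : ∀ ρ, ℵ₀ ≤ ρ → ∃ σ, Step P ρ σ) (gm : GN P) : GCH gm.E := by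
  intro w a y b h1 _ h2 h3 h4
  obtain rfl := gm.omega_eq h1
  obtain ⟨a, ha, rfl⟩ := gm.surj a
  obtain ⟨y, hy, rfl⟩ := gm.surj y
  obtain ⟨b, hb, rfl⟩ := gm.surj b
  obtain ⟨p, hp⟩ := gm.nonempty
  have dn : ∀ i j, Def (fun _ E v => Next E (v i) (v j)) := fun i j =>
    (def_isOrd _).and ((def_le _ _).not.and (Def.all ((Def.mem _ _).imp (def_le _ _))))
  let K := (Order.succ #(P × a.1.ι)).ord.ToType
  refine Fc.of_extra ((Def.sub 0 1).imp ((def_pow 2 1).imp ((dn 1 3).imp (def_le 2 3))))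
    (w := w4 (omegaH (Triv P)) a y b) {oS P (Set.univ : Set K)} (to_countable _)
    (fun g k1 k2 k3 h2 h3 h4 => ?_) gm hp (mem4 gm.omega_mem ha hy hb) h2 h3 h4
  obtain ⟨x, ⟨x1, x2⟩, x3⟩ := g.wf.has_min {x | g.E x (g.val (oS P (Set.univ : Set K))) ∧
    Le g.E (g.val a) x} ((le_or_le g (k3 rfl)).resolve_left
      (not_le_big g (k2 1) (by simp [K]) (k3 rfl)))
  obtain ⟨β, -, b1, rfl⟩ := oS_elim g (k3 rfl) x1
  have o := isOrd_oS g isLowerSet_univ (k3 rfl)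
  rw [ordH_eq] at b1 x1 x2 x3
  have x4 := (le_or_le g (X := g.val a) b1).resolve_right fun ⟨z, z1, z2⟩ =>
    x3 z ⟨o.1 _ x1 z z1, z2⟩ z1
  obtain ⟨σ, hσ⟩ := hs #(Iio β) (not_lt.1 fun k => not_le_fin g k b1
    (le_trans' g.isZF (le_of_sub g.isZF h2) x2))
  refine Fc.of_extra ((def_le 1 0).imp ((def_le 0 1).imp
    ((def_pow 2 1).imp ((dn 1 3).imp (def_le 2 3))))) (w := w4 (oS P (Iio β)) a y b)
    {oS P (Lt σ.ord.ToType σ)} (to_countable _) (fun g _ k2 k3 x2 x4 h3 h4 => ?_) g k1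
    (mem4 b1 (k2 1) (k2 2) (k2 3)) x2 x4 h3 h4
  have zf := g.isZF
  obtain ⟨Y, hY⟩ := zf.pow (g.val (oS P (Iio β)))
  have m : σ ≤ #σ.ord.ToType := by simp
  refine le_trans' zf (pow_mono zf x2 h3 hY) (le_trans' zf
    (pow_le g (hσ.cov _ le_rfl) (le_mk_Lt m) (k2 0) (k3 rfl) hY) ?_)
  exact (le_or_le g (k3 rfl)).resolve_right fun ⟨z, z1, z2⟩ => h4.2.1 (le_trans' zf z2
    (le_trans' zf ((hσ.next g m rfl (k2 0) (k3 rfl)).2.2 z z1) x4))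

end Pool.Agent.Lib.MP_72fca1_lc
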