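import Pool.Agent.Lib.MP_72fca1_lc.Low

set_option autoImplicit false
set_option linter.unusedSectionVars false

namespace Pool.Agent.Lib.MP_72fca1_lc

open Pool.Agent.Lib.MP_d4b40b_lc Set Cardinal Filter

/-- the data of the upper forcing -/
structure Upper (P K : Type) [Preorder P] [LinearOrder K] (l : ℕ → Cardinal.{0}) where
  Eqv : P → K → K → K → Prop
  sc : Sc l
  lK : ∀ n, l n ≤ #K
  inacc : ∀ n, IsInaccessible (l (n + 1))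
  l0 : ℵ₀ < l 0
  hP : #P ≤ l 0
  cc : CC (fun p q : P => p ≤ q) (l 0)
  refl : ∀ p α γ, Eqv p α γ γ
  symm : ∀ p α γ γ', Eqv p α γ γ' → Eqv p α γ' γ
  trans : ∀ p α γ γ' γ'', Eqv p α γ γ' → Eqv p α γ' γ'' → Eqv p α γ γ''
  mono : ∀ p q α γ γ', Eqv p α γ γ' → q ≤ p → Eqv q α γ γ'
  good : ∀ n ρ, ρ < l (n + 1) → ∃ α : K, l n ≤ cd α ∧ ρ ≤ cd α ∧ cd α < l (n + 1) ∧
    ∃ cn : Iio α → Iio α, ∀ p v v', Eqv p α (cn v) (cn v') → v = v'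

variable {P K : Type} [Preorder P] [LinearOrder K] [WellFoundedLT K] {l : ℕ → Cardinal.{0}}

/-- conditions of the whole forcing -/
structure Top (T : Upper P K l) where
  p : P
  h : Set (T3 K)
  hh : CP l h

variable {T : Upper P K l}

instance : Preorder (Top T) where
  le q r := q.p ≤ r.p ∧ ∀ α ξ γ, (α, ξ, γ) ∈ r.h → ∃ γ', (α, ξ, γ') ∈ q.h ∧ T.Eqv q.p α γ γ'
  le_refl _ := ⟨le_rfl, fun _ _ γ k => ⟨γ, k, T.refl _ _ _⟩⟩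
  le_trans _ _ _ a b := ⟨a.1.trans b.1, fun _ _ _ k =>
    let ⟨_, k1, k2⟩ := b.2 _ _ _ k
    let ⟨γ, k3, k4⟩ := a.2 _ _ _ k1
    ⟨γ, k3, T.trans _ _ _ _ _ (T.mono _ _ _ _ _ k2 a.1) k4⟩⟩

lemma cl_cp (hl : Sc l) :
    CL (fun u v : {u : Set (T3 K) // CP l u} => v.1 ⊆ u.1) (l 0) := fun _ f _ hI hc =>
  ⟨⟨_, (Tl.iUnion hl hI (fun i => ⟨(f i).2, (f i).2.hi0 hl⟩) fun i j => (hc i j).symm).1⟩,
    fun i => subset_iUnion (fun i => (f i).1) i⟩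

lemma mk_cp (hl : Sc l) : #{u : Set (T3 K) // CP l u} ≤ 2 ^ ⨆ n, l n := by
  have b : ∀ n, l n ≤ ⨆ n, l n := le_ciSup bddAbove_of_small
  have i := (hl.inf 0).trans (b 0)
  have m := mk_Lt_le (K := K) (⨆ n, l n)
  refine (mk_le_mk_of_subset (s := {u | CP l u})
    (t := 𝒫 (Lt K (⨆ n, l n) ×ˢ Lt K (⨆ n, l n) ×ˢ Lt K (⨆ n, l n))) fun u h t k => ?_).trans ?_
  · obtain ⟨n, k1, k2, k3, k4⟩ := h.tri t k
    exact ⟨k2.trans_le (b _), k3.trans_le (b _), lower_Lt _ k4.le (k2.trans_le (b _))⟩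
  · rw [mk_powerset]
    exact power_le_power_left two_ne_zero (mk_sprod_le' i m (mk_sprod_le' i m m))

namespace Top

lemma le_of {q r : Top T} (h : q.p ≤ r.p) (h' : r.h ⊆ q.h) : q ≤ r :=
  ⟨h, fun _ _ γ k => ⟨γ, h' k, T.refl _ _ _⟩⟩

lemma le_p {q r : Top T} (h : q ≤ r) {p : P} (e : q.p ≤ p) : q ≤ ⟨p, r.h, r.hh⟩ := ⟨e, h.2⟩

lemma ovr_le {q r : Top T} (h : q ≤ r) : ⟨q.p, ovr r.h q.h, r.hh.ovr T.sc q.hh⟩ ≤ q := by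
  refine ⟨le_rfl, fun α ξ γ k => ?_⟩
  by_cases e : ∃ v, (α, ξ, v) ∈ r.h
  · obtain ⟨v, e⟩ := e
    obtain ⟨γ', k1, k2⟩ := h.2 _ _ _ e
    exact ⟨v, Or.inl e, T.symm _ _ _ _ (q.hh.fn _ _ _ _ k1 k ▸ k2)⟩
  · exact ⟨γ, Or.inr ⟨k, fun v a => e ⟨v, a⟩⟩, T.refl _ _ _⟩

lemma le_ovr {q r : Top T} (h : q ≤ r) : q ≤ ⟨q.p, ovr r.h q.h, r.hh.ovr T.sc q.hh⟩ :=
  ⟨le_rfl, fun _ _ γ k => k.elim (h.2 _ _ _) fun k => ⟨γ, k.1, T.refl _ _ _⟩⟩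

/-- the condition with an overriding part -/
def ov (T : Upper P K l) (p : P) (h0 u : {u : Set (T3 K) // CP l u}) : Top T :=
  ⟨p, ovr h0.1 u.1, h0.2.ovr T.sc u.2⟩

lemma ov_mono {p p' : P} {h0 u u' : {u : Set (T3 K) // CP l u}} (h : p' ≤ p) (e : u.1 ⊆ u'.1) :
    ov T p' h0 u' ≤ ov T p h0 u := le_of h (ovr_mono e)

theorem dec0 (h0 : {u : Set (T3 K) // CP l u}) {Q : Top T → Prop} (hQ : Mon Q)
    (u0 : {u : Set (T3 K) // CP l u}) : ∃ u : {u : Set (T3 K) // CP l u}, u0.1 ⊆ u.1 ∧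
      ∀ p, ∃ p' ≤ p, Dec Q (ov T p' h0 u) := by
  obtain ⟨u, k1, k2⟩ := easton1 (fun p q : P => p ≤ q)
    (fun u v : {u : Set (T3 K) // CP l u} => v.1 ⊆ u.1) (fun _ => le_rfl) (fun _ => Subset.rfl)
    (fun _ _ _ a b => b.trans a) T.cc (cl_cp T.sc) (fun p u => Q (ov T p h0 u))
    (fun _ _ _ _ k a b => hQ _ _ k (ov_mono a b)) (fun _ _ _ => le_trans) u0
  refine ⟨u, k1, fun p => (k2 p).imp fun p' k => ⟨k.1, k.2.imp id fun k q e a => ?_⟩⟩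
  exact k q.p ⟨ovr u.1 q.h, u.2.ovr T.sc q.hh⟩ e.1 sub_ovr
    (hQ _ _ a ((ovr_le e).trans' (by exact le_of le_rfl (ovr_ovr _ _ _).ge)))

theorem dec0' {J : Type} (hJ : #J < l 0) (h0 : J → {u : Set (T3 K) // CP l u})
    {Q : J → Top T → Prop} (hQ : ∀ j, Mon (Q j)) (u0 : {u : Set (T3 K) // CP l u}) :
    ∃ u : {u : Set (T3 K) // CP l u}, u0.1 ⊆ u.1 ∧
      ∀ j p, ∃ p' ≤ p, Dec (Q j) (ov T p' (h0 j) u) :=
  meet_lt (fun u v : {u : Set (T3 K) // CP l u} => v.1 ⊆ u.1) (fun _ => Subset.rfl)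
    (fun _ _ _ a b => b.trans a) (cl_cp T.sc) hJ
    (fun j u => ∀ p, ∃ p' ≤ p, Dec (Q j) (ov T p' (h0 j) u))
    (fun j _ _ k e p => (k p).imp fun _ k => ⟨k.1, mon_dec (hQ j) _ _ k.2 (ov_mono le_rfl e)⟩) u0
    fun j u => dec0 (h0 j) (hQ j) u

theorem cov_of_low {J : Type} (hJ : #J < l 0) {σ : Cardinal.{0}} (h : Cov P J σ) :
    Cov (Top T) J σ := by
  obtain ⟨Φ, N, n1, n2, n3⟩ := h
  refine ⟨Φ, fun φ j q => N φ j q.p, n1, fun _ _ _ _ k e => n2 _ _ _ _ k e.1, fun Q hm hr p => ?_⟩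
  obtain ⟨u, -, k⟩ := dec0' hJ (fun _ => ⟨p.h, p.hh⟩) hm ⟨∅, CP.empty T.sc⟩
  obtain ⟨r, r1, φ, r2⟩ := n3 (fun j p' => Q j (ov T p' ⟨p.h, p.hh⟩ u))
    (fun j _ _ k e => hm j _ _ k (ov_mono e Subset.rfl)) (fun j p' k => hr j _ fun q e =>
      let ⟨p'', a, b⟩ := k q.p e.1
      ⟨⟨p'', q.h, q.hh⟩, le_of a Subset.rfl, hm j _ _ b
        (by exact le_p (e.trans' (le_of (q := ⟨p'', q.h, q.hh⟩) a Subset.rfl)) le_rfl)⟩) p.p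
  refine ⟨ov T r ⟨p.h, p.hh⟩ u, le_of r1 sub_ovr, φ, fun j q e =>
    ⟨fun a => hm j _ _ ((r2 j q.p e.1).1 a) (le_p e le_rfl), fun a => ?_⟩⟩
  obtain ⟨p', a1, a2⟩ := k j q.p
  have b : (⟨p', q.h, q.hh⟩ : Top T) ≤ q := le_of a1 Subset.rfl
  obtain ⟨p'', a3, a4⟩ := (r2 j p' (a1.trans e.1)).2 (a2.resolve_right fun c =>
    c _ (le_p (b.trans e) le_rfl) (hm j _ _ a b))
  exact ⟨⟨p'', q.h, q.hh⟩, le_of (a3.trans a1) Subset.rfl, a4⟩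

theorem clp_of_low {ρ σ : Cardinal.{0}} (h : Clp P ρ σ) : Clp (Top T) ρ σ := by
  intro A R hA hR
  obtain ⟨H, k1, k2, k3⟩ := h A R hA hR
  exact ⟨fun r a q => H r a q.p, fun _ _ _ _ k e => k1 _ _ _ _ k e.1, fun _ _ _ _ => k2 _ _ _ _,
    fun a q => let ⟨p, a1, a2⟩ := k3 a q.p; ⟨⟨p, q.h, q.hh⟩, le_of a1 Subset.rfl, a2⟩⟩

theorem clp_up (n : ℕ) : Clp (Top T) (l n) (l (n + 1)) := by
  intro A R hA hR
  obtain ⟨α, a1, a3, a2, cn, hc⟩ := T.good n _ hA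
  obtain ⟨e⟩ := (Cardinal.le_def _ _).1 a3
  obtain ⟨i⟩ := (Cardinal.le_def _ _).1 ((mk_Lt_le (K := K) (l n)).trans hR)
  refine ⟨fun r a q => ∃ ξ γ, i ξ = r ∧ (α, ξ.1, γ) ∈ q.h ∧ T.Eqv q.p α γ (cn (e a)),
    fun _ _ _ _ ⟨ξ, γ, k1, k2, k3⟩ l => ?_, ?_, fun a q => ?_⟩
  · obtain ⟨γ', k4, k5⟩ := l.2 _ _ _ k2
    exact ⟨ξ, γ', k1, k4, T.trans _ _ _ _ _ (T.symm _ _ _ _ k5) (T.mono _ _ _ _ _ k3 l.1)⟩
  · rintro _ a a' q ⟨ξ, γ, rfl, k1, k2⟩ ⟨ξ', γ', k3, k4, k5⟩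
    cases i.injective k3
    cases q.hh.fn _ _ _ _ k1 k4
    exact e.injective (hc _ _ _ (T.trans _ _ _ _ _ (T.symm _ _ _ _ k2) k5))
  · obtain ⟨ξ, k1, k2⟩ := q.hh.add T.sc (T.lK n) a1 a2 (cn (e a)).2
    exact ⟨⟨q.p, _, k2⟩, le_of le_rfl (subset_insert _ _), _, ⟨ξ, k1⟩, _, rfl, mem_insert _ _,
      T.refl _ _ _⟩

/-- lower parts -/
abbrev LP (_ : Upper P K l) (n : ℕ) : Type := P × {a : Set (T3 K) // Hd l n a}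

/-- a lower part together with the tail of a condition -/
def jn (T : Upper P K l) {n : ℕ} (c : LP T n) (u : {u : Set (T3 K) // CP l u}) : Top T :=
  ⟨c.1, c.2.1 ∪ u.1 ∩ (Lo (l n))ᶜ, c.2.2.tl T.sc (u.2.tl n)⟩

lemma sm (T : Upper P K l) (n : ℕ) : Sm (l n) (l (n + 1)) := sm_inacc (T.inacc n) _

lemma cc_lp (n : ℕ) : CC (fun x y : LP T (n + 1) => x.1 ≤ y.1 ∧ y.2.1 ⊆ x.2.1) (l (n + 1)) :=
  cc_prod (fun p q : P => p ≤ q) _ (fun _ => le_rfl) (T.sc.reg _)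
    (T.hP.trans_lt (T.sc.mono n.succ_pos)) (cc_hd T.sc T.lK (sm T) (n + 1))

lemma mk_lp (n : ℕ) : #(LP T (n + 1)) ≤ l (n + 1) := mk_prod_le' (T.sc.inf _)
  (T.hP.trans (T.sc.mono n.succ_pos).le) (mk_hd T.sc (pw_inacc (T.inacc n)))

/-- decision by lower parts -/
def Dc (n : ℕ) (Q : Top T → Prop) (u : {u : Set (T3 K) // CP l u}) : Prop :=
  ∀ c : LP T n, ∃ c' : LP T n, (c'.1 ≤ c.1 ∧ c.2.1 ⊆ c'.2.1) ∧ Dec Q (jn T c' u)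

lemma Dc.mono {n : ℕ} {Q : Top T → Prop} (hQ : Mon Q) {u v : {u : Set (T3 K) // CP l u}}
    (h : Dc n Q u) (e : u.1 ⊆ v.1) : Dc n Q v := fun c => (h c).imp fun _ k =>
  ⟨k.1, mon_dec hQ _ _ k.2
    (by exact le_of le_rfl (union_subset_union_right _ (inter_subset_inter_left _ e)))⟩

theorem exists_dc (n : ℕ) {J : Type} (hJ : #J < l (n + 1)) {Q : J → Top T → Prop}
    (hQ : ∀ j, Mon (Q j)) (u0 : {u : Set (T3 K) // CP l u}) :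
    ∃ u : {u : Set (T3 K) // CP l u}, u0.1 ⊆ u.1 ∧ ∀ j, Dc (n + 1) (Q j) u := by
  obtain ⟨u, k1, k2⟩ := easton (fun x y : LP T (n + 1) => x.1 ≤ y.1 ∧ y.2.1 ⊆ x.2.1)
    (fun u v : {u : Set (T3 K) // Tl l (n + 1) u} => v.1 ⊆ u.1) (fun _ => ⟨le_rfl, Subset.rfl⟩)
    (fun _ _ _ a b => ⟨a.1.trans b.1, b.2.trans a.2⟩) (fun _ => Subset.rfl)
    (fun _ _ _ a b => b.trans a) (cc_lp n) (cl_tl T.sc _) hJ
    (fun j c u => Q j ⟨c.1, c.2.1 ∪ u.1, c.2.2.tl T.sc u.2⟩)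
    (fun j _ _ _ _ k a b => hQ j _ _ k (le_of a.1 (union_subset_union a.2 b))) ⟨_, u0.2.tl _⟩
  let v : {u : Set (T3 K) // CP l u} := ⟨_, (u0.2.hd (n + 1)).tl T.sc u.2⟩
  have hv : u.1 ⊆ v.1 ∩ (Lo (l (n + 1)))ᶜ := subset_inter subset_union_right u.2.2
  refine ⟨v, (inter_union_compl _ _).ge.trans (union_subset_union_right _ k1), fun j c =>
    (k2 j c).imp fun c' k => ⟨k.1, k.2.imp (fun a => hQ j _ _ a
      (by exact le_of le_rfl (union_subset_union_right _ hv))) fun k q e a => ?_⟩⟩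
  have w := (jn T c' v).hh.ovr T.sc q.hh
  exact k (q.p, ⟨_, w.hd _⟩) ⟨_, w.tl _⟩ ⟨e.1, subset_inter (subset_union_left.trans sub_ovr)
    c'.2.2.2⟩ (subset_inter ((hv.trans subset_union_right).trans sub_ovr) u.2.2)
    (hQ j _ _ a ((ovr_le e).trans' (by exact le_of le_rfl (inter_union_compl _ _).ge)))

theorem Dc.use {n : ℕ} {Q : Top T → Prop} (hQ : Mon Q) {u : {u : Set (T3 K) // CP l u}}
    (h : Dc n Q u) {p : P} {q : Top T} (e : q ≤ ⟨p, u.1, u.2⟩) (a : Q q) :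
    ∃ c : LP T n, Q (jn T c u) ∧ ∀ c' : LP T n, c'.1 ≤ c.1 → c.2.1 ⊆ c'.2.1 →
      ∃ q' ≤ q, q' ≤ jn T c' u := by
  have w := u.2.ovr T.sc q.hh
  obtain ⟨c, k1, k2⟩ := h (q.p, ⟨_, w.hd n⟩)
  have key : ∀ c' : LP T n, c'.1 ≤ c.1 → c.2.1 ⊆ c'.2.1 → ∃ q' ≤ q, q' ≤ jn T c' u := fun c' a b =>
    ⟨⟨c'.1, _, w.add_hd T.sc c'.2.2 (c'.2.2.1.fn.sub (union_subset (k1.2.trans b) Subset.rfl))⟩,
      (ovr_le e).trans' (by exact le_of (a.trans k1.1) subset_union_left), le_of le_rfl (union_subset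
        subset_union_right (inter_subset_left.trans (sub_ovr.trans subset_union_left)))⟩
  obtain ⟨q', k3, k4⟩ := key c le_rfl Subset.rfl
  exact ⟨c, k2.resolve_right fun k => k _ k4 (hQ _ _ a k3), key⟩

lemma le_jn {n : ℕ} {c : LP T n} {u : {u : Set (T3 K) // CP l u}} {p : P} {q : Top T}
    (e : q ≤ ⟨p, u.1, u.2⟩) (e' : q ≤ ⟨c.1, c.2.1, c.2.2.1⟩) : q ≤ jn T c u :=
  ⟨e'.1, fun _ _ _ k => k.elim (e'.2 _ _ _) fun k => e.2 _ _ _ k.1⟩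

theorem cov_up (n : ℕ) {J : Type} (hJ : #J < l (n + 1)) : Cov (Top T) J (l (n + 1)) := by
  have rg := T.sc.reg (n + 1)
  refine ⟨{φ : Set (J × LP T (n + 1)) | φ ⊆ Set.univ ∧ #φ < l (n + 1)},
    fun φ j q => ∃ c, (j, c) ∈ φ.1 ∧ q ≤ ⟨c.1, c.2.1, c.2.2.1⟩,
    cnt rg.1 le_rfl (pw_inacc (T.inacc n)) (by
      rw [mk_univ]; exact mk_prod_le' rg.1 hJ.le (mk_lp n)),
    fun _ _ _ _ ⟨c, k, k'⟩ e => ⟨c, k, e.trans k'⟩, fun Q hm _ p => ?_⟩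
  obtain ⟨u, k1, k2⟩ := exists_dc n hJ hm ⟨p.h, p.hh⟩
  choose A a1 a2 a3 using fun j => cc_lp (T := T) n {c | Q j (jn T c u)}
  refine ⟨⟨p.p, u.1, u.2⟩, le_of le_rfl k1, ⟨⋃ j, Prod.mk j '' A j, subset_univ _,
    (card_iUnion_lt_iff_forall_of_isRegular rg hJ).2 fun j => mk_image_le.trans_lt (a2 j)⟩,
    fun j q e => ⟨?_, fun k => ?_⟩⟩
  · rintro ⟨a, ⟨_, ⟨i, rfl⟩, b, k, e'⟩, k'⟩
    cases e'
    exact hm _ _ _ (a1 _ k) (le_jn e k')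
  · obtain ⟨c, c1, c2⟩ := (k2 j).use (hm j) e k
    obtain ⟨a, k3, d, k4, k5⟩ := a3 j c c1
    obtain ⟨q', k6, k7⟩ := c2 d k4.1 k4.2
    exact ⟨q', k6, a, mem_iUnion.2 ⟨j, a, k3, rfl⟩,
      k7.trans (le_of k5.1 (k5.2.trans subset_union_left))⟩

theorem cov_sup {J : Type} (hJ : #J ≤ ⨆ n, l n) : Cov (Top T) J (2 ^ ⨆ n, l n) := by
  have b : ∀ n, l n ≤ ⨆ n, l n := le_ciSup bddAbove_of_small
  have i := (T.sc.inf 0).trans (b 0)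
  obtain ⟨e⟩ := (Cardinal.le_def _ _).1 (hJ.trans (le_mk_Lt (ciSup_le' T.lK)))
  refine ⟨Set (J × Σ n, LP T (n + 1)),
    fun φ j q => ∃ c, (j, c) ∈ φ ∧ q ≤ ⟨c.2.1, c.2.2.1, c.2.2.2.1⟩, ?_,
    fun _ _ _ _ ⟨c, k, k'⟩ e => ⟨c, k, e.trans k'⟩, fun Q hm _ p => ?_⟩
  · rw [mk_set]
    refine power_le_power_left two_ne_zero (mk_prod_le' i hJ ?_)
    rw [mk_sigma]
    exact (sum_le_sum _ _ fun n => (mk_lp n).trans (b _)).trans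
      (by simpa using mul_le' i i le_rfl)
  obtain ⟨u, k1, k2⟩ := meet_lt (fun u v : {u : Set (T3 K) // CP l u} => v.1 ⊆ u.1)
    (fun _ => Subset.rfl) (fun _ _ _ a b => b.trans a) (cl_cp T.sc) (T := ℕ) (by simpa using T.l0)
    (fun n u => ∀ j : {j // (e j).1 ∈ Lt K (l n)}, Dc (n + 1) (Q j) u)
    (fun _ _ _ k e j => (k j).mono (hm j) e) ⟨p.h, p.hh⟩ fun n u => exists_dc n
      (((mk_le_of_injective (f := fun j : {j // (e j).1 ∈ Lt K (l n)} =>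
        (⟨_, j.2⟩ : Lt K (l n))) fun _ _ k => Subtype.ext (e.injective (Subtype.ext
          (Subtype.mk.inj k)))).trans (mk_Lt_le _)).trans_lt (T.sc.mono n.lt_succ_self))
      (fun j => hm j) u
  refine ⟨⟨p.p, u.1, u.2⟩, le_of le_rfl k1, {x | Q x.1 (jn T x.2.2 u)}, fun j q a =>
    ⟨fun ⟨c, k, k'⟩ => hm _ _ _ k (le_jn a k'), fun k => ?_⟩⟩
  obtain ⟨n, hn⟩ := (lt_ciSup_iff bddAbove_of_small).1 (e j).2
  obtain ⟨c, c1, c2⟩ := (k2 n ⟨j, hn⟩).use (hm j) a k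
  obtain ⟨q', k6, k7⟩ := c2 c le_rfl Subset.rfl
  exact ⟨q', k6, ⟨n, c⟩, c1, k7.trans (le_of le_rfl subset_union_left)⟩

lemma mk_le (gch : ∀ c : Cardinal.{0}, ℵ₀ ≤ c → 2 ^ c = Order.succ c) :
    #(Top T) ≤ Order.succ (⨆ n, l n) := by
  have b : ∀ n, l n ≤ ⨆ n, l n := le_ciSup bddAbove_of_small
  have i := (T.sc.inf 0).trans (b 0)
  refine (mk_le_of_injective (f := fun q : Top T => (q.p, (⟨q.h, q.hh⟩ : {u // CP l u}))) ?_).trans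
    (mk_prod_le' (i.trans (Order.le_succ _)) (T.hP.trans ((b 0).trans (Order.le_succ _)))
      (gch _ i ▸ mk_cp T.sc))
  rintro ⟨⟩ ⟨⟩ e
  cases e
  rfl

end Top

lemma Clp.mono {ρ ρ' σ : Cardinal.{0}} (h : Clp P ρ σ) (e : ρ ≤ ρ') : Clp P ρ' σ :=
  fun A R a b => h A R a (e.trans b)

lemma clp_succ (ρ : Cardinal.{0}) : Clp P ρ (Order.succ ρ) := fun _ _ a b =>
  let ⟨e⟩ := (Cardinal.le_def _ _).1 ((Order.lt_succ_iff.1 a).trans b)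
  ⟨fun r a _ => e a = r, fun _ _ _ _ k _ => k, fun _ _ _ _ k k' => e.injective (k.trans k'.symm),
    fun _ p => ⟨p, le_rfl, _, rfl⟩⟩

lemma cov_big {J : Type} {ρ : Cardinal.{0}} (i : ℵ₀ ≤ ρ) (hJ : #J ≤ ρ) (hP : #P ≤ ρ) :
    Cov P J (2 ^ ρ) :=
  ⟨Set (J × P), fun φ j q => ∃ a, (j, a) ∈ φ ∧ q ≤ a, by
    rw [mk_set]; exact power_le_power_left two_ne_zero (mk_prod_le' i hJ hP),
    fun _ _ _ _ ⟨a, k, k'⟩ e => ⟨a, k, e.trans k'⟩, fun Q hm _ p => ⟨p, le_rfl, {x | Q x.1 x.2},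
      fun j q _ => ⟨fun ⟨_, k, k'⟩ => hm j _ _ k k', fun k => ⟨q, le_rfl, q, k, le_rfl⟩⟩⟩⟩

lemma exists_between {ρ : Cardinal.{0}} (h : l 0 ≤ ρ) (h' : ρ < ⨆ n, l n) :
    ∃ n, l n ≤ ρ ∧ ρ < l (n + 1) := by
  classical
  have k := (lt_ciSup_iff bddAbove_of_small).1 h'
  have k1 := Nat.find_spec k
  have k2 := fun m => Nat.find_min k (m := m)
  generalize Nat.find k = n at k1 k2
  cases n with
  | zero => exact absurd h (not_le.2 k1)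
  | succ n => exact ⟨n, not_lt.1 (k2 n n.lt_succ_self), k1⟩

variable {B I Y O : Type} [LinearOrder B] [WellFoundedLT B] [LinearOrder O] [WellFoundedLT O]
  {S : Bot B I Y O} {Γ : Gui S}

theorem steps (gch : ∀ c : Cardinal.{0}, ℵ₀ ≤ c → 2 ^ c = Order.succ c) (T : Upper (Cond Γ) K l)
    (h0 : S.l 0 = ℵ₀) (h1 : l 0 = Order.succ S.κ) :
    (∀ n, Step (Top T) (S.l n) (S.l (n + 1))) ∧ Step (Top T) (⨆ n, S.l n) (l 0) ∧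
      (∀ n, Step (Top T) (l n) (l (n + 1))) ∧ ∀ ρ, ℵ₀ ≤ ρ → ∃ σ, Step (Top T) ρ σ := by
  have a1 : ∀ n ρ, S.l n ≤ ρ → ρ < S.l (n + 1) → Step (Top T) ρ (S.l (n + 1)) := fun n ρ a b =>
    ⟨b, fun J k => Top.cov_of_low (h1 ▸ Order.lt_succ_iff.2 (k.trans (b.le.trans (Cond.lκ _))))
      (Cond.cov_low n (k.trans_lt b)), Top.clp_of_low ((Cond.clp_low n).mono a)⟩
  have a2 : ∀ ρ, ⨆ n, S.l n ≤ ρ → ρ < l 0 → Step (Top T) ρ (l 0) := fun ρ a b =>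
    ⟨b, fun J k => Top.cov_of_low (k.trans_lt b)
      (h1 ▸ Cond.cov_top (Order.lt_succ_iff.1 (h1 ▸ k.trans_lt b))),
      Top.clp_of_low (h1 ▸ Cond.clp_top.mono a)⟩
  have a3 : ∀ n ρ, l n ≤ ρ → ρ < l (n + 1) → Step (Top T) ρ (l (n + 1)) := fun n ρ a b =>
    ⟨b, fun J k => Top.cov_up n (k.trans_lt b), (Top.clp_up n).mono a⟩
  refine ⟨fun n => a1 n _ le_rfl (S.sc.mono n.lt_succ_self),
    a2 _ le_rfl (h1 ▸ Order.lt_succ_iff.2 (ciSup_le' Cond.lκ)),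
    fun n => a3 n _ le_rfl (T.sc.mono n.lt_succ_self), fun ρ i => ?_⟩
  rcases lt_or_ge ρ (⨆ n, S.l n) with b1 | b1
  · obtain ⟨n, k, k'⟩ := exists_between (h0 ▸ i) b1
    exact ⟨_, a1 n ρ k k'⟩
  rcases lt_or_ge ρ (l 0) with b2 | b2
  · exact ⟨_, a2 ρ b1 b2⟩
  rcases lt_trichotomy ρ (⨆ n, l n) with b3 | rfl | b3
  · obtain ⟨n, k, k'⟩ := exists_between b2 b3
    exact ⟨_, a3 n ρ k k'⟩
  · exact ⟨_, Order.lt_succ _, fun J k => gch _ i ▸ Top.cov_sup k, clp_succ _⟩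
  · exact ⟨_, Order.lt_succ _, fun J k => gch _ i ▸ cov_big i k
      ((Top.mk_le gch).trans (Order.succ_le_of_lt b3)), clp_succ _⟩

end Pool.Agent.Lib.MP_72fca1_lc
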